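import Pool.Agent.V7H16.GD.Defs
import Pool.Agent.R471.RD.Dig

/-!
Palindromes with a prescribed initial block of digits, digits `σ c i + j` at the free places and fixed digits at the
other places: digit facts (after `Pool.Agent.R471.RD.Dig`).
-/

set_option autoImplicit false

namespace Pool.Agent.V7H16.GD

open Finset Filter Topology
open Pool.Agent.W89.PW (fr)
open Pool.Agent.H181R5.PBT9 (ofDigits_map_range)
open Pool.Agent.R471.RD.Dig (sum_dist nv nv_split all_lt nv_digits nv_pal nv_lt nv_div nv_mod)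

variable {b s t : ℕ}

/-- the digit at distance `j` from the middle -/
def dd (φ : Fam b s t) (g : ℕ → ℕ) (e : ℕ) {L : ℕ} (m : Fin L → Fin s × Fin t) : ℕ → ℕ
  | 0 => e
  | c + 1 => if h : c < L then (if φ.A c = true then φ.σ c (m ⟨c, h⟩).1 + ((m ⟨c, h⟩).2 : ℕ) else g c) else e

lemma dd_succ (φ : Fam b s t) (g : ℕ → ℕ) (e : ℕ) {L : ℕ} (m : Fin L → Fin s × Fin t) (c : ℕ) :
    dd φ g e m (c + 1) =
    if h : c < L then (if φ.A c = true then φ.σ c (m ⟨c, h⟩).1 + ((m ⟨c, h⟩).2 : ℕ) else g c) else e := rfl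

/-- the inner digits -/
def inn (φ : Fam b s t) (g : ℕ → ℕ) (e : ℕ) {L : ℕ} (m : Fin L → Fin s × Fin t) : List ℕ :=
  (List.range (2 * L + 1)).map (fun j => dd φ g e m (Nat.dist j L))

lemma inn_length (φ : Fam b s t) (g : ℕ → ℕ) (e : ℕ) {L : ℕ} (m : Fin L → Fin s × Fin t) :
    (inn φ g e m).length = 2 * L + 1 := by
  simp [inn]

lemma inn_reverse (φ : Fam b s t) (g : ℕ → ℕ) (e : ℕ) {L : ℕ} (m : Fin L → Fin s × Fin t) :
    (inn φ g e m).reverse = inn φ g e m := by
  unfold inn
  apply List.ext_getElem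
  · simp
  · intro i h1 h2
    have h3 : i < 2 * L + 1 := by simpa using h2
    rw [List.getElem_reverse]
    simp only [List.getElem_map, List.getElem_range, List.length_map, List.length_range]
    congr 1
    unfold Nat.dist
    omega

lemma dd_lt (φ : Fam b s t) (g : ℕ → ℕ) (e : ℕ) {L : ℕ} (hg : ∀ c < L, φ.A c ≠ true → g c < b) (he : e < b)
    (m : Fin L → Fin s × Fin t) (j : ℕ) : dd φ g e m j < b := by
  cases j with
  | zero => exact he
  | succ c =>
    rw [dd_succ]
    split_ifs with h h1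
    · have h1 := φ.le c (m ⟨c, h⟩).1
      have h2 := (m ⟨c, h⟩).2.is_lt
      omega
    · exact hg c h h1
    · exact he

lemma inn_lt (φ : Fam b s t) (g : ℕ → ℕ) (e : ℕ) {L : ℕ} (hg : ∀ c < L, φ.A c ≠ true → g c < b) (he : e < b)
    (m : Fin L → Fin s × Fin t) : ∀ x ∈ inn φ g e m, x < b := by
  intro x hx
  rw [inn, List.mem_map] at hx
  obtain ⟨i, _, rfl⟩ := hx
  exact dd_lt φ g e hg he m _

/-- the constant part -/
def KK (φ : Fam b s t) (g : ℕ → ℕ) (e L : ℕ) : ℕ :=
  e * b ^ (L + 1) + ∑ c ∈ range L, if φ.A c = true then 0 else g c * fr b L c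

lemma inn_val (φ : Fam b s t) (g : ℕ → ℕ) (e : ℕ) {L : ℕ} (m : Fin L → Fin s × Fin t) :
    b * Nat.ofDigits b (inn φ g e m) = pvG φ L m + KK φ g e L := by
  rw [inn, ofDigits_map_range, sum_dist, mul_add, mul_sum]
  have h1 : ∑ c ∈ range L, b * (dd φ g e m (c + 1) * (b ^ (L + 1 + c) + b ^ (L - 1 - c))) =
      ∑ c ∈ range L, dd φ g e m (c + 1) * fr b L c := by
    apply sum_congr rfl
    intro c hc
    rw [mem_range] at hc
    unfold fr
    have e1 : b ^ (L + c + 2) = b * b ^ (L + 1 + c) := by rw [← pow_succ']; congr 1; ring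
    have e2 : b ^ (L - c) = b * b ^ (L - 1 - c) := by rw [← pow_succ']; congr 1; omega
    rw [e1, e2]
    ring
  have h2 : ∑ c ∈ range L, dd φ g e m (c + 1) * fr b L c =
      pvG φ L m + ∑ c ∈ range L, if φ.A c = true then 0 else g c * fr b L c := by
    unfold pvG
    rw [sum_range, sum_range, ← sum_add_distrib]
    apply sum_congr rfl
    intro c _
    rw [dd_succ, dif_pos c.is_lt]
    split_ifs
    · rfl
    · ring
  rw [h1, h2]
  unfold KK
  have h3 : dd φ g e m 0 = e := rfl
  rw [h3]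
  ring

lemma inn_sum (φ : Fam b s t) (g : ℕ → ℕ) (e : ℕ) {L : ℕ} (m : Fin L → Fin s × Fin t) :
    ∃ k, (inn φ g e m).sum = e + 2 * k := by
  have h := ofDigits_map_range 1 (fun j => dd φ g e m (Nat.dist j L)) (2 * L + 1)
  rw [sum_dist, Nat.ofDigits_one] at h
  refine ⟨∑ c ∈ range L, dd φ g e m (c + 1), ?_⟩
  unfold inn
  rw [h]
  simp only [one_pow, mul_one, mul_sum]
  have h3 : dd φ g e m 0 = e := rfl
  rw [h3]
  congr 1
  apply sum_congr rfl
  intro c _
  ring

/-- the inner digits are the digits in the inner places -/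
lemma nv_digit (hb : 1 < b) {K L w : ℕ} {I : List ℕ} (hI : ∀ x ∈ I, x < b) (hw : w ≠ 0)
    (hK : (Nat.digits b w).length = K + 1) (hL : I.length = 2 * L + 1) (i : ℕ) (h1 : K < i)
    (h2 : i < 2 * (L + K + 1) - K) : some (nv b w I / b ^ i % b) = I[i - (K + 1)]? := by
  have h3 := Nat.getD_digits (nv b w I) i (b := b) (by omega)
  rw [nv_digits hb hw hI] at h3
  have h4 : i - (K + 1) < I.length := by omega
  rw [← h3, List.getD_eq_getElem?_getD, List.getElem?_append_right (by rw [List.length_reverse]; omega),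
    List.length_reverse, hK, List.getElem?_append_left h4, List.getElem?_eq_getElem h4]
  rfl

/-- the digits at distance `j` from the middle -/
lemma nv_digit_dd (φ : Fam b s t) (g : ℕ → ℕ) (e : ℕ) {K L w : ℕ} (hb : 1 < b)
    (hg : ∀ c < L, φ.A c ≠ true → g c < b) (he : e < b) (hw : w ≠ 0)
    (hK : (Nat.digits b w).length = K + 1) (m : Fin L → Fin s × Fin t) (i : ℕ) (h1 : K < i)
    (h2 : i < 2 * (L + K + 1) - K) :
    nv b w (inn φ g e m) / b ^ i % b = dd φ g e m (Nat.dist i (L + K + 1)) := by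
  have h3 := nv_digit hb (inn_lt φ g e hg he m) hw hK (inn_length φ g e m) i h1 h2
  have h4 : (inn φ g e m)[i - (K + 1)]? = some (dd φ g e m (Nat.dist i (L + K + 1))) := by
    unfold inn
    rw [List.getElem?_map, List.getElem?_range (by omega)]
    have h5 : Nat.dist (i - (K + 1)) L = Nat.dist i (L + K + 1) := by unfold Nat.dist; omega
    simp only [Option.map_some, h5]
  rw [h4] at h3
  exact Option.some.inj h3

lemma nv_coprime (hb : 3 ≤ b) {K w : ℕ} {I : List ℕ} (hodd : Even b ∨ Odd I.sum)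
    (h1 : b ^ K ≤ w) (h2 : w < b ^ (K + 1)) (hc : (w / b ^ K).Coprime b) :
    (nv b w I).Coprime (2 * b) := by
  have hb1 : 1 < b := by omega
  have hcb : (nv b w I).Coprime b := by
    obtain ⟨k, hk⟩ := nv_mod hb1 I h1 h2
    rw [hk, Nat.coprime_add_mul_left_left]
    exact hc
  rcases hodd with he | hodd
  · rw [Nat.coprime_mul_iff_right]
    exact ⟨Nat.Coprime.coprime_dvd_right he.two_dvd hcb, hcb⟩
  · exact Pool.Agent.R471.RD.Dig.nv_coprime hb hodd h1 h2 hc

/-- divisibility by a modulus prime to `2 b` is a congruence for `pvG` -/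
lemma nv_dvd (φ : Fam b s t) (g : ℕ → ℕ) (e : ℕ) (hb : 1 < b) {K w : ℕ} (hK : (Nat.digits b w).length = K + 1)
    (L : ℕ) :
    ∃ u : ℕ → ℕ, ∀ q : ℕ, q.Coprime (2 * b) → ∀ m : Fin L → Fin s × Fin t,
      q ∣ nv b w (inn φ g e m) ↔ pvG φ L m ≡ u q [MOD q] := by
  have h3 : ∀ m : Fin L → Fin s × Fin t, nv b w (inn φ g e m) =
      Nat.ofDigits b (Nat.digits b w).reverse + b ^ K * (pvG φ L m + KK φ g e L) +
        b ^ (K + 2 * L + 2) * w := by
    intro m
    rw [nv_split hK (inn_length φ g e m), ← inn_val]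
    ring
  generalize Nat.ofDigits b (Nat.digits b w).reverse = R0 at h3
  generalize KK φ g e L = S at h3
  refine ⟨fun q => ((- (b : ZMod q) ^ (2 * L + 2) * (w : ZMod q) - (S : ZMod q) -
    ((b : ZMod q) ^ K)⁻¹ * (R0 : ZMod q) : ZMod q)).val, ?_⟩
  intro q hq m
  have hq0 : q ≠ 0 := by
    rintro rfl
    rw [Nat.coprime_zero_left] at hq
    omega
  have : NeZero q := ⟨hq0⟩
  have hqb : b.Coprime q := (Nat.Coprime.coprime_dvd_right (dvd_mul_left b 2) hq).symm
  have hinv : ((b : ZMod q) ^ K) * ((b : ZMod q) ^ K)⁻¹ = 1 := by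
    have h := ZMod.coe_mul_inv_eq_one (b ^ K) (Nat.Coprime.pow_left K hqb)
    push_cast at h
    exact h
  have h4 := congrArg (Nat.cast : ℕ → ZMod q) (h3 m)
  rw [← ZMod.natCast_eq_zero_iff, ← ZMod.natCast_eq_natCast_iff, ZMod.natCast_val, ZMod.cast_id]
  push_cast at h4
  set X : ZMod q := ((nv b w (inn φ g e m) : ℕ) : ZMod q) with hX
  set Y : ZMod q := ((pvG φ L m : ℕ) : ZMod q) with hY
  set B : ZMod q := (b : ZMod q) ^ K with hB
  have e1 : (b : ZMod q) ^ (K + 2 * L + 2) = B * (b : ZMod q) ^ (2 * L + 2) := by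
    rw [hB, ← pow_add]
    congr 1
  rw [e1] at h4
  set P : ZMod q := (b : ZMod q) ^ (2 * L + 2) with hP
  constructor
  · intro h0
    rw [h0] at h4
    have h5 : B⁻¹ * 0 = B⁻¹ * (R0 + B * (Y + S) + B * P * w) := by rw [h4]
    linear_combination (-1) * h5 + (-Y - S - P * w) * hinv
  · intro h0
    rw [h0] at h4
    linear_combination h4 - R0 * hinv

/-- equal palindromes have equal digits at the free places -/
lemma nv_inj (φ : Fam b s t) (g : ℕ → ℕ) (e : ℕ) (hb : 1 < b) {K w L : ℕ} (hw : w ≠ 0)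
    (hK : (Nat.digits b w).length = K + 1)
    (hg : ∀ c < L, φ.A c ≠ true → g c < b) (he : e < b) {m m' : Fin L → Fin s × Fin t}
    (h : nv b w (inn φ g e m) = nv b w (inn φ g e m')) (c : Fin L) (hc : φ.A c = true) :
    φ.σ c (m c).1 + ((m c).2 : ℕ) = φ.σ c (m' c).1 + ((m' c).2 : ℕ) := by
  have hcL := c.is_lt
  have h1 := nv_digit_dd φ g e hb hg he hw hK m (L + K + 1 + (c + 1)) (by omega) (by omega)
  have h2 := nv_digit_dd φ g e hb hg he hw hK m' (L + K + 1 + (c + 1)) (by omega) (by omega)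
  rw [h, h2] at h1
  have h6 : Nat.dist (L + K + 1 + (c + 1)) (L + K + 1) = c + 1 := by unfold Nat.dist; omega
  rw [h6, dd_succ, dd_succ, dif_pos c.is_lt, dif_pos c.is_lt, if_pos hc, if_pos hc] at h1
  exact h1.symm

/-- Cauchy's inequality for the fibres -/
lemma card_sq_le (φ : Fam b s t) {L : ℕ} (F : (Fin L → Fin s × Fin t) → ℕ)
    (hF : ∀ m m' : Fin L → Fin s × Fin t, F m = F m' → ∀ c : Fin L, φ.A c = true →
      φ.σ c (m c).1 + ((m c).2 : ℕ) = φ.σ c (m' c).1 + ((m' c).2 : ℕ)) (G : Finset (Fin L → Fin s × Fin t)) :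
    G.card ^ 2 ≤ (G.image F).card * ((s * t ^ 2) ^ fc φ L * ((s * t) ^ 2) ^ nf φ L) := by
  classical
  set Ec : ℕ → Finset ((Fin s × Fin t) × (Fin s × Fin t)) := fun c =>
    univ.filter (fun x => φ.A c = true → φ.σ c x.1.1 + (x.1.2 : ℕ) = φ.σ c x.2.1 + (x.2.2 : ℕ)) with hEc
  have hE : ∀ c, (Ec c).card ≤ if φ.A c = true then s * t ^ 2 else (s * t) ^ 2 := by
    intro c
    split_ifs with h
    · have h1 : (Ec c).card ≤ (univ : Finset (Fin s × Fin t × Fin t)).card := by
        apply card_le_card_of_injOn (fun x => (x.1.1, x.1.2, x.2.2)) (fun x _ => mem_coe.2 (mem_univ _))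
        intro x hx y hy hxy
        rw [mem_coe, hEc, mem_filter] at hx hy
        have hx' := hx.2 h
        have hy' := hy.2 h
        simp only [Prod.mk.injEq] at hxy
        obtain ⟨h1, h2, h3⟩ := hxy
        rw [h1, h2, hy', h3] at hx'
        have h4 : y.2.1 = x.2.1 := φ.inj c (by omega)
        exact Prod.ext (Prod.ext h1 h2) (Prod.ext h4.symm h3)
      refine h1.trans (le_of_eq ?_)
      rw [card_univ, Fintype.card_prod, Fintype.card_prod, Fintype.card_fin, Fintype.card_fin]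
      ring
    · refine (card_filter_le _ _).trans (le_of_eq ?_)
      rw [card_univ, Fintype.card_prod, Fintype.card_prod, Fintype.card_fin, Fintype.card_fin]
      ring
  have hpairs : ((univ : Finset ((Fin L → Fin s × Fin t) × (Fin L → Fin s × Fin t))).filter
      (fun x => F x.1 = F x.2)).card ≤ (s * t ^ 2) ^ fc φ L * ((s * t) ^ 2) ^ nf φ L := by
    have h1 : (Fintype.piFinset (fun c : Fin L => Ec c)).card ≤
        (s * t ^ 2) ^ fc φ L * ((s * t) ^ 2) ^ nf φ L := by
      rw [Fintype.card_piFinset]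
      calc ∏ c : Fin L, (Ec c).card ≤ ∏ c : Fin L, (if φ.A c = true then s * t ^ 2 else (s * t) ^ 2) :=
            prod_le_prod' fun c _ => hE c
        _ = ∏ c ∈ range L, (if φ.A c = true then s * t ^ 2 else (s * t) ^ 2) :=
            Fin.prod_univ_eq_prod_range (fun c => if φ.A c = true then s * t ^ 2 else (s * t) ^ 2) L
        _ = _ := by
            rw [prod_ite, prod_const, prod_const]
            rfl
    refine le_trans ?_ h1
    apply card_le_card_of_injOn (fun x c => (x.1 c, x.2 c))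
    · intro x hx
      rw [mem_coe, mem_filter] at hx
      rw [mem_coe, Fintype.mem_piFinset]
      intro c
      rw [hEc, mem_filter]
      exact ⟨mem_univ _, hF _ _ hx.2 c⟩
    · intro x _ y _ h
      have h2 : ∀ c, (x.1 c, x.2 c) = (y.1 c, y.2 c) := fun c => congrFun h c
      apply Prod.ext
      · funext c
        exact (Prod.ext_iff.1 (h2 c)).1
      · funext c
        exact (Prod.ext_iff.1 (h2 c)).2
  have h1 : G.card = ∑ n ∈ G.image F, (G.filter (fun m => F m = n)).card :=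
    card_eq_sum_card_fiberwise fun m hm => mem_coe.2 (mem_image_of_mem _ (mem_coe.1 hm))
  have h2 := sq_sum_le_card_mul_sum_sq (s := G.image F)
    (f := fun n => (G.filter (fun m => F m = n)).card)
  rw [← h1] at h2
  refine h2.trans (Nat.mul_le_mul_left _ (le_trans ?_ hpairs))
  have h3 : ∑ n ∈ G.image F, (G.filter (fun m => F m = n)).card ^ 2 =
      ((G ×ˢ G).filter (fun x => F x.1 = F x.2)).card := by
    rw [card_eq_sum_card_fiberwise (f := fun x : (Fin L → Fin s × Fin t) × (Fin L → Fin s × Fin t) =>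
      F x.1) (t := G.image F)]
    · apply sum_congr rfl
      intro n _
      rw [sq, ← card_product]
      congr 1
      ext x
      simp only [mem_filter, mem_product]
      constructor
      · rintro ⟨⟨h4, h5⟩, h6, h7⟩
        exact ⟨⟨⟨h4, h6⟩, h5.trans h7.symm⟩, h5⟩
      · rintro ⟨⟨⟨h4, h6⟩, h7⟩, h5⟩
        exact ⟨⟨h4, h5⟩, h6, h7.symm.trans h5⟩
    · intro x hx
      rw [mem_coe, mem_filter, mem_product] at hx
      exact mem_coe.2 (mem_image_of_mem _ hx.1.1)
  rw [h3]
  apply card_le_card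
  intro x hx
  rw [mem_filter] at hx ⊢
  exact ⟨mem_univ _, hx.2⟩

end Pool.Agent.V7H16.GD
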