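import Pool.Agent.V7H16.GD.Sieve
import Pool.Agent.V7H16.GD.Dig

/-!
Palindromes with few prime factors whose digits lie in arbitrary sets which depend on the place: the final count.
-/

set_option autoImplicit false

namespace Pool.Agent.V7H16.GD

open Finset Filter Topology
open Pool.Agent.W89.PW (fr HH)
open Pool.Agent.R471.RD.Dig (nv nv_pal nv_lt nv_div)
open Pool.Agent.R471.PShort (dig_len)

lemma mu_cond {b s : ℕ} (hb : 3 ≤ b) (h23 : 2 * b < 3 * s) : (b : ℝ) * mu s < 1 := by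
  have hs2 : 2 ≤ s := by omega
  have hsR : (2 : ℝ) ≤ s := by exact_mod_cast hs2
  have hs0 : (0 : ℝ) < s := by linarith
  have h1 : 2 * (b : ℝ) + 1 ≤ 3 * s := by exact_mod_cast (by omega : 2 * b + 1 ≤ 3 * s)
  unfold mu
  rw [← mul_div_assoc, div_lt_one (by positivity)]
  have h2 : (b : ℝ) * (2 * (s : ℝ) ^ 2 + 1) ≤ (3 * s - 1) / 2 * (2 * (s : ℝ) ^ 2 + 1) :=
    mul_le_mul_of_nonneg_right (by linarith) (by positivity)
  nlinarith [mul_pos hs0 hs0]

/-- the choice of the density of the fixed places -/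
lemma choose_delta {b s t : ℕ} (hb : 3 ≤ b) (h23 : 2 * b < 3 * s) (ht : 1 ≤ t) {κ : ℝ}
    (hκ : (b : ℝ) ^ κ * HH s t < 1) : ∃ δ1 : ℝ, 0 < δ1 ∧ δ1 ≤ 1 / 2 ∧ (b : ℝ) * (mu s) ^ (1 - δ1) < 1 ∧
      (b : ℝ) ^ κ * (HH s t) ^ (1 - δ1) < 1 := by
  have hs1 : 1 ≤ s := by omega
  have hmu := mu_pos (show 0 < s by omega)
  have hHH := Pool.Agent.R471.RD.Big.HH_pos hs1 ht
  have hlim : ∀ x : ℝ, 0 < x → Tendsto (fun n : ℕ => x ^ (1 - 1 / ((n : ℝ) + 1))) atTop (𝓝 x) := by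
    intro x hx
    have h1 : Tendsto (fun n : ℕ => 1 - 1 / ((n : ℝ) + 1)) atTop (𝓝 (1 - 0)) :=
      tendsto_const_nhds.sub tendsto_one_div_add_atTop_nhds_zero_nat
    rw [sub_zero] at h1
    have h2 := Tendsto.rpow (tendsto_const_nhds (x := x)) h1 (Or.inl hx.ne')
    rwa [Real.rpow_one] at h2
  have e1 := ((hlim _ hmu).const_mul (b : ℝ)).eventually_lt_const (mu_cond hb h23)
  have e2 := ((hlim _ hHH).const_mul ((b : ℝ) ^ κ)).eventually_lt_const hκ
  obtain ⟨n, h1, h2, h3⟩ := (e1.and (e2.and (eventually_ge_atTop 1))).exists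
  refine ⟨1 / ((n : ℝ) + 1), by positivity, ?_, h1, h2⟩
  apply one_div_le_one_div_of_le (by norm_num)
  have : (1 : ℝ) ≤ n := by exact_mod_cast h3
  linarith

/-- the digit `x` is admissible at the distance `c + 1` from the middle -/
def Adm {b s t : ℕ} (φ : Fam b s t) (g : ℕ → ℕ) (c x : ℕ) : Prop :=
  (φ.A c = true → ∃ (i : Fin s) (j : Fin t), x = φ.σ c i + (j : ℕ)) ∧ (φ.A c ≠ true → x = g c)

lemma Adm_dd {b s t : ℕ} (φ : Fam b s t) (g : ℕ → ℕ) (e : ℕ) {L : ℕ} (m : Fin L → Fin s × Fin t) (c : ℕ)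
    (hc : c < L) : Adm φ g c (dd φ g e m (c + 1)) := by
  rw [dd_succ, dif_pos hc]
  constructor
  · intro h
    rw [if_pos h]
    exact ⟨_, _, rfl⟩
  · intro h
    rw [if_neg h]

open Classical in
/-- palindromes with `2 N + 1` digits, prescribed initial block `w` of `K + 1` digits, prescribed middle digit `e`,
admissible digits at the other places, and few prime factors -/
theorem rdG {b s t r : ℕ} (hb : 3 ≤ b) (h23 : 2 * b < 3 * s) (ht : 1 ≤ t) (hbst : s + t ≤ b + 1) {κ lam θ : ℝ}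
    (hκ0 : 0 < κ) (hκ : (b : ℝ) ^ κ * HH s t < 1) (hl0 : 0 < lam) (hl1 : lam ≤ 1)
    (hlam : lam * (1174 / 1000) < 994 / 1000) (hθ0 : 0 ≤ θ) (hθ1 : θ < 1)
    (hr : 1 / lam + 88 / (43 * κ * (1 - θ)) < r + 1)
    {η : ℝ} (hη : η < κ / 6) :
    ∃ δ : ℝ, 0 < δ ∧ ∀ C : ℝ, 0 ≤ C →
    ∀ᶠ N : ℕ in atTop, ∀ K : ℕ, (K : ℝ) ≤ θ * N → ∀ w : ℕ, b ^ K ≤ w → w < b ^ (K + 1) →
      (w / b ^ K).Coprime b → ∀ e : ℕ, e < b → (Even b ∨ Odd e) → ∀ φ : Fam b s t, Sp φ δ C → ∀ g : ℕ → ℕ,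
      (∀ c < N - K - 1, φ.A c ≠ true → g c < b) →
      (2 * (b : ℝ) / 3) ^ fc φ (N - K - 1) ≤ (((range (b ^ (2 * N + 1))).filter (fun n => n / b ^ (2 * N - K) = w ∧
        (Nat.digits b n).reverse = Nat.digits b n ∧ n / b ^ N % b = e ∧
        (∀ c < N - K - 1, Adm φ g c (n / b ^ (N + (c + 1)) % b) ∧ Adm φ g c (n / b ^ (N - (c + 1)) % b)) ∧
        n.primeFactorsList.length ≤ r ∧
        ∀ p ∈ n.primeFactorsList, (b : ℝ) ^ (η * ((N - K : ℕ) : ℝ)) < p)).card : ℝ) := by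
  have hs1 : 1 ≤ s := by omega
  have hθ : 0 < 1 - θ := by linarith
  have hr' : 1 / lam + 44 * (2 / (1 - θ)) / (43 * κ) < r + 1 := by
    have e : 44 * (2 / (1 - θ)) / (43 * κ) = 88 / (43 * κ * (1 - θ)) := by
      field_simp
      norm_num
    rw [e]
    exact hr
  obtain ⟨δ1, hδ0, hδ1, hmu, hHH⟩ := choose_delta hb h23 ht hκ
  obtain ⟨δ, hδp, hδδ, c, hc0, hc⟩ := short0 (r := r) (ρ := 2 / (1 - θ)) (C0 := 2 * θ / (1 - θ) + 3)
    hb hs1 ht hbst hδ0 (by linarith) hmu hκ0 hHH hl0 hl1 hlam (by positivity) hr'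
  refine ⟨δ, hδp, ?_⟩
  intro C hC
  have hbR : (3 : ℝ) ≤ b := by exact_mod_cast hb
  have hb0 : (0 : ℝ) < b := by linarith
  have hs0 : (0 : ℝ) < s := by exact_mod_cast hs1
  have ht0 : (0 : ℝ) < t := by exact_mod_cast ht
  set B : ℝ := 2 * (b : ℝ) / 3 with hB
  have hB0 : 0 < B := by positivity
  have hBs : B < s := by
    rw [hB, div_lt_iff₀ (by norm_num)]
    have : 2 * b < s * 3 := by omega
    exact_mod_cast this
  set q : ℝ := (B / s) ^ (1 / 2 : ℝ) with hq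
  have hBs0 : 0 < B / s := by positivity
  have hBs1 : B / s < 1 := by rw [div_lt_one hs0]; exact hBs
  have hq0 : 0 < q := by positivity
  have hq1 : q < 1 := Real.rpow_lt_one hBs0.le hBs1 (by norm_num)
  -- the exponential beats the square
  have h1 : ∀ᶠ L : ℕ in atTop, (L : ℝ) ^ 2 * q ^ L < c ^ 2 * (B / s) ^ C := by
    have h2 := tendsto_pow_const_mul_const_pow_of_abs_lt_one 2 (r := q) (by
      rw [abs_of_pos hq0]
      exact hq1)
    exact h2.eventually (gt_mem_nhds (by positivity))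
  have h2 : ∀ᶠ L : ℕ in atTop, η ≤ (κ / 6 - η) * (L : ℝ) :=
    ((tendsto_natCast_atTop_atTop (R := ℝ)).const_mul_atTop (by linarith)).eventually_ge_atTop _
  have h3 := (hc C hC).and (h1.and (h2.and (eventually_ge_atTop 1)))
  rw [eventually_atTop] at h3
  obtain ⟨L0, hL0⟩ := h3
  have h4 : ∀ᶠ N : ℕ in atTop, (L0 : ℝ) + 2 ≤ (1 - θ) * (N : ℝ) :=
    ((tendsto_natCast_atTop_atTop (R := ℝ)).const_mul_atTop hθ).eventually_ge_atTop _
  filter_upwards [h4] with N hN K hK w hw1 hw2 hwc e heb heo φ hφ g hg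
  have hKN : L0 + 2 + K ≤ N := by
    have : (L0 : ℝ) + 2 + K ≤ N := by linarith
    exact_mod_cast this
  obtain ⟨L, rfl⟩ : ∃ L, N = L + K + 1 := ⟨N - K - 1, by omega⟩
  have hLK : L + K + 1 - K = L + 1 := by omega
  have hLK' : L + 1 - 1 = L := by omega
  rw [hLK, hLK'] at hg ⊢
  obtain ⟨hcL, h5, h6, h7⟩ := hL0 L (by omega)
  have hb1 : 1 < b := by omega
  have hlen := dig_len hb1 hw1 hw2
  have hw0 : w ≠ 0 := by
    have : 0 < b ^ K := by positivity
    omega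
  have hlt : ∀ m : Fin L → Fin s × Fin t, ∀ x ∈ inn φ g e m, x < b := fun m => inn_lt φ g e hg heb m
  obtain ⟨u, hu⟩ := nv_dvd φ g e hb1 hlen L
  have hexp : 2 * (L + K + 1) - K = K + 2 * L + 2 := by omega
  obtain ⟨G, hG1, hG2⟩ := hcL φ hφ (fun m => nv b w (inn φ g e m)) u (2 * (L + K + 1) + 1)
    (by
      push_cast at hK ⊢
      have h8 : (K : ℝ) ≤ θ * (L + 1) / (1 - θ) := by
        rw [le_div_iff₀ hθ]
        linarith
      have h9 : 2 / (1 - θ) * (L : ℝ) + (2 * θ / (1 - θ) + 3) = 2 * (L : ℝ) + 2 * (θ * (L + 1) / (1 - θ)) + 3 := by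
        field_simp
        ring
      rw [h9]
      linarith)
    (fun m => ⟨by
        have h8 := nv_div hb1 (hlt m) hlen (inn_length φ g e m)
        rcases Nat.eq_zero_or_pos (nv b w (inn φ g e m)) with h0 | h0
        · rw [h0, Nat.zero_div] at h8
          exact absurd h8.symm hw0
        · exact h0, nv_lt hb1 (hlt m) hlen (inn_length φ g e m), by
        refine nv_coprime hb ?_ hw1 hw2 hwc
        rcases heo with h | h
        · exact Or.inl h
        · right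
          obtain ⟨k, hk⟩ := inn_sum φ g e m
          rw [hk]
          rw [Nat.odd_iff] at h ⊢
          omega⟩) hu
  have hL00 : (0 : ℝ) < L := by exact_mod_cast h7
  -- the image
  obtain ⟨Z, hZ⟩ : ∃ Z, (range (b ^ (2 * (L + K + 1) + 1))).filter (fun n => n / b ^ (2 * (L + K + 1) - K) = w ∧
        (Nat.digits b n).reverse = Nat.digits b n ∧ n / b ^ (L + K + 1) % b = e ∧
        (∀ c < L, Adm φ g c (n / b ^ (L + K + 1 + (c + 1)) % b) ∧
          Adm φ g c (n / b ^ (L + K + 1 - (c + 1)) % b)) ∧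
        n.primeFactorsList.length ≤ r ∧
        ∀ p ∈ n.primeFactorsList, (b : ℝ) ^ (η * ((L + 1 : ℕ) : ℝ)) < p) = Z := ⟨_, rfl⟩
  have h8 : (G.image (fun m => nv b w (inn φ g e m))).card ≤ Z.card := by
    apply card_le_card
    intro n hn
    rw [mem_image] at hn
    obtain ⟨m, hm, rfl⟩ := hn
    rw [← hZ, mem_filter, mem_range]
    obtain ⟨h9, h10⟩ := hG2 m hm
    refine ⟨nv_lt hb1 (hlt m) hlen (inn_length φ g e m), ?_, nv_pal hb1 hw0 (hlt m) (inn_reverse φ g e m), ?_,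
      ?_, h9, fun p hp => lt_of_le_of_lt ?_ (h10 p hp)⟩
    · rw [hexp]
      exact nv_div hb1 (hlt m) hlen (inn_length φ g e m)
    · rw [nv_digit_dd φ g e hb1 hg heb hw0 hlen m (L + K + 1) (by omega) (by omega), Nat.dist_self]
      rfl
    · intro c hcL
      rw [nv_digit_dd φ g e hb1 hg heb hw0 hlen m (L + K + 1 + (c + 1)) (by omega) (by omega),
        nv_digit_dd φ g e hb1 hg heb hw0 hlen m (L + K + 1 - (c + 1)) (by omega) (by omega)]
      have e1 : Nat.dist (L + K + 1 + (c + 1)) (L + K + 1) = c + 1 := by unfold Nat.dist; omega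
      have e2 : Nat.dist (L + K + 1 - (c + 1)) (L + K + 1) = c + 1 := by unfold Nat.dist; omega
      rw [e1, e2]
      exact ⟨Adm_dd φ g e m c hcL, Adm_dd φ g e m c hcL⟩
    · apply Real.rpow_le_rpow_of_exponent_le (by exact_mod_cast (by omega : 1 ≤ b))
      push_cast
      linarith
  rw [hZ]
  have h9 : (G.card : ℝ) ^ 2 ≤ (Z.card : ℝ) * (((s : ℝ) * t ^ 2) ^ fc φ L * (((s : ℝ) * t) ^ 2) ^ nf φ L) := by
    have h10 := card_sq_le φ (fun m : Fin L → Fin s × Fin t => nv b w (inn φ g e m))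
      (fun m m' h => nv_inj φ g e hb1 hw0 hlen hg heb h) G
    have h11 := h10.trans (Nat.mul_le_mul_right _ h8)
    exact_mod_cast h11
  have hfn := fc_add_nf φ L
  obtain ⟨F, hF⟩ : ∃ F, fc φ L = F := ⟨_, rfl⟩
  obtain ⟨M, hM⟩ : ∃ M, nf φ L = M := ⟨_, rfl⟩
  have hML := hφ L
  rw [hF, hM] at hfn h9
  rw [hM] at hML
  rw [hF]
  refine le_trans ?_ ((div_le_iff₀ (by positivity)).2 h9)
  have h10 : (c * ((s : ℝ) * t) ^ L / L) ^ 2 ≤ (G.card : ℝ) ^ 2 := pow_le_pow_left₀ (by positivity) hG1 2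
  refine le_trans ?_ (div_le_div_of_nonneg_right h10 (by positivity))
  have h11 : (c * ((s : ℝ) * t) ^ L / L) ^ 2 / (((s : ℝ) * t ^ 2) ^ F * (((s : ℝ) * t) ^ 2) ^ M) =
      c ^ 2 * (s : ℝ) ^ F / (L : ℝ) ^ 2 := by
    rw [← hfn]
    simp only [pow_add, mul_pow]
    field_simp
    ring
  rw [h11, le_div_iff₀ (by positivity)]
  -- `(B / s) ^ F L ^ 2 ≤ c ^ 2`
  have h12 : (B / s) ^ F ≤ (B / s) ^ (-C) * q ^ L := by
    have h13 : (L : ℝ) / 2 - C ≤ (F : ℝ) := by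
      have h14 : (F : ℝ) + M = L := by exact_mod_cast hfn
      have h15 : δ * (L : ℝ) ≤ 1 / 2 * L := mul_le_mul_of_nonneg_right (hδδ.trans hδ1) hL00.le
      linarith
    rw [hq, ← Real.rpow_natCast ((B / s) ^ (1 / 2 : ℝ)), ← Real.rpow_mul hBs0.le, ← Real.rpow_add hBs0,
      ← Real.rpow_natCast (B / s) F]
    apply Real.rpow_le_rpow_of_exponent_ge hBs0 hBs1.le
    linarith
  have h13 : B ^ F = (B / s) ^ F * (s : ℝ) ^ F := by
    rw [← mul_pow]
    congr 1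
    field_simp
  rw [h13]
  have h14 : (B / s) ^ F * (L : ℝ) ^ 2 ≤ c ^ 2 := by
    calc (B / s) ^ F * (L : ℝ) ^ 2 ≤ (B / s) ^ (-C) * q ^ L * (L : ℝ) ^ 2 :=
          mul_le_mul_of_nonneg_right h12 (by positivity)
      _ = (B / s) ^ (-C) * ((L : ℝ) ^ 2 * q ^ L) := by ring
      _ ≤ (B / s) ^ (-C) * (c ^ 2 * (B / s) ^ C) := mul_le_mul_of_nonneg_left h5.le (by positivity)
      _ = c ^ 2 := by
          rw [Real.rpow_neg hBs0.le]
          field_simp
  calc (B / s) ^ F * (s : ℝ) ^ F * (L : ℝ) ^ 2 = (B / s) ^ F * (L : ℝ) ^ 2 * (s : ℝ) ^ F := by ring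
    _ ≤ c ^ 2 * (s : ℝ) ^ F := mul_le_mul_of_nonneg_right h14 (by positivity)

/-- pigeonhole: two consecutive digits -/
lemma exists_consec {b s : ℕ} (hb : 3 ≤ b) (h23 : 2 * b < 3 * s) (S : Finset ℕ) (hS : S.card = s)
    (hSb : ∀ x ∈ S, x < b) : ∃ x ∈ S, x + 1 ∈ S := by
  by_contra hcon
  push Not at hcon
  have h1 : Disjoint S (S.image (· + 1)) := by
    rw [disjoint_left]
    intro x hx hx'
    rw [mem_image] at hx'
    obtain ⟨y, hy, rfl⟩ := hx'
    exact hcon y hy hx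
  have h2 : (S ∪ S.image (· + 1)).card = 2 * s := by
    rw [card_union_of_disjoint h1, card_image_of_injective _ (add_left_injective 1), hS]
    ring
  have h3 : (S ∪ S.image (· + 1)).card ≤ (range (b + 1)).card := by
    apply card_le_card
    intro x hx
    rw [mem_union, mem_image] at hx
    rw [mem_range]
    rcases hx with h | ⟨y, hy, rfl⟩
    · have := hSb x h
      omega
    · have := hSb y hy
      omega
  rw [h2, card_range] at h3
  omega

lemma exists_fam {b s t : ℕ} (hb : 3 ≤ b) (h23 : 2 * b < 3 * s) (ht : 1 ≤ t) (S : ℕ → Finset ℕ)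
    (hS : ∀ c, (S c).card = s) (hSb : ∀ c, ∀ x ∈ S c, x + t ≤ b) (A : ℕ → Bool) :
    ∃ φ : Fam b s t, φ.A = A ∧ ∀ c i, φ.σ c i ∈ S c := by
  refine ⟨⟨A, fun c i => (S c).orderEmbOfFin (hS c) i, fun c => (S c).orderEmbOfFin (hS c) |>.injective,
    fun c i => hSb c _ (orderEmbOfFin_mem _ _ i), fun c => ?_⟩, rfl, fun c i => orderEmbOfFin_mem _ _ i⟩
  obtain ⟨x, hx1, hx2⟩ := exists_consec hb h23 (S c) (hS c) (fun x hx => by
    have := hSb c x hx
    omega)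
  have hr : ∀ y ∈ S c, ∃ i, (S c).orderEmbOfFin (hS c) i = y := by
    intro y hy
    have : y ∈ Set.range ((S c).orderEmbOfFin (hS c)) := by
      rw [range_orderEmbOfFin]
      exact hy
    exact this
  obtain ⟨i, hi⟩ := hr x hx1
  obtain ⟨i', hi'⟩ := hr _ hx2
  exact ⟨i, i', by rw [hi, hi']⟩

end Pool.Agent.V7H16.GD
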