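import Mathlib

/-!
The additive energy of a set of `s` integers is at most `(2 s^3 + s) / 3`.
-/

set_option autoImplicit false

namespace Pool.Agent.V7H16.GD

open Finset

/-- the rank -/
def rk {s : ℕ} (σ : Fin s → ℕ) (i : Fin s) : ℕ := ((univ : Finset (Fin s)).filter (fun k => σ k < σ i)).card

lemma rk_lt {s : ℕ} (σ : Fin s → ℕ) (i : Fin s) : rk σ i < s := by
  unfold rk
  have h : (univ : Finset (Fin s)).filter (fun k => σ k < σ i) ⊆ univ.erase i := by
    intro k hk
    rw [mem_filter] at hk
    rw [mem_erase]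
    refine ⟨?_, mem_univ _⟩
    rintro rfl
    exact lt_irrefl _ hk.2
  have h1 := card_le_card h
  rw [card_erase_of_mem (mem_univ _), card_univ, Fintype.card_fin] at h1
  have := i.pos
  omega

lemma rk_lt_rk {s : ℕ} (σ : Fin s → ℕ) {i j : Fin s} (h : σ i < σ j) : rk σ i < rk σ j := by
  unfold rk
  apply card_lt_card
  rw [Finset.ssubset_iff_of_subset]
  · exact ⟨i, by rw [mem_filter]; exact ⟨mem_univ _, h⟩, by rw [mem_filter]; rintro ⟨_, h2⟩; exact lt_irrefl _ h2⟩
  · intro k hk
    rw [mem_filter] at hk ⊢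
    exact ⟨hk.1, hk.2.trans h⟩

lemma rk_inj {s : ℕ} {σ : Fin s → ℕ} (hσ : Function.Injective σ) : Function.Injective (rk σ) := by
  intro i j h
  rcases lt_trichotomy (σ i) (σ j) with h1 | h1 | h1
  · have := rk_lt_rk σ h1; omega
  · exact hσ h1
  · have := rk_lt_rk σ h1; omega

lemma sum_rk {s : ℕ} {σ : Fin s → ℕ} (hσ : Function.Injective σ) (f : ℕ → ℕ) :
    ∑ i : Fin s, f (rk σ i) = ∑ u ∈ range s, f u := by
  have himg : (univ : Finset (Fin s)).image (rk σ) = range s := by
    apply eq_of_subset_of_card_le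
    · intro u hu
      rw [mem_image] at hu
      obtain ⟨i, _, rfl⟩ := hu
      exact mem_range.2 (rk_lt σ i)
    · rw [card_image_of_injective _ (rk_inj hσ), card_univ, Fintype.card_fin, card_range]
  rw [← himg, sum_image (fun _ _ _ _ h => rk_inj hσ h)]

/-- number of elements larger than `σ i` -/
lemma card_gt {s : ℕ} {σ : Fin s → ℕ} (hσ : Function.Injective σ) (i : Fin s) :
    ((univ : Finset (Fin s)).filter (fun k => σ i < σ k)).card = s - 1 - rk σ i := by
  have h1 : (univ : Finset (Fin s)).filter (fun k => σ i < σ k) =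
      univ.filter (fun k => ¬ (σ k < σ i ∨ k = i)) := by
    apply filter_congr
    intro k _
    constructor
    · rintro h (h2 | h2)
      · omega
      · subst h2; exact lt_irrefl _ h
    · intro h
      push Not at h
      rcases lt_or_eq_of_le h.1 with h3 | h3
      · exact h3
      · exact absurd (hσ h3).symm h.2
  have h2 := card_filter_add_card_filter_not (s := (univ : Finset (Fin s))) (fun k => σ k < σ i ∨ k = i)
  rw [← h1, card_univ, Fintype.card_fin] at h2
  have h3 : ((univ : Finset (Fin s)).filter (fun k => σ k < σ i ∨ k = i)).card = rk σ i + 1 := by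
    rw [filter_or, card_union_of_disjoint]
    · rw [filter_eq' univ i, if_pos (mem_univ _), card_singleton]
      rfl
    · rw [disjoint_left]
      intro k hk hk2
      rw [mem_filter] at hk hk2
      rw [hk2.2] at hk
      exact lt_irrefl _ hk.2
  omega

lemma rep_le {s : ℕ} {σ : Fin s → ℕ} (hσ : Function.Injective σ) (i j : Fin s) :
    ((univ : Finset (Fin s × Fin s)).filter (fun p => σ p.1 + σ p.2 = σ i + σ j)).card ≤
      1 + min (s - 1 - rk σ i) (rk σ j) + min (rk σ i) (s - 1 - rk σ j) := by
  set R := (univ : Finset (Fin s × Fin s)).filter (fun p => σ p.1 + σ p.2 = σ i + σ j) with hR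
  have hsub : R ⊆ {(i, j)} ∪ R.filter (fun p => σ i < σ p.1) ∪ R.filter (fun p => σ p.1 < σ i) := by
    intro p hp
    have hp' := (mem_filter.1 hp).2
    rcases lt_trichotomy (σ p.1) (σ i) with h1 | h1 | h1
    · exact mem_union_right _ (mem_filter.2 ⟨hp, h1⟩)
    · have h2 : σ p.2 = σ j := by omega
      exact mem_union_left _ (mem_union_left _ (mem_singleton.2 (Prod.ext (hσ h1) (hσ h2))))
    · exact mem_union_left _ (mem_union_right _ (mem_filter.2 ⟨hp, h1⟩))
  have hinj1 : ∀ (T : Finset (Fin s × Fin s)), T ⊆ R → ∀ U : Finset (Fin s), (∀ p ∈ T, p.1 ∈ U) →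
      T.card ≤ U.card := by
    intro T hT U hU
    apply card_le_card_of_injOn (fun p => p.1) (fun p hp => mem_coe.2 (hU p (mem_coe.1 hp)))
    intro p hp p' hp' h
    have h1 := (mem_filter.1 (hT (mem_coe.1 hp))).2
    have h2 := (mem_filter.1 (hT (mem_coe.1 hp'))).2
    have h3 : p.1 = p'.1 := h
    rw [h3] at h1
    exact Prod.ext h3 (hσ (by omega))
  have hinj2 : ∀ (T : Finset (Fin s × Fin s)), T ⊆ R → ∀ U : Finset (Fin s), (∀ p ∈ T, p.2 ∈ U) →
      T.card ≤ U.card := by
    intro T hT U hU
    apply card_le_card_of_injOn (fun p => p.2) (fun p hp => mem_coe.2 (hU p (mem_coe.1 hp)))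
    intro p hp p' hp' h
    have h1 := (mem_filter.1 (hT (mem_coe.1 hp))).2
    have h2 := (mem_filter.1 (hT (mem_coe.1 hp'))).2
    have h3 : p.2 = p'.2 := h
    rw [h3] at h1
    exact Prod.ext (hσ (by omega)) h3
  have ha : (R.filter (fun p => σ i < σ p.1)).card ≤ min (s - 1 - rk σ i) (rk σ j) := by
    rw [le_min_iff]
    constructor
    · rw [← card_gt hσ]
      exact hinj1 _ (filter_subset _ _) _ (fun p hp => by
        rw [mem_filter]; exact ⟨mem_univ _, (mem_filter.1 hp).2⟩)
    · exact hinj2 _ (filter_subset _ _) ((univ : Finset (Fin s)).filter (fun k => σ k < σ j)) (fun p hp => by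
        rw [mem_filter] at hp ⊢
        have h1 := (mem_filter.1 hp.1).2
        refine ⟨mem_univ _, ?_⟩
        have h2 := hp.2
        omega)
  have hb : (R.filter (fun p => σ p.1 < σ i)).card ≤ min (rk σ i) (s - 1 - rk σ j) := by
    rw [le_min_iff]
    constructor
    · exact hinj1 _ (filter_subset _ _) ((univ : Finset (Fin s)).filter (fun k => σ k < σ i)) (fun p hp => by
        rw [mem_filter]; exact ⟨mem_univ _, (mem_filter.1 hp).2⟩)
    · rw [← card_gt hσ]
      exact hinj2 _ (filter_subset _ _) _ (fun p hp => by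
        rw [mem_filter] at hp ⊢
        have h1 := (mem_filter.1 hp.1).2
        refine ⟨mem_univ _, ?_⟩
        have h2 := hp.2
        omega)
  have h1 := card_le_card hsub
  have h2 := card_union_le ({(i, j)} ∪ R.filter (fun p => σ i < σ p.1)) (R.filter (fun p => σ p.1 < σ i))
  have h3 := card_union_le ({(i, j)} : Finset (Fin s × Fin s)) (R.filter (fun p => σ i < σ p.1))
  rw [card_singleton] at h3
  omega

lemma min_sum (s : ℕ) : 6 * ∑ u ∈ range s, ∑ v ∈ range s, min u v + 3 * s ^ 2 = 2 * s ^ 3 + s := by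
  induction s with
  | zero => simp
  | succ s ih =>
    have h1 : ∑ u ∈ range (s + 1), ∑ v ∈ range (s + 1), min u v =
        ∑ u ∈ range s, ∑ v ∈ range s, min u v + ∑ u ∈ range s, u + ∑ v ∈ range s, v + s := by
      rw [sum_range_succ]
      have h2 : ∑ v ∈ range (s + 1), min s v = ∑ v ∈ range s, v + s := by
        rw [sum_range_succ, min_self]
        congr 1
        apply sum_congr rfl
        intro v hv
        rw [mem_range] at hv
        exact min_eq_right hv.le
      have h3 : ∑ u ∈ range s, ∑ v ∈ range (s + 1), min u v =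
          ∑ u ∈ range s, ∑ v ∈ range s, min u v + ∑ u ∈ range s, u := by
        rw [← sum_add_distrib]
        apply sum_congr rfl
        intro u hu
        rw [mem_range] at hu
        rw [sum_range_succ, min_eq_left hu.le]
      rw [h2, h3]
      ring
    have h4 : 2 * ∑ u ∈ range s, u + s = s ^ 2 := by
      have := Finset.sum_range_id_mul_two s
      rcases Nat.eq_zero_or_pos s with h0 | h0
      · subst h0; simp
      · obtain ⟨k, rfl⟩ : ∃ k, s = k + 1 := ⟨s - 1, by omega⟩
        rw [Nat.add_sub_cancel] at this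
        linarith [this, sq (k + 1)]
    rw [h1]
    generalize ∑ u ∈ range s, ∑ v ∈ range s, min u v = S at *
    generalize ∑ u ∈ range s, u = T at *
    nlinarith

/-- the energy bound -/
theorem energy {s : ℕ} {σ : Fin s → ℕ} (hσ : Function.Injective σ) :
    3 * ∑ p : Fin s × Fin s, ((univ : Finset (Fin s × Fin s)).filter
      (fun p' => σ p'.1 + σ p'.2 = σ p.1 + σ p.2)).card ≤ 2 * s ^ 3 + s := by
  have h1 : ∑ p : Fin s × Fin s, ((univ : Finset (Fin s × Fin s)).filter
      (fun p' => σ p'.1 + σ p'.2 = σ p.1 + σ p.2)).card ≤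
      ∑ u ∈ range s, ∑ v ∈ range s, (1 + min (s - 1 - u) v + min u (s - 1 - v)) := by
    rw [Fintype.sum_prod_type]
    calc ∑ i : Fin s, ∑ j : Fin s, ((univ : Finset (Fin s × Fin s)).filter
        (fun p' => σ p'.1 + σ p'.2 = σ i + σ j)).card
        ≤ ∑ i : Fin s, ∑ j : Fin s, (1 + min (s - 1 - rk σ i) (rk σ j) + min (rk σ i) (s - 1 - rk σ j)) :=
          sum_le_sum fun i _ => sum_le_sum fun j _ => rep_le hσ i j
      _ = ∑ i : Fin s, ∑ v ∈ range s, (1 + min (s - 1 - rk σ i) v + min (rk σ i) (s - 1 - v)) := by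
          apply sum_congr rfl
          intro i _
          exact sum_rk hσ (fun v => 1 + min (s - 1 - rk σ i) v + min (rk σ i) (s - 1 - v))
      _ = _ := sum_rk hσ (fun u => ∑ v ∈ range s, (1 + min (s - 1 - u) v + min u (s - 1 - v)))
  have h2 : ∑ u ∈ range s, ∑ v ∈ range s, (1 + min (s - 1 - u) v + min u (s - 1 - v)) =
      s ^ 2 + 2 * ∑ u ∈ range s, ∑ v ∈ range s, min u v := by
    simp only [sum_add_distrib, sum_const, card_range, smul_eq_mul, mul_one]
    have e1 : ∑ u ∈ range s, ∑ v ∈ range s, min (s - 1 - u) v = ∑ u ∈ range s, ∑ v ∈ range s, min u v :=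
      Finset.sum_range_reflect (fun u => ∑ v ∈ range s, min u v) s
    have e2 : ∑ u ∈ range s, ∑ v ∈ range s, min u (s - 1 - v) = ∑ u ∈ range s, ∑ v ∈ range s, min u v := by
      apply sum_congr rfl
      intro u _
      exact Finset.sum_range_reflect (fun v => min u v) s
    rw [e1, e2]
    ring
  have h3 := min_sum s
  rw [h2] at h1
  omega

end Pool.Agent.V7H16.GD
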