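import Pool.Agent.V7H16.GD.LS
import Pool.Agent.V7H16.GD.En

/-! The product of the fourth moments. -/

set_option autoImplicit false

namespace Pool.Agent.V7H16.GD

open Finset

variable {b s t : ℕ}

/-- bound for the fourth moment of a digit set with `s` elements -/
noncomputable def mu (s : ℕ) : ℝ := (2 * (s : ℝ) ^ 2 + 1) / (3 * (s : ℝ) ^ 3)

lemma mu_pos {s : ℕ} (hs : 0 < s) : 0 < mu s := by
  have : (0 : ℝ) < s := by exact_mod_cast hs
  unfold mu
  positivity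

lemma mu_le_one {s : ℕ} (hs : 0 < s) : mu s ≤ 1 := by
  have : (1 : ℝ) ≤ s := by exact_mod_cast hs
  unfold mu
  rw [div_le_one (by positivity)]
  nlinarith [sq_nonneg ((s : ℝ) - 1), mul_self_nonneg (s : ℝ), mul_nonneg (mul_self_nonneg (s : ℝ)) (sub_nonneg.2 this)]

lemma Ec_free (φ : Fam b s t) (ht : 1 ≤ t) (c : ℕ) (h : φ.A c = true) :
    3 * Ec φ c ≤ 2 * (s : ℝ) ^ 3 + s := by
  have h1 : ∀ p ∈ (univ : Finset (Fin s × Fin s)), φ.σ c p.1 + φ.σ c p.2 ∈ range (2 * b - 1) := by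
    intro p _
    have e1 := φ.le c p.1
    have e2 := φ.le c p.2
    rw [mem_range]; omega
  have h2 : ∑ z ∈ range (2 * b - 1), (r2 φ c z) ^ 2 =
      ∑ p : Fin s × Fin s, r2 φ c (φ.σ c p.1 + φ.σ c p.2) := by
    rw [← sum_fiberwise_of_maps_to h1]
    apply sum_congr rfl
    intro z _
    have h3 : ∑ p ∈ (univ : Finset (Fin s × Fin s)).filter (fun p => φ.σ c p.1 + φ.σ c p.2 = z),
        r2 φ c (φ.σ c p.1 + φ.σ c p.2) = ∑ p ∈ (univ : Finset (Fin s × Fin s)).filter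
          (fun p => φ.σ c p.1 + φ.σ c p.2 = z), r2 φ c z := by
      apply sum_congr rfl
      intro p hp
      rw [(mem_filter.1 hp).2]
    rw [h3, sum_const, smul_eq_mul, sq]
    rfl
  have h4 : Ec φ c = ((∑ z ∈ range (2 * b - 1), (r2 φ c z) ^ 2 : ℕ) : ℝ) := by
    unfold Ec ww
    simp only [h, if_true]
    push_cast
    rfl
  rw [h4, h2]
  exact_mod_cast energy (φ.inj c)

lemma Ec_fixed (φ : Fam b s t) (hb : 1 ≤ b) (c : ℕ) (h : ¬ φ.A c = true) : Ec φ c = 1 := by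
  unfold Ec ww
  simp only [if_neg h]
  rw [Finset.sum_eq_single_of_mem 0 (mem_range.2 (by omega))]
  · simp
  · intro z _ hz
    rw [if_neg hz]
    simp

lemma ratio_le (φ : Fam b s t) (hb : 1 ≤ b) (ht : 1 ≤ t) (c : ℕ) :
    Ec φ c / Nc φ c ≤ if φ.A c = true then mu s else 1 := by
  have hs : (0 : ℝ) < s := by exact_mod_cast s_pos φ
  split_ifs with h
  · have h1 := Ec_free φ ht c h
    unfold Nc
    rw [if_pos h, mu, div_le_div_iff₀ (by positivity) (by positivity)]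
    have h2 : 0 ≤ (s : ℝ) ^ 3 := by positivity
    nlinarith [mul_le_mul_of_nonneg_right h1 h2]
  · rw [Ec_fixed φ hb c h]
    unfold Nc
    rw [if_neg h]
    norm_num

theorem prod_ratio (φ : Fam b s t) (hb : 1 ≤ b) (ht : 1 ≤ t) (J : ℕ) :
    ∏ c ∈ range J, (Ec φ c / Nc φ c) ≤ mu s ^ fc φ J := by
  calc ∏ c ∈ range J, (Ec φ c / Nc φ c) ≤ ∏ c ∈ range J, (if φ.A c = true then mu s else 1) :=
        prod_le_prod (fun c _ => div_nonneg (Ec_nonneg φ c) (Nc_pos φ c).le) (fun c _ => ratio_le φ hb ht c)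
    _ = mu s ^ fc φ J := by
        rw [← prod_filter, prod_const]
        rfl

end Pool.Agent.V7H16.GD
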