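import Pool.Agent.V7H16.GD.G
import Pool.Agent.V7H16.GD.Mu
import Pool.Agent.Helper112.Arith

/-!
The sum over the fractions with denominators `Q ≤ q < 2 Q`, for arbitrary digit sets
(after `Pool.Agent.R471.RD.Big`).
-/

set_option autoImplicit false

namespace Pool.Agent.V7H16.GD

open Finset Filter Topology Pool.Agent.Helper112
open Pool.Agent.W89.PW (fr HH)
open Pool.Agent.H39R3.PB (ph pts apts ph_nonneg ph_le_one ph_add_int pts_nonneg pts_mono pts_le_apts pts_add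
  pts_mul_left pts_sum dilate coprime_b)
open Pool.Agent.R471.RD.Big (pts_trivial HH_pos HH_ge)

variable {b s t : ℕ}

/-- pointwise splitting -/
theorem split (φ : Fam b s t) (L J k K : ℕ) (lam : ℝ) (h0 : 0 < lam) (hJ : J ≤ k * K) (hJL : J ≤ L) (α : ℝ) :
    FF φ L L α ≤ (∑ i ∈ range k, lam * ∏ c ∈ (range L).filter (fun c => ¬ (c < J ∧ c / K = i)),
      gf φ c (fr b L c * α)) + (lam ^ (3 * k))⁻¹ * FF φ L J α ^ 4 := by
  set x : ℕ → ℝ := fun i => ∏ c ∈ (range L).filter (fun c => c < J ∧ c / K = i), pf φ c (fr b L c * α) with hx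
  have hx0 : ∀ i, 0 ≤ x i := fun i => prod_nonneg fun _ _ => pf_nonneg _ _ _
  have hnn : ∀ i ∈ range k, 0 ≤ lam * ∏ c ∈ (range L).filter (fun c => ¬ (c < J ∧ c / K = i)),
      gf φ c (fr b L c * α) := fun i _ => mul_nonneg h0.le (prod_nonneg fun _ _ => gf_nonneg _ _ _)
  have hlast : 0 ≤ (lam ^ (3 * k))⁻¹ * FF φ L J α ^ 4 := by
    have := FF_nonneg φ L J α
    positivity
  by_cases hc : ∃ i ∈ range k, x i ≤ lam
  · obtain ⟨i, hi, hxi⟩ := hc
    have e1 : FF φ L L α = x i * ∏ c ∈ (range L).filter (fun c => ¬ (c < J ∧ c / K = i)),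
        pf φ c (fr b L c * α) := by
      rw [hx]
      exact (prod_filter_mul_prod_filter_not (range L) (fun c => c < J ∧ c / K = i) _).symm
    have e2 : FF φ L L α ≤ lam * ∏ c ∈ (range L).filter (fun c => ¬ (c < J ∧ c / K = i)),
        gf φ c (fr b L c * α) := by
      rw [e1]
      apply mul_le_mul hxi _ (prod_nonneg fun _ _ => pf_nonneg _ _ _) h0.le
      exact prod_le_prod (fun _ _ => pf_nonneg _ _ _) (fun _ _ => pf_le_gf _ _ _)
    have e3 := single_le_sum hnn hi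
    linarith
  · push Not at hc
    have e1 : FF φ L J α = ∏ i ∈ range k, x i := by
      unfold FF
      have hmaps : ∀ c ∈ range J, c / K ∈ range k := by
        intro c hc
        rw [mem_range] at hc ⊢
        exact Nat.div_lt_of_lt_mul (by rw [mul_comm]; omega)
      rw [← prod_fiberwise_of_maps_to hmaps]
      apply prod_congr rfl
      intro i _
      apply prod_congr _ (fun _ _ => rfl)
      ext c
      simp only [mem_filter, mem_range]
      constructor
      · rintro ⟨h1, h2⟩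
        exact ⟨by omega, h1, h2⟩
      · rintro ⟨_, h1, h2⟩
        exact ⟨h1, h2⟩
    have e2 : lam ^ k ≤ FF φ L J α := by
      rw [e1]
      calc lam ^ k = ∏ i ∈ range k, lam := by simp
        _ ≤ ∏ i ∈ range k, x i := prod_le_prod (fun _ _ => h0.le) (fun i hi => (hc i hi).le)
    have e3 : FF φ L L α ≤ FF φ L J α := FF_mono φ L hJL α
    set y := FF φ L J α with hy
    have hlk : 0 < lam ^ k := by positivity
    have hy0 : 0 < y := hlk.trans_le e2
    have e4 : y ≤ (lam ^ (3 * k))⁻¹ * y ^ 4 := by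
      have e5 : lam ^ (3 * k) ≤ y ^ 3 := by
        rw [mul_comm 3 k, pow_mul]
        exact pow_le_pow_left₀ hlk.le e2 3
      rw [inv_mul_eq_div, le_div_iff₀ (by positivity)]
      calc y * lam ^ (3 * k) ≤ y * y ^ 3 := by gcongr
        _ = y ^ 4 := by ring
    have e6 := sum_nonneg hnn
    linarith

lemma HH_le_one' (hs : 1 ≤ s) (ht : 1 ≤ t) : HH s t ≤ 1 := by
  have h1 : (1 : ℝ) ≤ s := by exact_mod_cast hs
  have h2 : (1 : ℝ) ≤ t := by exact_mod_cast ht
  unfold HH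
  have h3 : 1 / (s : ℝ) ≤ 1 := by rw [div_le_one (by linarith)]; exact h1
  have h4 : 1 / (t : ℝ) ≤ 1 := by rw [div_le_one (by linarith)]; exact h2
  linarith

/-- the product of the means over a large set of places -/
lemma prod_Hc_le (φ : Fam b s t) (ht : 1 ≤ t) (L J K i : ℕ) (hK : 0 < K) :
    ∏ c ∈ (range L).filter (fun c => ¬ (c < J ∧ c / K = i)), Hc φ c ≤ HH s t ^ (L - K - nf φ L) := by
  set B := (range L).filter (fun c => ¬ (c < J ∧ c / K = i)) with hB
  have h1 : ∏ c ∈ B, Hc φ c = HH s t ^ (B.filter (fun c => φ.A c = true)).card := by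
    unfold Hc
    rw [← prod_filter, prod_const]
  rw [h1]
  apply pow_le_pow_of_le_one (HH_pos (s_pos φ) ht).le (HH_le_one' (s_pos φ) ht)
  have h2 := Pool.Agent.R471.RD.Big.card_block L J K i hK
  rw [← hB] at h2
  have h3 := card_filter_add_card_filter_not (s := B) (fun c => φ.A c = true)
  have h4 : (B.filter (fun c => ¬ φ.A c = true)).card ≤ nf φ L := by
    unfold nf
    exact card_le_card (filter_subset_filter _ (filter_subset _ _))
  omega

/-- the basic bound -/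
theorem big (φ : Fam b s t) (hb : 2 ≤ b) (ht : 1 ≤ t) (L k K J Q : ℕ) (T lam R : ℝ) (h0 : 0 < lam)
    (hT : ∀ n : ℕ, 1 ≤ n → n ≤ b ^ (2 * L + 2) → (n.divisors.card : ℝ) ≤ T)
    (hLS : pts b Q (fun α => FF φ L J α ^ 4) ≤ R) (hK : 0 < K)
    (hJk : J ≤ k * K) (hJL : J ≤ L) :
    pts b Q (FF φ L L) ≤ 2 * k * lam * Q * (Q * HH s t ^ (L - K - nf φ L) + T) + R / lam ^ (3 * k) := by
  have e1 : pts b Q (FF φ L L) ≤ ∑ i ∈ range k, lam * pts b Q (fun α =>
      ∏ c ∈ (range L).filter (fun c => ¬ (c < J ∧ c / K = i)), gf φ c (fr b L c * α)) +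
      (lam ^ (3 * k))⁻¹ * pts b Q (fun α => FF φ L J α ^ 4) := by
    refine (pts_mono (split φ L J k K lam h0 hJk hJL)).trans (le_of_eq ?_)
    rw [pts_add, pts_sum, pts_mul_left]
    congr 1
    apply sum_congr rfl
    intro i _
    rw [pts_mul_left]
  have e3 : ∀ i ∈ range k, lam * pts b Q (fun α =>
      ∏ c ∈ (range L).filter (fun c => ¬ (c < J ∧ c / K = i)), gf φ c (fr b L c * α)) ≤
      lam * (2 * Q * (Q * HH s t ^ (L - K - nf φ L) + T)) := by
    intro i _
    apply mul_le_mul_of_nonneg_left _ h0.le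
    refine (pts_le_apts (fun α => prod_nonneg fun _ _ => gf_nonneg _ _ _)).trans
      ((mainG φ hb ht L Q T _ (filter_subset _ _) hT).trans ?_)
    have h5 := prod_Hc_le φ ht L J K i hK
    gcongr
  calc pts b Q (FF φ L L) ≤ ∑ i ∈ range k, lam * pts b Q (fun α =>
      ∏ c ∈ (range L).filter (fun c => ¬ (c < J ∧ c / K = i)), gf φ c (fr b L c * α)) +
      (lam ^ (3 * k))⁻¹ * pts b Q (fun α => FF φ L J α ^ 4) := e1
    _ ≤ ∑ i ∈ range k, lam * (2 * Q * (Q * HH s t ^ (L - K - nf φ L) + T)) + (lam ^ (3 * k))⁻¹ * R := by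
        apply add_le_add (sum_le_sum e3)
        exact mul_le_mul_of_nonneg_left hLS (by positivity)
    _ = _ := by
        rw [sum_const, card_range, nsmul_eq_mul]
        ring

/-- the block, with the sparseness of the fixed places -/
lemma block_mu (φ : Fam b s t) {δ1 C : ℝ} (hφ : Sp φ δ1 C) (J : ℕ) :
    mu s ^ fc φ J ≤ (mu s) ^ (-C) * ((mu s) ^ (1 - δ1)) ^ J := by
  have h0 := mu_pos (s_pos φ)
  have h1 := mu_le_one (s_pos φ)
  have h2 := fc_add_nf φ J
  have h3 := hφ J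
  have h4 : (fc φ J : ℝ) + nf φ J = J := by exact_mod_cast h2
  rw [← Real.rpow_natCast (mu s) (fc φ J), ← Real.rpow_natCast ((mu s) ^ (1 - δ1)) J, ← Real.rpow_mul h0.le,
    ← Real.rpow_add h0]
  apply Real.rpow_le_rpow_of_exponent_ge h0 h1
  linarith

theorem BigF {b s t : ℕ} (hb : 3 ≤ b)
    (hs : 1 ≤ s) (ht : 1 ≤ t) (hst : s + t ≤ b + 1) {κ δ1 : ℝ} (hδ0 : 0 ≤ δ1) (hδ1' : δ1 < 1)
    (hr : (b : ℝ) * (mu s) ^ (1 - δ1) < 1) (hκ : 0 < κ)
    (hκH : (b : ℝ) ^ κ * (HH s t) ^ (1 - δ1) < 1) :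
    ∃ δ : ℝ, 0 < δ ∧ δ < 1 ∧ ∀ C : ℝ, 0 ≤ C → ∃ C' : ℝ, 0 < C' ∧ ∀ φ : Fam b s t, Sp φ δ1 C →
      ∀ L Q : ℕ, 1 ≤ Q → (Q : ℝ) ≤ (b : ℝ) ^ (κ * L) → pts b Q (FF φ L L) ≤ C' * (Q : ℝ) ^ (1 - δ) := by
  obtain ⟨H, hH⟩ : ∃ H : ℝ, HH s t = H := ⟨_, rfl⟩
  set r : ℝ := (b : ℝ) * (mu s) ^ (1 - δ1) with hrdef
  have hb3 : (3 : ℝ) ≤ b := by exact_mod_cast hb
  have hb0 : (0 : ℝ) < b := by linarith
  have hb1 : (1 : ℝ) < b := by linarith
  have hH0 : 0 < H := by rw [← hH]; exact HH_pos hs ht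
  have hHle : H ≤ 1 := by rw [← hH]; exact HH_le_one' hs ht
  have hmu0 : 0 < mu s := mu_pos hs
  have hmu1 : mu s ≤ 1 := mu_le_one hs
  have hr0 : 0 < r := mul_pos hb0 (Real.rpow_pos_of_pos hmu0 _)
  have hbκ : 1 ≤ (b : ℝ) ^ κ := Real.one_le_rpow hb1.le hκ.le
  have hκH2 : (b : ℝ) ^ κ * HH s t < 1 := by
    refine lt_of_le_of_lt ?_ hκH
    apply mul_le_mul_of_nonneg_left _ (by positivity)
    rw [hH]
    calc H = H ^ (1 : ℝ) := (Real.rpow_one _).symm
      _ ≤ H ^ (1 - δ1) := Real.rpow_le_rpow_of_exponent_ge hH0 hHle (by linarith)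
  have hκ1 : κ < 1 := Pool.Agent.R471.RD.Big.kappa_lt_one hb hs ht hst hκH2
  rw [hH] at hκH hκH2
  have hH1 : H < 1 := by
    have : 1 * H ≤ (b : ℝ) ^ κ * H := mul_le_mul_of_nonneg_right hbκ hH0.le
    linarith
  have hlb : 0 < Real.log b := Real.log_pos hb1
  have hlH : Real.log H < 0 := Real.log_neg hH0 hH1
  have hlr : Real.log r < 0 := Real.log_neg hr0 hr
  -- `ρ < 0`
  have hρ : κ * Real.log b + (1 - δ1) * Real.log H < 0 := by
    have h1 := Real.log_neg (by positivity) hκH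
    rwa [Real.log_mul (by positivity) (by positivity), Real.log_rpow hb0, Real.log_rpow hH0] at h1
  obtain ⟨ρ, hρd⟩ : ∃ ρ : ℝ, κ * Real.log b + (1 - δ1) * Real.log H = ρ := ⟨_, rfl⟩
  rw [hρd] at hρ
  -- the number of blocks
  obtain ⟨k, hk⟩ := exists_nat_ge (κ * (-Real.log H) / (-ρ) + 1)
  have hk1 : (1 : ℝ) ≤ k := by
    have : 0 ≤ κ * (-Real.log H) / (-ρ) := by
      apply div_nonneg
      · apply mul_nonneg hκ.le; linarith
      · linarith
    linarith
  have hk0 : (0 : ℝ) < k := by linarith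
  have hkρ : κ * (-Real.log H) ≤ k * (-ρ) := by
    have h1 : κ * (-Real.log H) / (-ρ) ≤ k := by linarith
    rwa [div_le_iff₀ (by linarith)] at h1
  have hkN : 1 ≤ k := by exact_mod_cast hk1
  -- the number `N`
  obtain ⟨N, hN⟩ := exists_nat_ge ((Real.log b / (-Real.log H) + 2) / (1 - δ1) + 2)
  have hN2 : (2 : ℝ) ≤ N := by
    have : 0 ≤ (Real.log b / (-Real.log H) + 2) / (1 - δ1) :=
      div_nonneg (add_nonneg (div_nonneg hlb.le (by linarith)) (by norm_num)) (by linarith)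
    linarith
  have hNN : 2 ≤ N := by exact_mod_cast hN2
  have hNH : Real.log b ≤ ((1 - δ1) * N - 1) * (-Real.log H) := by
    have h1 : (Real.log b / (-Real.log H) + 2) / (1 - δ1) ≤ N := by linarith
    rw [div_le_iff₀ (by linarith)] at h1
    have h2 : Real.log b / (-Real.log H) ≤ (1 - δ1) * N - 1 := by linarith
    rwa [div_le_iff₀ (by linarith)] at h2
  -- exponents
  set γ : ℝ := -Real.log r / Real.log b with hγ
  have hγ0 : 0 < γ := div_pos (by linarith) hlb
  set η : ℝ := γ / (3 * k + 1) with hη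
  have hη0 : 0 < η := by positivity
  have hηγ : (3 * k + 1) * η = γ := by rw [hη]; field_simp
  set ε : ℝ := η / (4 * N) with hε
  have hN0 : (0 : ℝ) < N := by linarith
  have hε0 : 0 < ε := by positivity
  have hεη : 2 * N * ε = η / 2 := by rw [hε]; field_simp; ring
  obtain ⟨C0, hC0, hτ⟩ := divisor_bound ε hε0
  obtain ⟨L0, hL0⟩ := exists_nat_ge (1 / (1 - κ))
  set δ : ℝ := min (η / 2) (1 / 2) with hδ
  have hδ0' : 0 < δ := lt_min (by positivity) (by norm_num)
  have hδ1 : δ ≤ 1 / 2 := min_le_right _ _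
  have hδη : δ ≤ η / 2 := min_le_left _ _
  refine ⟨δ, hδ0', by linarith, ?_⟩
  intro C hC
  obtain ⟨C3, hC3⟩ : ∃ C3 : ℝ, (mu s) ^ (-C) = C3 := ⟨_, rfl⟩
  have hC30 : 0 < C3 := by rw [← hC3]; exact Real.rpow_pos_of_pos hmu0 _
  set C1 : ℝ := H ^ (-(C + 3)) with hC1
  have hC10 : 0 < C1 := by positivity
  set C2 : ℝ := C0 * ((b : ℝ) ^ (2 * N + 2)) ^ ε with hC2
  have hC20 : 0 < C2 := by positivity
  refine ⟨2 * ((b : ℝ) ^ (κ * L0)) ^ 2 + (2 * k * (C1 + C2) + 12 * ((b : ℝ) ^ 3 + 2) * C3), by positivity, ?_⟩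
  intro φ hφ L Q hQ hQL
  have hQ1 : (1 : ℝ) ≤ Q := by exact_mod_cast hQ
  have hQ0 : (0 : ℝ) < Q := by linarith
  have hQδ : 1 ≤ (Q : ℝ) ^ (1 - δ) := Real.one_le_rpow hQ1 (by linarith)
  have hpos1 : 0 ≤ 2 * ((b : ℝ) ^ (κ * L0)) ^ 2 := by positivity
  have hpos2 : 0 ≤ 2 * k * (C1 + C2) + 12 * ((b : ℝ) ^ 3 + 2) * C3 := by positivity
  rcases Nat.lt_or_ge L L0 with hLL | hLL
  · -- small `L`
    have h1 : pts b Q (FF φ L L) ≤ 2 * (Q : ℝ) ^ 2 := pts_trivial Q _ (FF_le_one φ L L)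
    have h2 : (Q : ℝ) ≤ (b : ℝ) ^ (κ * L0) := by
      refine hQL.trans (Real.rpow_le_rpow_of_exponent_le hb1.le ?_)
      have : (L : ℝ) ≤ L0 := by exact_mod_cast hLL.le
      exact mul_le_mul_of_nonneg_left this hκ.le
    have h3 : (Q : ℝ) ^ 2 ≤ ((b : ℝ) ^ (κ * L0)) ^ 2 := pow_le_pow_left₀ hQ0.le h2 2
    calc pts b Q (FF φ L L) ≤ 2 * ((b : ℝ) ^ (κ * L0)) ^ 2 * 1 := by linarith
      _ ≤ (2 * ((b : ℝ) ^ (κ * L0)) ^ 2 + (2 * k * (C1 + C2) + 12 * ((b : ℝ) ^ 3 + 2) * C3)) * (Q : ℝ) ^ (1 - δ) :=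
          mul_le_mul (by linarith) hQδ (by norm_num) (by linarith)
  · have hbN : 1 < b := by omega
    set J : ℕ := Nat.log b Q + 1 with hJ
    have f1 : Q < b ^ J := Nat.lt_pow_succ_log_self hbN Q
    have f2 : b ^ J ≤ b * Q := by
      rw [hJ, pow_succ, mul_comm]
      exact Nat.mul_le_mul_left b (Nat.pow_log_le_self b (by omega))
    have f1r : (Q : ℝ) ≤ (b : ℝ) ^ J := by exact_mod_cast f1.le
    have f2r : (b : ℝ) ^ J ≤ b * Q := by exact_mod_cast f2
    have hJ1 : 1 ≤ J := by omega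
    -- `J ≤ κ L + 1`
    have hJu : (J : ℝ) ≤ κ * L + 1 := by
      have h1 : (b : ℝ) ^ (Nat.log b Q) ≤ (b : ℝ) ^ (κ * L) := by
        refine le_trans ?_ hQL
        exact_mod_cast Nat.pow_log_le_self b (by omega)
      rw [← Real.rpow_natCast, Real.rpow_le_rpow_left_iff hb1] at h1
      rw [hJ]
      push_cast
      linarith
    have hJL : J ≤ L := by
      have h1 : (L0 : ℝ) ≤ L := by exact_mod_cast hLL
      have h2 : 1 / (1 - κ) ≤ L := hL0.trans h1
      rw [div_le_iff₀ (by linarith)] at h2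
      have h3 : (J : ℝ) ≤ L := by nlinarith
      exact_mod_cast h3
    set M : ℕ := min L (N * J) with hM
    have hML : M ≤ L := min_le_left _ _
    have hMN : M ≤ N * J := min_le_right _ _
    have hJM : J ≤ M := le_min hJL (Nat.le_mul_of_pos_left J (by omega))
    set K : ℕ := J / k + 1 with hK
    have hJK : J ≤ k * K := by
      rw [hK]
      exact (Nat.lt_mul_div_succ J (show 0 < k by omega)).le
    have hKr : (K : ℝ) ≤ J / k + 1 := by
      rw [hK]
      push_cast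
      have := Nat.cast_div_le (α := ℝ) (m := J) (n := k)
      linarith
    have hKJ : K ≤ J + 1 := by
      rw [hK]
      have := Nat.div_le_self J k
      omega
    -- the main term
    have hmain : (Q : ℝ) * H ^ (M - K - nf φ M) ≤ C1 := by
      have hMK : (1 - δ1) * (M : ℝ) - K - C ≤ ((M - K - nf φ M : ℕ) : ℝ) := by
        have h1 := hφ M
        have h2 : (M : ℝ) ≤ ((M - K - nf φ M : ℕ) : ℝ) + K + nf φ M := by
          have : M ≤ (M - K - nf φ M) + K + nf φ M := by omega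
          exact_mod_cast this
        linarith
      have h1 : Real.log ((Q : ℝ) * H ^ (M - K - nf φ M)) ≤ Real.log C1 := by
        rw [Real.log_mul hQ0.ne' (by positivity), Real.log_pow, hC1, Real.log_rpow hH0]
        have h2 : ((M - K - nf φ M : ℕ) : ℝ) * Real.log H ≤ ((1 - δ1) * (M : ℝ) - K - C) * Real.log H :=
          mul_le_mul_of_nonpos_right hMK hlH.le
        rcases le_total L (N * J) with h | h
        · have hMeq : M = L := min_eq_left h
          have h3 : Real.log Q ≤ κ * L * Real.log b := by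
            have := Real.log_le_log hQ0 hQL
            rwa [Real.log_rpow hb0] at this
          have h4 : (K : ℝ) ≤ (κ * L + 1) / k + 1 := by
            refine hKr.trans ?_
            gcongr
          have h5 : (κ * L + 1) / k = κ * L / k + 1 / k := by ring
          have h6 : (1 : ℝ) / k ≤ 1 := by rw [div_le_one hk0]; exact hk1
          have h7 : (K : ℝ) ≤ κ * L / k + 2 := by linarith
          have h8 : (K : ℝ) * (-Real.log H) ≤ (κ * L / k + 2) * (-Real.log H) :=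
            mul_le_mul_of_nonneg_right h7 (by linarith)
          have h9 : κ * L / k * (-Real.log H) ≤ L * (-ρ) := by
            have : κ * L / k * (-Real.log H) = L * (κ * (-Real.log H)) / k := by ring
            rw [this, div_le_iff₀ hk0]
            have h10 : (L : ℝ) * (κ * (-Real.log H)) ≤ L * (k * (-ρ)) :=
              mul_le_mul_of_nonneg_left hkρ (Nat.cast_nonneg L)
            linarith
          have h11 : κ * L * Real.log b + (1 - δ1) * L * Real.log H = L * ρ := by rw [← hρd]; ring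
          rw [hMeq] at h2 ⊢
          have h12 : Real.log Q + ((1 - δ1) * (L : ℝ) - K - C) * Real.log H ≤ -(C + 3) * Real.log H := by
            linarith
          linarith
        · have hMeq : M = N * J := min_eq_right h
          have h3 : Real.log Q ≤ J * Real.log b := by
            have := Real.log_le_log hQ0 f1r
            rwa [Real.log_pow] at this
          have h4 : (K : ℝ) ≤ J + 1 := by exact_mod_cast hKJ
          have h5 : (K : ℝ) * (-Real.log H) ≤ (J + 1) * (-Real.log H) :=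
            mul_le_mul_of_nonneg_right h4 (by linarith)
          have h6 : (J : ℝ) * Real.log b ≤ J * (((1 - δ1) * N - 1) * (-Real.log H)) :=
            mul_le_mul_of_nonneg_left hNH (Nat.cast_nonneg J)
          have h7 : (M : ℝ) = N * J := by rw [hMeq]; push_cast; ring
          rw [h7] at h2
          have h12 : Real.log Q + ((1 - δ1) * ((N : ℝ) * J) - K - C) * Real.log H ≤ -(C + 3) * Real.log H := by
            linarith
          linarith
      exact (Real.log_le_log_iff (by positivity) hC10).1 h1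
    -- the divisor bound
    set T : ℝ := C2 * (Q : ℝ) ^ (η / 2) with hT
    have hTp : ∀ n : ℕ, 1 ≤ n → n ≤ b ^ (2 * M + 2) → (n.divisors.card : ℝ) ≤ T := by
      intro n hn1 hn2
      refine (hτ n hn1).trans ?_
      have h1 : (n : ℝ) ≤ (b : ℝ) ^ (2 * N + 2) * (Q : ℝ) ^ (2 * N) := by
        calc (n : ℝ) ≤ (b : ℝ) ^ (2 * M + 2) := by exact_mod_cast hn2
          _ ≤ (b : ℝ) ^ (2 * (N * J) + 2) := pow_le_pow_right₀ hb1.le (by omega)
          _ = ((b : ℝ) ^ J) ^ (2 * N) * (b : ℝ) ^ 2 := by rw [← pow_mul, ← pow_add]; congr 1; ring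
          _ ≤ (b * Q : ℝ) ^ (2 * N) * (b : ℝ) ^ 2 := by gcongr
          _ = _ := by ring
      have h2 : (n : ℝ) ^ ε ≤ ((b : ℝ) ^ (2 * N + 2) * (Q : ℝ) ^ (2 * N)) ^ ε :=
        Real.rpow_le_rpow (by positivity) h1 hε0.le
      have h3 : ((b : ℝ) ^ (2 * N + 2) * (Q : ℝ) ^ (2 * N)) ^ ε =
          ((b : ℝ) ^ (2 * N + 2)) ^ ε * (Q : ℝ) ^ (η / 2) := by
        rw [Real.mul_rpow (by positivity) (by positivity)]
        congr 1
        rw [← Real.rpow_natCast (Q : ℝ), ← Real.rpow_mul hQ0.le]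
        congr 1
        push_cast
        exact hεη
      rw [h3] at h2
      calc C0 * (n : ℝ) ^ ε ≤ C0 * (((b : ℝ) ^ (2 * N + 2)) ^ ε * (Q : ℝ) ^ (η / 2)) :=
            mul_le_mul_of_nonneg_left h2 hC0.le
        _ = T := by rw [hT, hC2]; ring
    set lam : ℝ := (Q : ℝ) ^ (-η) with hlam
    have hlam0 : 0 < lam := by positivity
    have hLS : pts b Q (fun α => FF φ M J α ^ 4) ≤ 12 * ((b : ℝ) ^ 3 + 2) * C3 * Q * r ^ J := by
      refine (pts_mono (fun α => pow_le_pow_left₀ (FF_nonneg φ M J α) (FF_le_QF φ M J α) 4)).trans ?_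
      refine (mainLS φ (by omega) ht M J Q hJ1 hJM f1.le f2).trans ?_
      have h1 := (prod_ratio φ (by omega) ht J).trans (block_mu φ hφ J)
      rw [hC3] at h1
      calc 12 * ((b : ℝ) ^ 3 + 2) * Q * (b : ℝ) ^ J * ∏ c ∈ range J, (Ec φ c / Nc φ c)
          ≤ 12 * ((b : ℝ) ^ 3 + 2) * Q * (b : ℝ) ^ J * (C3 * ((mu s) ^ (1 - δ1)) ^ J) :=
            mul_le_mul_of_nonneg_left h1 (by positivity)
        _ = 12 * ((b : ℝ) ^ 3 + 2) * C3 * Q * r ^ J := by rw [hrdef, mul_pow]; ring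
    have hbig := big φ (by omega) ht M k K J Q T lam _ hlam0 hTp hLS (Nat.succ_pos _) hJK hJM
    rw [hH] at hbig
    -- `r ^ J ≤ Q ^ (-γ)`
    have hrJ : r ^ J ≤ (Q : ℝ) ^ (-γ) := by
      rw [← Real.log_le_log_iff (by positivity) (by positivity), Real.log_pow, Real.log_rpow hQ0]
      have h1 : Real.log Q ≤ J * Real.log b := by
        have := Real.log_le_log hQ0 f1r
        rwa [Real.log_pow] at this
      have h2 : γ * Real.log Q ≤ γ * (J * Real.log b) := mul_le_mul_of_nonneg_left h1 hγ0.le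
      have h3 : γ * (J * Real.log b) = -(J * Real.log r) := by
        rw [hγ]; field_simp
      linarith
    have hsec : r ^ J / lam ^ (3 * k) ≤ (Q : ℝ) ^ (-η) := by
      rw [div_le_iff₀ (by positivity)]
      refine hrJ.trans (le_of_eq ?_)
      rw [hlam, ← Real.rpow_natCast, ← Real.rpow_mul hQ0.le, ← Real.rpow_add hQ0]
      congr 1
      push_cast
      linarith
    have hQη : (Q : ℝ) * (Q : ℝ) ^ (-η) * (Q : ℝ) ^ (η / 2) = (Q : ℝ) ^ (1 - η / 2) := by
      nth_rewrite 1 [← Real.rpow_one (Q : ℝ)]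
      rw [← Real.rpow_add hQ0, ← Real.rpow_add hQ0]
      congr 1
      ring
    have hQη2 : 1 ≤ (Q : ℝ) ^ (η / 2) := Real.one_le_rpow hQ1 (by positivity)
    have hle : (Q : ℝ) ^ (1 - η / 2) ≤ (Q : ℝ) ^ (1 - δ) :=
      Real.rpow_le_rpow_of_exponent_le hQ1 (by linarith)
    have hfirst : 2 * k * lam * Q * (Q * H ^ (M - K - nf φ M) + T) ≤
        2 * k * (C1 + C2) * (Q : ℝ) ^ (1 - η / 2) := by
      have h1 : Q * H ^ (M - K - nf φ M) + T ≤ (C1 + C2) * (Q : ℝ) ^ (η / 2) := by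
        have : C1 * 1 ≤ C1 * (Q : ℝ) ^ (η / 2) := mul_le_mul_of_nonneg_left hQη2 hC10.le
        rw [hT]
        linarith
      calc 2 * k * lam * Q * (Q * H ^ (M - K - nf φ M) + T) ≤ 2 * k * lam * Q * ((C1 + C2) * (Q : ℝ) ^ (η / 2)) :=
            mul_le_mul_of_nonneg_left h1 (by positivity)
        _ = 2 * k * (C1 + C2) * ((Q : ℝ) * lam * (Q : ℝ) ^ (η / 2)) := by ring
        _ = _ := by rw [hlam, hQη]
    have hsecond : 12 * ((b : ℝ) ^ 3 + 2) * C3 * Q * r ^ J / lam ^ (3 * k) ≤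
        12 * ((b : ℝ) ^ 3 + 2) * C3 * (Q : ℝ) ^ (1 - η / 2) := by
      calc 12 * ((b : ℝ) ^ 3 + 2) * C3 * Q * r ^ J / lam ^ (3 * k)
          = 12 * ((b : ℝ) ^ 3 + 2) * C3 * Q * (r ^ J / lam ^ (3 * k)) := by ring
        _ ≤ 12 * ((b : ℝ) ^ 3 + 2) * C3 * Q * (Q : ℝ) ^ (-η) := mul_le_mul_of_nonneg_left hsec (by positivity)
        _ ≤ 12 * ((b : ℝ) ^ 3 + 2) * C3 * Q * (Q : ℝ) ^ (-η) * (Q : ℝ) ^ (η / 2) :=
            le_mul_of_one_le_right (by positivity) hQη2
        _ = 12 * ((b : ℝ) ^ 3 + 2) * C3 * ((Q : ℝ) * (Q : ℝ) ^ (-η) * (Q : ℝ) ^ (η / 2)) := by ring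
        _ = _ := by rw [hQη]
    calc pts b Q (FF φ L L) ≤ pts b Q (FF φ M M) := pts_shrink φ hML Q
      _ ≤ (2 * k * (C1 + C2) + 12 * ((b : ℝ) ^ 3 + 2) * C3) * (Q : ℝ) ^ (1 - η / 2) := by
          refine hbig.trans ?_
          linarith
      _ ≤ (2 * k * (C1 + C2) + 12 * ((b : ℝ) ^ 3 + 2) * C3) * (Q : ℝ) ^ (1 - δ) :=
          mul_le_mul_of_nonneg_left hle hpos2
      _ ≤ _ := mul_le_mul_of_nonneg_right (by linarith) (by positivity)

end Pool.Agent.V7H16.GD
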