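import Pool.Agent.V7H16.GD.Pt
import Pool.Agent.V7H16.GD.Big
import Pool.Agent.W261.PW_BV

/-!
Level of distribution, uniform in the digit sets.
-/

set_option autoImplicit false

namespace Pool.Agent.V7H16.GD

open Finset Filter Topology Pool.Agent.Helper112
open Pool.Agent.H39R3.PB (ph ph_nonneg ph_le_one pts)
open Pool.Agent.W89.PW (fr HH)
open Pool.Agent.H623R3.PBT8 (orth group coprime_pos)
open Pool.Agent.H885R3.PBT7 (cover)

variable {b s t : ℕ}

/-- the reduced part at denominator `q` -/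
noncomputable def U (φ : Fam b s t) (L q : ℕ) : ℝ :=
  ∑ a ∈ (range q).filter (fun a => a.Coprime q), FF φ L L ((a : ℝ) / q)

lemma U_nonneg (φ : Fam b s t) (L q : ℕ) : 0 ≤ U φ L q := by
  unfold U
  exact sum_nonneg fun _ _ => FF_nonneg _ _ _ _

lemma ee_sum {ι : Type} (S : Finset ι) (f : ι → ℝ) : ee (∑ i ∈ S, f i) = ∏ i ∈ S, ee (f i) := by
  classical
  induction S using Finset.induction_on with
  | empty => simp [ls_ee_zero]
  | insert a S ha ih => rw [prod_insert ha, sum_insert ha, ls_ee_add, ih]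

/-- the exponential sum over the palindromes is a product -/
lemma norm_sum_pv (φ : Fam b s t) (ht : 0 < t) (L : ℕ) (α : ℝ) :
    ‖∑ m : Fin L → Fin s × Fin t, ee (α * (pvG φ L m : ℝ))‖ =
      ((s : ℝ) * t) ^ L * FF φ L L α := by
  have hsr : (s : ℝ) ≠ 0 := by exact_mod_cast (s_pos φ).ne'
  have htr : (t : ℝ) ≠ 0 := by exact_mod_cast ht.ne'
  have h1 : ∀ m : Fin L → Fin s × Fin t, ee (α * (pvG φ L m : ℝ)) =
      ∏ c : Fin L, ee (if φ.A c = true then
        ((φ.σ c (m c).1 : ℝ) + (((m c).2 : ℕ) : ℝ)) * (fr b L c * α) else 0) := by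
    intro m
    rw [← ee_sum]
    congr 1
    unfold pvG
    push_cast
    rw [mul_sum]
    refine sum_congr rfl fun c _ => ?_
    split_ifs
    · ring
    · ring
  rw [sum_congr rfl (fun m _ => h1 m)]
  have h3 : ∑ m : Fin L → Fin s × Fin t,
      ∏ c : Fin L, ee (if φ.A c = true then
        ((φ.σ c (m c).1 : ℝ) + (((m c).2 : ℕ) : ℝ)) * (fr b L c * α) else 0) =
      ∏ c : Fin L, ∑ x : Fin s × Fin t, ee (if φ.A c = true then
        ((φ.σ c x.1 : ℝ) + ((x.2 : ℕ) : ℝ)) * (fr b L c * α) else 0) := by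
    rw [Finset.prod_univ_sum, Fintype.piFinset_univ]
  rw [h3, norm_prod]
  have h4 : ∀ c : Fin L, ‖∑ x : Fin s × Fin t, ee (if φ.A c = true then
        ((φ.σ c x.1 : ℝ) + ((x.2 : ℕ) : ℝ)) * (fr b L c * α) else 0)‖ =
      ((s : ℝ) * t) * pf φ c (fr b L (c : ℕ) * α) := by
    intro c
    by_cases hA : φ.A c = true
    · have h5 : ∑ x : Fin s × Fin t, ee (if φ.A c = true then
          ((φ.σ c x.1 : ℝ) + ((x.2 : ℕ) : ℝ)) * (fr b L c * α) else 0) =
          (SS φ c (fr b L c * α)) * ∑ j ∈ range t, ee ((j : ℝ) * (fr b L c * α)) := by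
        unfold SS
        rw [Fintype.sum_prod_type, 
          ← Fin.sum_univ_eq_sum_range (fun x : ℕ => ee ((x : ℝ) * (fr b L c * α))) t, sum_mul_sum]
        refine sum_congr rfl fun i _ => sum_congr rfl fun j _ => ?_
        rw [if_pos hA, ← ls_ee_add]
        congr 1
        ring
      rw [h5, norm_mul]
      unfold pf hs ph
      rw [if_pos hA]
      generalize ‖SS φ c (fr b L c * α)‖ = X
      generalize ‖∑ j ∈ range t, ee ((j : ℝ) * (fr b L c * α))‖ = Y
      field_simp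
    · have h5 : ∑ x : Fin s × Fin t, ee (if φ.A c = true then
          ((φ.σ c x.1 : ℝ) + ((x.2 : ℕ) : ℝ)) * (fr b L c * α) else 0) = ((s : ℂ) * t) := by
        simp [hA, ls_ee_zero]
      rw [h5]
      unfold pf
      rw [if_neg hA, mul_one, norm_mul]
      simp
  rw [prod_congr rfl (fun c _ => h4 c), prod_mul_distrib, prod_const, card_univ, Fintype.card_fin]
  congr 1
  unfold FF
  rw [Fin.prod_univ_eq_prod_range (fun j => pf φ j (fr b L j * α)) L]

/-- number of `m` with `pv m ≡ h (mod q)` -/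
noncomputable def cntR (φ : Fam b s t) (L q h : ℕ) : ℝ :=
  ((univ : Finset (Fin L → Fin s × Fin t)).filter (fun m => pvG φ L m ≡ h [MOD q])).card

/-- counting by exponential sums -/
theorem cntR_bound (φ : Fam b s t) (ht : 0 < t) (L q h : ℕ) (hq : q.Coprime (2 * b)) :
    |cntR φ L q h - ((s : ℝ) * t) ^ L / q| ≤
      ((s : ℝ) * t) ^ L / q * ∑ d ∈ q.divisors.filter (fun d => 1 < d), U φ L d := by
  have hq0 := coprime_pos hq
  have hqr : (0 : ℝ) < q := by exact_mod_cast hq0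
  have hqc : (q : ℂ) ≠ 0 := by exact_mod_cast hq0.ne'
  -- Fourier expansion
  set T : ℕ → ℂ := fun a => ∑ m : Fin L → Fin s × Fin t,
    ee ((a : ℝ) * (((pvG φ L m : ℕ) : ℝ) - (h : ℝ)) / q) with hT
  have h1 : (cntR φ L q h : ℂ) = (1 / (q : ℂ)) * ∑ a ∈ range q, T a := by
    have h2 : (cntR φ L q h : ℂ) = ∑ m : Fin L → Fin s × Fin t,
        (1 / (q : ℂ)) * ∑ a ∈ range q, ee ((a : ℝ) * ((((pvG φ L m : ℕ) : ℝ) - (h : ℝ)) / q)) := by
      unfold cntR
      rw [Finset.card_filter]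
      push_cast
      refine sum_congr rfl fun m _ => ?_
      rw [orth hq0 (pvG φ L m) h]
      by_cases hm : pvG φ L m ≡ h [MOD q]
      · rw [if_pos hm, if_pos hm]
        push_cast
        field_simp
      · rw [if_neg hm, if_neg hm]
        simp
    rw [h2, ← mul_sum, sum_comm]
    congr 1
    refine sum_congr rfl fun a _ => ?_
    simp only [hT]
    refine sum_congr rfl fun m _ => ?_
    congr 1
    ring
  have hT0 : T 0 = ((s : ℂ) * t) ^ L := by
    simp only [hT]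
    simp [ls_ee_zero]
  have hTn : ∀ a, ‖T a‖ = ((s : ℝ) * t) ^ L * FF φ L L ((a : ℝ) / q) := by
    intro a
    simp only [hT]
    have e : ∀ m : Fin L → Fin s × Fin t, ee ((a : ℝ) * (((pvG φ L m : ℕ) : ℝ) - (h : ℝ)) / q) =
        ee (-((a : ℝ) / q * h)) * ee ((a : ℝ) / q * (pvG φ L m : ℝ)) := by
      intro m
      rw [← ls_ee_add]
      congr 1
      ring
    rw [sum_congr rfl fun m _ => e m, ← mul_sum, norm_mul, ls_norm_ee, one_mul, norm_sum_pv φ ht]
  have h3 : (cntR φ L q h : ℂ) - ((s : ℂ) * t) ^ L / q =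
      (1 / (q : ℂ)) * ∑ a ∈ (range q).erase 0, T a := by
    rw [h1, ← Finset.add_sum_erase _ _ (mem_range.2 hq0), hT0]
    ring
  have h4 : |cntR φ L q h - ((s : ℝ) * t) ^ L / q| ≤ (1 / (q : ℝ)) * ∑ a ∈ (range q).erase 0,
      ((s : ℝ) * t) ^ L * FF φ L L ((a : ℝ) / q) := by
    have h5 : |cntR φ L q h - ((s : ℝ) * t) ^ L / q| = ‖(cntR φ L q h : ℂ) - ((s : ℂ) * t) ^ L / q‖ := by
      rw [← Real.norm_eq_abs, ← Complex.norm_real]
      push_cast
      rfl
    rw [h5, h3, norm_mul]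
    have h6 : ‖(1 / (q : ℂ))‖ = 1 / (q : ℝ) := by simp
    rw [h6]
    refine mul_le_mul_of_nonneg_left ?_ (by positivity)
    refine (norm_sum_le _ _).trans (le_of_eq ?_)
    exact sum_congr rfl fun a _ => hTn a
  refine h4.trans (le_of_eq ?_)
  rw [← mul_sum]
  have h7 : ∑ a ∈ (range q).erase 0, FF φ L L ((a : ℝ) / q) =
      ∑ d ∈ q.divisors.filter (fun d => 1 < d), U φ L d := by
    have h8 := group hq0 (FF φ L L)
    rw [← Finset.add_sum_erase _ _ (mem_range.2 hq0)] at h8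
    have h9 : q.divisors.filter (fun d => 1 < d) = q.divisors.erase 1 := by
      ext d
      rw [mem_filter, mem_erase, Nat.mem_divisors]
      constructor
      · rintro ⟨h1, h2⟩
        exact ⟨by omega, h1⟩
      · rintro ⟨h1, h2⟩
        refine ⟨h2, ?_⟩
        have := Nat.pos_of_dvd_of_pos h2.1 hq0
        omega
    have h10 : (1 : ℕ) ∈ q.divisors := Nat.one_mem_divisors.2 hq0.ne'
    rw [← Finset.add_sum_erase _ _ h10] at h8
    have h11 : ∑ a ∈ (range 1).filter (fun a => a.Coprime 1), FF φ L L ((a : ℝ) / (1 : ℕ)) =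
        FF φ L L (((0 : ℕ) : ℝ) / q) := by
      simp
    rw [h11] at h8
    rw [h9]
    unfold U
    linarith
  rw [h7]
  ring

/-- the double sum over multiples -/
lemma double (u : ℕ → ℝ) (hu : ∀ d, 0 ≤ u d) (P : ℝ) (hP0 : 0 ≤ P) (b D : ℕ) :
    ∑ q ∈ (Icc 1 D).filter (fun q => q.Coprime (2 * b)),
      (q.divisors.card : ℝ) ^ 2 * (P / q *
        ∑ d ∈ q.divisors.filter (fun d => 1 < d), u d) ≤
    P * ((∑ d ∈ (Icc 2 D).filter (fun q => q.Coprime (2 * b)),
      (d.divisors.card : ℝ) ^ 2 * u d / d) *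
        ∑ e ∈ Icc 1 D, (e.divisors.card : ℝ) ^ 2 / e) := by
  have h1 : ∀ q ∈ (Icc 1 D).filter (fun q => q.Coprime (2 * b)),
      (q.divisors.card : ℝ) ^ 2 * (P / q * ∑ d ∈ q.divisors.filter (fun d => 1 < d), u d) ≤
      ∑ d ∈ q.divisors.filter (fun d => 1 < d), P * (((d.divisors.card : ℝ) ^ 2 * u d / d) *
        (((q / d).divisors.card : ℝ) ^ 2 / ((q / d : ℕ) : ℝ))) := by
    intro q hq
    rw [mem_filter, mem_Icc] at hq
    have hq0 : 0 < q := hq.1.1
    rw [mul_sum, mul_sum]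
    refine sum_le_sum fun d hd => ?_
    rw [mem_filter, Nat.mem_divisors] at hd
    obtain ⟨⟨⟨e, he⟩, _⟩, hd1⟩ := hd
    have hd0 : 0 < d := by omega
    have he0 : 0 < e := by
      rcases Nat.eq_zero_or_pos e with h0 | h0
      · subst h0; simp at he; omega
      · exact h0
    have hqd : q / d = e := by rw [he, Nat.mul_div_cancel_left _ hd0]
    rw [hqd, he]
    have hd' : (0 : ℝ) < d := by exact_mod_cast hd0
    have he' : (0 : ℝ) < e := by exact_mod_cast he0
    have ht : ((d * e).divisors.card : ℝ) ≤ (d.divisors.card : ℝ) * e.divisors.card := by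
      exact_mod_cast Pool.Agent.H316R2.tau_mul_le d e
    have ht2 : ((d * e).divisors.card : ℝ) ^ 2 ≤
        ((d.divisors.card : ℝ) * e.divisors.card) ^ 2 := by gcongr
    have hU := hu d
    push_cast
    calc ((d * e).divisors.card : ℝ) ^ 2 * (P / (d * e) * u d)
        ≤ ((d.divisors.card : ℝ) * e.divisors.card) ^ 2 * (P / (d * e) * u d) := by
          gcongr
      _ = _ := by
          field_simp
  refine (sum_le_sum h1).trans ?_
  rw [sum_sigma', sum_mul_sum, mul_sum]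
  simp_rw [mul_sum]
  rw [sum_sigma' (s := (Icc 2 D).filter (fun q => q.Coprime (2 * b))) (t := fun _ => Icc 1 D)]
  -- injection `(q, d) ↦ (d, q / d)`
  set g : (_ : ℕ) × ℕ → (_ : ℕ) × ℕ := fun x => ⟨x.2, x.1 / x.2⟩ with hg
  set F : (_ : ℕ) × ℕ → ℝ := fun x => P * (((x.1.divisors.card : ℝ) ^ 2 * u x.1 / x.1) *
        ((x.2.divisors.card : ℝ) ^ 2 / (x.2 : ℝ))) with hF
  have hinj : Set.InjOn g (((Icc 1 D).filter (fun q => q.Coprime (2 * b))).sigma
      (fun q => q.divisors.filter (fun d => 1 < d)) : Finset ((_ : ℕ) × ℕ)) := by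
    rintro ⟨q, d⟩ hx ⟨q', d'⟩ hx' hxx
    rw [Finset.mem_coe, mem_sigma, mem_filter, mem_filter, Nat.mem_divisors] at hx hx'
    simp only [hg, Sigma.mk.injEq, heq_eq_eq] at hxx
    obtain ⟨h1, h2⟩ := hxx
    simp only at hx hx'
    subst h1
    have h3 : q = q' := by
      rw [← Nat.div_mul_cancel hx.2.1.1, h2, Nat.div_mul_cancel hx'.2.1.1]
    subst h3
    rfl
  have hsum : ∑ x ∈ ((Icc 1 D).filter (fun q => q.Coprime (2 * b))).sigma
      (fun q => q.divisors.filter (fun d => 1 < d)), F (g x) =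
      ∑ y ∈ (((Icc 1 D).filter (fun q => q.Coprime (2 * b))).sigma
      (fun q => q.divisors.filter (fun d => 1 < d))).image g, F y := by
    rw [sum_image hinj]
  have hgoal : ∑ x ∈ ((Icc 1 D).filter (fun q => q.Coprime (2 * b))).sigma
      (fun q => q.divisors.filter (fun d => 1 < d)), F (g x) ≤
      ∑ y ∈ ((Icc 2 D).filter (fun q => q.Coprime (2 * b))).sigma (fun _ => Icc 1 D), F y := by
    rw [hsum]
    refine sum_le_sum_of_subset_of_nonneg ?_ ?_
    · intro y hy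
      rw [mem_image] at hy
      obtain ⟨⟨q, d⟩, hx, rfl⟩ := hy
      rw [mem_sigma, mem_filter, mem_filter, Nat.mem_divisors, mem_Icc] at hx
      simp only at hx
      obtain ⟨⟨⟨hq1, hqD⟩, hqc⟩, ⟨hdq, _⟩, hd1⟩ := hx
      rw [mem_sigma, mem_filter, mem_Icc, mem_Icc]
      simp only [hg]
      have hle := Nat.le_of_dvd hq1 hdq
      refine ⟨⟨⟨hd1, hle.trans hqD⟩, Nat.Coprime.coprime_dvd_left hdq hqc⟩, ?_, ?_⟩
      · exact Nat.div_pos hle (by omega)
      · exact (Nat.div_le_self _ _).trans hqD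
    · intro y _ _
      simp only [hF]
      have := hu y.1
      positivity
  exact hgoal

/-- a dyadic block in terms of `pts` -/
lemma block (φ : Fam b s t) (L Q : ℕ) (hQ : 1 ≤ Q) (d C : ℝ) (hd : 0 ≤ d) (hC : 0 ≤ C)
    (hτ : ∀ n : ℕ, 1 ≤ n → (n.divisors.card : ℝ) ^ 2 ≤ C * (n : ℝ) ^ d) :
    ∑ q ∈ (Ico Q (2 * Q)).filter (fun q => q.Coprime (2 * b)),
      (q.divisors.card : ℝ) ^ 2 * U φ L q / q ≤
      C * (2 * Q : ℝ) ^ d / Q * pts b Q (FF φ L L) := by
  unfold pts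
  rw [mul_sum]
  apply sum_le_sum
  intro q hq
  rw [mem_filter, mem_Ico] at hq
  obtain ⟨⟨h1, h2⟩, h3⟩ := hq
  have hQ0 : (0 : ℝ) < Q := by exact_mod_cast hQ
  have hq0 : (0 : ℝ) < q := by exact_mod_cast (show 0 < q by omega)
  have hU := U_nonneg φ L q
  have e1 : (q.divisors.card : ℝ) ^ 2 ≤ C * (2 * Q : ℝ) ^ d := by
    refine (hτ q (by omega)).trans (mul_le_mul_of_nonneg_left ?_ hC)
    apply Real.rpow_le_rpow hq0.le _ hd
    exact_mod_cast h2.le
  have e2 : (1 : ℝ) / q ≤ 1 / Q := by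
    apply one_div_le_one_div_of_le hQ0
    exact_mod_cast h1
  calc (q.divisors.card : ℝ) ^ 2 * U φ L q / q
      = (q.divisors.card : ℝ) ^ 2 * U φ L q * (1 / q) := by ring
    _ ≤ (C * (2 * Q : ℝ) ^ d) * U φ L q * (1 / Q) := by
        apply mul_le_mul (mul_le_mul_of_nonneg_right e1 hU) e2 (by positivity)
        have : 0 ≤ C * (2 * Q : ℝ) ^ d := by positivity
        exact mul_nonneg this hU
    _ = C * (2 * Q : ℝ) ^ d / Q * U φ L q := by ring

/-- the small range: a dyadic block -/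
lemma block_small (φ : Fam b s t) (L j : ℕ) (hj : 1 ≤ j) (E : ℝ) (hE0 : 0 ≤ E)
    (hp : ∀ q a : ℕ, 1 < q → q.Coprime (2 * b) → a.Coprime q →
      q < 2 ^ (j + 1) → FF φ L L ((a : ℝ) / q) ≤ E) :
    ∑ q ∈ (Ico (2 ^ j) (2 * 2 ^ j)).filter (fun q => q.Coprime (2 * b)),
      (q.divisors.card : ℝ) ^ 2 * U φ L q / q ≤
      (2 : ℝ) ^ (3 * j + 2) * E := by
  have hterm : ∀ q ∈ (Ico (2 ^ j) (2 * 2 ^ j)).filter (fun q => q.Coprime (2 * b)),
      (q.divisors.card : ℝ) ^ 2 * U φ L q / q ≤ (2 * 2 ^ j) ^ 2 * E := by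
    intro q hq
    rw [mem_filter, mem_Ico] at hq
    obtain ⟨⟨h2, h3⟩, h4⟩ := hq
    have h2j : 2 ^ 1 ≤ 2 ^ j := Nat.pow_le_pow_right (by norm_num) hj
    have hq1 : 1 < q := by omega
    have hq0 : (0 : ℝ) < q := by exact_mod_cast (show 0 < q by omega)
    have hq10 : q < 2 ^ (j + 1) := by
      calc q < 2 * 2 ^ j := h3
        _ = 2 ^ (j + 1) := by ring
    have hU : U φ L q ≤ q * E := by
      unfold U
      calc ∑ a ∈ (range q).filter (fun a => a.Coprime q), FF φ L L ((a : ℝ) / q)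
          ≤ ∑ a ∈ (range q).filter (fun a => a.Coprime q), E := by
            apply sum_le_sum
            intro a ha
            rw [mem_filter] at ha
            exact hp q a hq1 h4 ha.2 hq10
        _ = (((range q).filter (fun a => a.Coprime q)).card : ℝ) * E := by
            rw [sum_const, nsmul_eq_mul]
        _ ≤ q * E := by
            apply mul_le_mul_of_nonneg_right _ hE0
            have := card_filter_le (range q) (fun a => a.Coprime q)
            rw [card_range] at this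
            exact_mod_cast this
    have hτ : (q.divisors.card : ℝ) ≤ 2 * 2 ^ j := by
      have e1 : q.divisors.card ≤ q := Nat.card_divisors_le_self q
      have e2 : q.divisors.card ≤ 2 * 2 ^ j := by omega
      exact_mod_cast e2
    rw [div_le_iff₀ hq0]
    calc (q.divisors.card : ℝ) ^ 2 * U φ L q ≤ (2 * 2 ^ j) ^ 2 * (q * E) := by
          apply mul_le_mul _ hU (U_nonneg φ L q) (by positivity)
          exact pow_le_pow_left₀ (by positivity) hτ 2
      _ = (2 * 2 ^ j) ^ 2 * E * q := by ring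
  calc _ ≤ ∑ q ∈ (Ico (2 ^ j) (2 * 2 ^ j)).filter (fun q => q.Coprime (2 * b)),
        ((2 * 2 ^ j) ^ 2 * E : ℝ) := sum_le_sum hterm
    _ = (((Ico (2 ^ j) (2 * 2 ^ j)).filter (fun q => q.Coprime (2 * b))).card : ℝ)
        * ((2 * 2 ^ j) ^ 2 * E) := by rw [sum_const, nsmul_eq_mul]
    _ ≤ 2 ^ j * ((2 * 2 ^ j) ^ 2 * E) := by
        apply mul_le_mul_of_nonneg_right _ (by positivity)
        have := card_filter_le (Ico (2 ^ j) (2 * 2 ^ j)) (fun q => q.Coprime (2 * b))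
        rw [Nat.card_Ico] at this
        have e : 2 * 2 ^ j - 2 ^ j = 2 ^ j := by omega
        rw [e] at this
        exact_mod_cast this
    _ = (2 : ℝ) ^ (3 * j + 2) * E := by ring

/-- the exponential sums at rational points with small denominators -/
theorem small_den {b : ℕ} (hb : 2 ≤ b) {A1 : ℝ} (hA1 : 1 ≤ A1) : ∃ δ : ℝ, 0 < δ ∧ ∀ C : ℝ, 0 ≤ C → ∀ P : ℕ,
    ∀ᶠ L : ℕ in atTop, ∀ s t : ℕ, 1 ≤ t → ∀ φ : Fam b s t, Sp φ δ C → ∀ h : ℕ, (h : ℝ) ≤ A1 * Real.log L →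
      ∀ q a : ℕ, 1 < q → q.Coprime (2 * b) → a.Coprime q → q < b ^ h → FF φ L L ((a : ℝ) / q) ≤ 1 / (L : ℝ) ^ P := by
  have hbR : (2 : ℝ) ≤ b := by exact_mod_cast hb
  have hb0 : (0 : ℝ) < b := by linarith
  have hlb2 : (1 : ℝ) / 2 ≤ Real.log b := by
    have h1 := Real.log_two_gt_d9
    have h2 := Real.log_le_log (by norm_num) hbR
    linarith
  have hlb : 0 < Real.log b := by linarith
  refine ⟨1 / (128 * (A1 + 1) * Real.log b), by positivity, ?_⟩
  intro C hC P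
  -- the quantities which are large with `L`
  have hlog : Tendsto (fun L : ℕ => Real.log (L : ℝ)) atTop atTop :=
    Real.tendsto_log_atTop.comp tendsto_natCast_atTop_atTop
  have e1 : ∀ᶠ L : ℕ in atTop, 4 ≤ Real.log (L : ℝ) := hlog.eventually_ge_atTop 4
  -- `1 + 32 C log b / l ≤ L / (4 (A1 + 1) l)`
  have e2 : ∀ᶠ L : ℕ in atTop, Real.log (L : ℝ) ^ 2 ≤ (4 / (9 * (b : ℝ) ^ 9)) / (2 * (A1 + 1) * (P + 1)) *
      (L : ℝ) ^ (3 / 4 : ℝ) := by
    have h3 : Tendsto (fun x : ℝ => Real.log x ^ 2 / x ^ (3 / 4 : ℝ)) atTop (𝓝 0) := by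
      have := (isLittleO_log_rpow_atTop (r := 3 / 8) (by norm_num)).tendsto_div_nhds_zero
      have h4 := this.pow 2
      simp only [zero_pow (two_ne_zero)] at h4
      refine h4.congr' ?_
      filter_upwards [eventually_gt_atTop (0 : ℝ)] with x hx
      rw [div_pow, ← Real.rpow_natCast (x ^ (3 / 8 : ℝ)), ← Real.rpow_mul hx.le]
      norm_num
    have hc : (0 : ℝ) < (4 / (9 * (b : ℝ) ^ 9)) / (2 * (A1 + 1) * (P + 1)) := by positivity
    have h4 := (h3.comp tendsto_natCast_atTop_atTop).eventually_lt_const hc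
    filter_upwards [h4, eventually_gt_atTop 0] with L h5 h6
    have h7 : (0 : ℝ) < (L : ℝ) ^ (3 / 4 : ℝ) := Real.rpow_pos_of_pos (by exact_mod_cast h6) _
    simp only [Function.comp] at h5
    rw [div_lt_iff₀ h7] at h5
    exact h5.le
  have e3 : ∀ᶠ L : ℕ in atTop, Real.log (L : ℝ) + 32 * C * Real.log b ≤ 1 / (4 * (A1 + 1)) * (L : ℝ) := by
    have h1 : Tendsto (fun x : ℝ => Real.log x / x) atTop (𝓝 0) := by
      have := Real.isLittleO_log_id_atTop.tendsto_div_nhds_zero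
      simpa using this
    have h2 := (h1.comp tendsto_natCast_atTop_atTop).eventually_lt_const
      (show (0 : ℝ) < 1 / (8 * (A1 + 1)) by positivity)
    have h3 : ∀ᶠ L : ℕ in atTop, 32 * C * Real.log b ≤ 1 / (8 * (A1 + 1)) * (L : ℝ) :=
      ((tendsto_natCast_atTop_atTop (R := ℝ)).const_mul_atTop (by positivity)).eventually_ge_atTop _
    filter_upwards [h2, h3, eventually_gt_atTop 0] with L h4 h5 h6
    have h7 : (0 : ℝ) < (L : ℝ) := by exact_mod_cast h6
    simp only [Function.comp] at h4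
    rw [div_lt_iff₀ h7] at h4
    have h8 : 1 / (4 * (A1 + 1)) * (L : ℝ) = 1 / (8 * (A1 + 1)) * (L : ℝ) + 1 / (8 * (A1 + 1)) * (L : ℝ) := by
      field_simp; norm_num
    linarith
  filter_upwards [e1, e2, e3, eventually_gt_atTop 0] with L h1 h2 h3 hL0' s t ht φ hφ h hh q a hq1 hq ha hqh
  have hL0 : (0 : ℝ) < L := by exact_mod_cast hL0'
  obtain ⟨l, hl⟩ : ∃ l, Real.log (L : ℝ) = l := ⟨_, rfl⟩
  rw [hl] at h1 h2 h3 hh
  have hl0 : 0 < l := by linarith
  set R : ℕ := ⌊l / (32 * Real.log b)⌋₊ with hR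
  have hR1 : (R : ℝ) ≤ l / (32 * Real.log b) := Nat.floor_le (by positivity)
  have hR2 : l / (32 * Real.log b) < (R : ℝ) + 1 := Nat.lt_floor_add_one _
  obtain ⟨G, B, g1, g2, g3⟩ := ptF φ hb ht q h a L R hq1 hq ha hqh
  refine g1.trans ?_
  -- the number of the windows
  have hW : ((h + 2 * R + 3 : ℕ) : ℝ) ≤ (A1 + 1) * l := by
    push_cast
    have h4 : l / (32 * Real.log b) ≤ l / 16 := by
      apply div_le_div_of_nonneg_left hl0.le (by norm_num)
      linarith
    nlinarith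
  have hW0 : (0 : ℝ) < ((h + 2 * R + 3 : ℕ) : ℝ) := by positivity
  have hn : (L : ℝ) / ((A1 + 1) * l) - 1 ≤ G + B := by
    have h4 : (L : ℝ) / ((h + 2 * R + 3 : ℕ) : ℝ) < ((L / (h + 2 * R + 3) : ℕ) : ℝ) + 1 := by
      rw [div_lt_iff₀ hW0]
      have := Nat.lt_div_mul_add (a := L) (b := h + 2 * R + 3) (by omega)
      have h5 : L < (L / (h + 2 * R + 3) + 1) * (h + 2 * R + 3) := by
        rw [add_mul, one_mul]
        exact this
      exact_mod_cast h5
    rw [g2] at h4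
    push_cast at h4
    have h5 : (L : ℝ) / ((A1 + 1) * l) ≤ (L : ℝ) / ((h + 2 * R + 3 : ℕ) : ℝ) :=
      div_le_div_of_nonneg_left hL0.le hW0 hW
    push_cast at h5
    linarith
  have hB : (B : ℝ) * l ≤ L / (4 * (A1 + 1)) + 32 * C * Real.log b := by
    have h4 : ((R : ℝ) + 1) * B ≤ 1 / (128 * (A1 + 1) * Real.log b) * L + C := by
      have h5 : (((R + 1) * B : ℕ) : ℝ) ≤ nf φ L := by exact_mod_cast g3
      push_cast at h5
      exact h5.trans (hφ L)
    have h5 : l / (32 * Real.log b) * B ≤ ((R : ℝ) + 1) * B :=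
      mul_le_mul_of_nonneg_right hR2.le (Nat.cast_nonneg _)
    have h6 : l / (32 * Real.log b) * B ≤ 1 / (128 * (A1 + 1) * Real.log b) * L + C := h5.trans h4
    have h7 : (B : ℝ) * l = 32 * Real.log b * (l / (32 * Real.log b) * B) := by field_simp
    rw [h7]
    refine (mul_le_mul_of_nonneg_left h6 (by positivity)).trans (le_of_eq ?_)
    field_simp
    ring
  have hG : (L : ℝ) / (2 * (A1 + 1)) ≤ G * l := by
    have h4 : ((L : ℝ) / ((A1 + 1) * l) - 1) * l ≤ (G + B) * l := mul_le_mul_of_nonneg_right hn hl0.le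
    have h5 : ((L : ℝ) / ((A1 + 1) * l) - 1) * l = L / (A1 + 1) - l := by field_simp
    have h6 : (L : ℝ) / (A1 + 1) = 4 * (L / (4 * (A1 + 1))) := by field_simp
    have h7 : (L : ℝ) / (2 * (A1 + 1)) = 2 * (L / (4 * (A1 + 1))) := by field_simp; norm_num
    have h8 : 1 / (4 * (A1 + 1)) * (L : ℝ) = L / (4 * (A1 + 1)) := by ring
    rw [h8] at h3
    rw [h7]
    nlinarith
  -- the size of the saving
  have hsv : 4 / (9 * (b : ℝ) ^ 9) * (L : ℝ) ^ (-(1 / 4) : ℝ) ≤ sv b R := by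
    have h4 : (b : ℝ) ^ (8 * R) ≤ (L : ℝ) ^ (1 / 4 : ℝ) := by
      rw [Real.rpow_def_of_pos hL0, hl, ← Real.rpow_natCast, Real.rpow_def_of_pos hb0]
      apply Real.exp_le_exp.2
      push_cast
      have h5 : Real.log b * (8 * (R : ℝ)) ≤ Real.log b * (8 * (l / (32 * Real.log b))) := by gcongr
      refine h5.trans (le_of_eq ?_)
      field_simp
      norm_num
    have h5 : sv b R = 4 / (9 * (b : ℝ) ^ 9) * ((b : ℝ) ^ (8 * R))⁻¹ := by
      unfold sv
      rw [show 4 * (R + 1) = 4 * R + 4 by ring, show 8 * R = 4 * R + 4 * R by ring, pow_add, pow_add]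
      field_simp
      ring
    rw [h5, Real.rpow_neg hL0.le]
    gcongr
  have hsv0 : 0 ≤ 1 - sv b R := by linarith [sv_lt_one hb R]
  have h4 : (1 - sv b R) ^ G ≤ Real.exp (-(sv b R * G)) := by
    have h5 : 1 - sv b R ≤ Real.exp (-sv b R) := by
      have := Real.add_one_le_exp (-sv b R)
      linarith
    refine (pow_le_pow_left₀ hsv0 h5 G).trans (le_of_eq ?_)
    rw [← Real.exp_nat_mul]
    congr 1
    ring
  refine h4.trans ?_
  have h5 : 1 / (L : ℝ) ^ P = Real.exp (-(P * l)) := by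
    rw [Real.exp_neg, mul_comm, ← hl, Real.exp_mul, Real.exp_log hL0, one_div, Real.rpow_natCast]
  rw [h5]
  apply Real.exp_le_exp.2
  rw [neg_le_neg_iff]
  have h6 : (P : ℝ) * l * l ≤ sv b R * G * l := by
    have h7 : (4 / (9 * (b : ℝ) ^ 9) * (L : ℝ) ^ (-(1 / 4) : ℝ)) * ((L : ℝ) / (2 * (A1 + 1))) ≤
        sv b R * (G * l) := mul_le_mul hsv hG (by positivity) (sv_pos hb R).le
    have h8 : (4 / (9 * (b : ℝ) ^ 9) * (L : ℝ) ^ (-(1 / 4) : ℝ)) * ((L : ℝ) / (2 * (A1 + 1))) =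
        (P + 1) * ((4 / (9 * (b : ℝ) ^ 9)) / (2 * (A1 + 1) * (P + 1)) * (L : ℝ) ^ (3 / 4 : ℝ)) := by
      have h9 : (L : ℝ) ^ (-(1 / 4) : ℝ) * L = (L : ℝ) ^ (3 / 4 : ℝ) := by
        rw [← Real.rpow_add_one hL0.ne']
        norm_num
      calc (4 / (9 * (b : ℝ) ^ 9) * (L : ℝ) ^ (-(1 / 4) : ℝ)) * ((L : ℝ) / (2 * (A1 + 1)))
          = 4 / (9 * (b : ℝ) ^ 9) / (2 * (A1 + 1)) * ((L : ℝ) ^ (-(1 / 4) : ℝ) * L) := by ring
        _ = _ := by rw [h9]; field_simp
    rw [h8] at h7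
    have h10 : ((P : ℝ) + 1) * l ^ 2 ≤ (P + 1) * ((4 / (9 * (b : ℝ) ^ 9)) / (2 * (A1 + 1) * (P + 1)) *
        (L : ℝ) ^ (3 / 4 : ℝ)) := mul_le_mul_of_nonneg_left h2 (by positivity)
    nlinarith [sq_nonneg l]
  exact le_of_mul_le_mul_right h6 hl0

end Pool.Agent.V7H16.GD
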