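import Pool.Agent.V7H16.GD.BV

/-!
Level of distribution, uniform in the digit sets.
-/

set_option autoImplicit false

namespace Pool.Agent.V7H16.GD

open Finset Filter Topology Pool.Agent.Helper112
open Pool.Agent.H39R3.PB (ph ph_nonneg ph_le_one pts)
open Pool.Agent.W89.PW (fr HH)
open Pool.Agent.H885R3.PBT7 (cover)

lemma Sp_mono {b s t : ℕ} {φ : Fam b s t} {δ δ' C : ℝ} (h : δ ≤ δ') (hφ : Sp φ δ C) : Sp φ δ' C := fun J =>
  (hφ J).trans (by
    have : δ * J ≤ δ' * J := mul_le_mul_of_nonneg_right h (Nat.cast_nonneg J)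
    linarith)

/-- the sum of the `U` -/
theorem U_sum {b s t : ℕ} (hb : 3 ≤ b) (hs : 1 ≤ s) (ht : 1 ≤ t) (hst : s + t ≤ b + 1) {κ δ1 : ℝ} (hδ0 : 0 < δ1)
    (hδ1' : δ1 < 1) (hr : (b : ℝ) * (mu s) ^ (1 - δ1) < 1) (h0 : 0 < κ) (h1 : κ < 1)
    (hκH : (b : ℝ) ^ κ * (HH s t) ^ (1 - δ1) < 1) (A : ℕ) :
    ∃ δ : ℝ, 0 < δ ∧ δ ≤ δ1 ∧ ∀ C : ℝ, 0 ≤ C → ∀ᶠ L : ℕ in atTop, ∀ φ : Fam b s t, Sp φ δ C →
    ∑ d ∈ (Icc 2 ⌊(b : ℝ) ^ (κ * L)⌋₊).filter (fun q => q.Coprime (2 * b)),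
      (d.divisors.card : ℝ) ^ 2 * U φ L d / d ≤ 1 / (L : ℝ) ^ A := by
  obtain ⟨ε, hε, hε1, hbig⟩ := BigF hb hs ht hst hδ0.le hδ1' hr h0 hκH
  have hbR : (3 : ℝ) ≤ b := by exact_mod_cast hb
  have hBl : 0 < Real.log b := Real.log_pos (by linarith)
  have hl2 : 1 / 2 ≤ Real.log 2 := by
    have := Real.log_two_gt_d9
    linarith
  have hl2' : 0 < Real.log 2 := by linarith
  -- the threshold
  set A1 : ℝ := 2 * (A + 3) / (ε * Real.log 2) + 1 with hA1
  have hA11 : 1 ≤ A1 := by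
    have : 0 ≤ 2 * ((A : ℝ) + 3) / (ε * Real.log 2) := by positivity
    linarith
  obtain ⟨δ', hδ', hsm⟩ := small_den (b := b) (by omega) (A1 := A1 + 2) (by linarith)
  refine ⟨min δ' δ1, lt_min hδ' hδ0, min_le_right _ _, ?_⟩
  intro C hC
  obtain ⟨C', hC', hbig'⟩ := hbig C hC
  obtain ⟨C1, hC1, hτ1⟩ := divisor_bound (ε / 4) (by positivity)
  have hτ1' : ∀ n : ℕ, 1 ≤ n → (n.divisors.card : ℝ) ^ 2 ≤ C1 ^ 2 * (n : ℝ) ^ (ε / 2) := by
    intro n hn
    have h1 := hτ1 n hn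
    have h2 : ((n : ℝ) ^ (ε / 4)) ^ 2 = (n : ℝ) ^ (ε / 2) := by
      rw [← Real.rpow_natCast, ← Real.rpow_mul (by positivity)]
      congr 1
      push_cast
      ring
    calc (n.divisors.card : ℝ) ^ 2 ≤ (C1 * (n : ℝ) ^ (ε / 4)) ^ 2 :=
          pow_le_pow_left₀ (by positivity) h1 2
      _ = _ := by rw [mul_pow, h2]
  obtain ⟨P0, hP0⟩ := exists_nat_ge (3 * A1)
  have hsm' := hsm C hC (A + 3 + P0)
  have hLB : ∀ᶠ L : ℕ in atTop, 2 * Real.log b ≤ (L : ℝ) :=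
    tendsto_natCast_atTop_atTop.eventually_ge_atTop _
  have hLC : ∀ᶠ L : ℕ in atTop, C1 ^ 2 * 2 ^ (ε / 2) * C' * 1 ≤ (L : ℝ) :=
    tendsto_natCast_atTop_atTop.eventually_ge_atTop _
  have hlog : Tendsto (fun L : ℕ => Real.log (L : ℝ)) atTop atTop :=
    Real.tendsto_log_atTop.comp tendsto_natCast_atTop_atTop
  filter_upwards [hsm', hLB, hLC, hlog.eventually_ge_atTop 1, eventually_ge_atTop 4] with L k1 k2 k3 k4 k5 φ hφ
  have hφ' : Sp φ δ' C := Sp_mono (min_le_left _ _) hφ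
  have hφ1 : Sp φ δ1 C := Sp_mono (min_le_right _ _) hφ
  set D : ℕ := ⌊(b : ℝ) ^ (κ * L)⌋₊ with hD
  have hLp : (4 : ℝ) ≤ L := by exact_mod_cast k5
  have hL0 : (0 : ℝ) < L := by linarith
  have hg : ∀ q : ℕ, 0 ≤ (q.divisors.card : ℝ) ^ 2 * U φ L q / q := fun q =>
    div_nonneg (mul_nonneg (by positivity) (U_nonneg φ L q)) (Nat.cast_nonneg q)
  refine (cover (2 * b) D _ hg).trans ?_
  have hDr : (D : ℝ) ≤ (b : ℝ) ^ (κ * L) := Nat.floor_le (by positivity)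
  have hterm : ∀ j ∈ Icc 1 (Nat.log 2 D),
      ∑ q ∈ (Ico (2 ^ j) (2 * 2 ^ j)).filter (fun q => q.Coprime (2 * b)),
        (q.divisors.card : ℝ) ^ 2 * U φ L q / q ≤ 1 / (L : ℝ) ^ (A + 2) := by
    intro j hj
    rw [mem_Icc] at hj
    have hD0 : D ≠ 0 := by
      intro h0
      rw [h0] at hj
      simp at hj
      omega
    have hjD : (2 : ℝ) ^ j ≤ (b : ℝ) ^ (κ * L) := by
      have e1 : 2 ^ j ≤ D :=
        (Nat.pow_le_pow_right (by norm_num) hj.2).trans (Nat.pow_log_le_self 2 hD0)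
      have e2 : (2 : ℝ) ^ j ≤ D := by exact_mod_cast e1
      exact e2.trans hDr
    rcases le_or_gt (j : ℝ) (A1 * Real.log L) with h | h
    · -- small denominators
      have h2 : ((j + 1 : ℕ) : ℝ) ≤ (A1 + 2) * Real.log L := by
        push_cast
        nlinarith
      refine (block_small φ L j hj.1 (1 / (L : ℝ) ^ (A + 3 + P0)) (by positivity) ?_).trans ?_
      · intro q a hq1 hq ha hqj
        exact k1 s t ht φ hφ' (j + 1) h2 q a hq1 hq ha (hqj.trans_le (Nat.pow_le_pow_left (by omega) _))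
      · have h3 : (2 : ℝ) ^ (3 * j + 2) ≤ 4 * (L : ℝ) ^ P0 := by
          have h4 : (2 : ℝ) ^ (3 * j) ≤ (L : ℝ) ^ P0 := by
            rw [← Real.log_le_log_iff (by positivity) (by positivity), Real.log_pow, Real.log_pow]
            push_cast
            have h5 : Real.log 2 ≤ 1 := by
              have := Real.log_two_lt_d9
              linarith
            calc 3 * (j : ℝ) * Real.log 2 ≤ 3 * (j : ℝ) * 1 := mul_le_mul_of_nonneg_left h5 (by positivity)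
              _ ≤ 3 * (A1 * Real.log L) := by linarith
              _ ≤ P0 * Real.log L := by
                  have : 3 * (A1 * Real.log L) = 3 * A1 * Real.log L := by ring
                  rw [this]
                  exact mul_le_mul_of_nonneg_right hP0 (by linarith)
          calc (2 : ℝ) ^ (3 * j + 2) = 4 * (2 : ℝ) ^ (3 * j) := by rw [pow_add]; ring
            _ ≤ _ := by linarith
        calc (2 : ℝ) ^ (3 * j + 2) * (1 / (L : ℝ) ^ (A + 3 + P0)) ≤ 4 * (L : ℝ) ^ P0 * (1 / (L : ℝ) ^ (A + 3 + P0)) :=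
              mul_le_mul_of_nonneg_right h3 (by positivity)
          _ = 4 / L * (1 / (L : ℝ) ^ (A + 2)) := by
              rw [show A + 3 + P0 = A + 2 + 1 + P0 by ring, pow_add _ _ P0, pow_add _ (A + 2) 1, pow_one]
              field_simp
          _ ≤ 1 * (1 / (L : ℝ) ^ (A + 2)) := by
              apply mul_le_mul_of_nonneg_right _ (by positivity)
              rw [div_le_one hL0]
              exact hLp
          _ = _ := one_mul _
    · -- large denominators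
      set Q : ℕ := 2 ^ j with hQ
      have hQ1 : 1 ≤ Q := Nat.one_le_two_pow
      have hQ0 : (0 : ℝ) < Q := by exact_mod_cast hQ1
      have hQr : (Q : ℝ) = 2 ^ j := by rw [hQ]; push_cast; ring
      have hpts := hbig' φ hφ1 L Q hQ1 (by rw [hQr]; exact hjD)
      refine (block φ L Q hQ1 (ε / 2) (C1 ^ 2) (by positivity) (by positivity) hτ1').trans ?_
      have hpos : 0 ≤ C1 ^ 2 * (2 * Q : ℝ) ^ (ε / 2) / Q := by positivity
      refine (mul_le_mul_of_nonneg_left hpts hpos).trans ?_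
      have h1 : C1 ^ 2 * (2 * Q : ℝ) ^ (ε / 2) / Q * (C' * (Q : ℝ) ^ (1 - ε)) =
          C1 ^ 2 * 2 ^ (ε / 2) * C' * (Q : ℝ) ^ (-(ε / 2)) := by
        have h2 : (Q : ℝ) ^ (ε / 2) * (Q : ℝ) ^ (1 - ε) = (Q : ℝ) ^ (-(ε / 2)) * Q := by
          rw [← Real.rpow_add hQ0, ← Real.rpow_add_one hQ0.ne']
          congr 1
          ring
        rw [Real.mul_rpow (by norm_num) hQ0.le]
        calc C1 ^ 2 * (2 ^ (ε / 2) * (Q : ℝ) ^ (ε / 2)) / Q * (C' * (Q : ℝ) ^ (1 - ε))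
            = C1 ^ 2 * 2 ^ (ε / 2) * C' * ((Q : ℝ) ^ (ε / 2) * (Q : ℝ) ^ (1 - ε)) / Q := by ring
          _ = C1 ^ 2 * 2 ^ (ε / 2) * C' * ((Q : ℝ) ^ (-(ε / 2)) * Q) / Q := by rw [h2]
          _ = _ := by field_simp
      rw [h1]
      have h3 : (Q : ℝ) ^ (-(ε / 2)) ≤ 1 / (L : ℝ) ^ (A + 3) := by
        have h4 : 1 / (L : ℝ) ^ (A + 3) = Real.exp (-((A + 3 : ℕ) * Real.log L)) := by
          rw [Real.exp_neg, mul_comm, Real.exp_mul, Real.exp_log hL0, one_div, Real.rpow_natCast]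
        rw [h4, Real.rpow_def_of_pos hQ0, hQr, Real.log_pow]
        apply Real.exp_le_exp.2
        push_cast
        have h5 : A1 * Real.log L * (ε * Real.log 2 / 2) ≤ j * (ε * Real.log 2 / 2) :=
          mul_le_mul_of_nonneg_right h.le (by positivity)
        have h6 : A1 * Real.log L * (ε * Real.log 2 / 2) =
            (A + 3) * Real.log L + Real.log L * (ε * Real.log 2 / 2) := by
          rw [hA1]
          field_simp
        have h7 : 0 ≤ Real.log L * (ε * Real.log 2 / 2) := by positivity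
        linarith
      calc C1 ^ 2 * 2 ^ (ε / 2) * C' * (Q : ℝ) ^ (-(ε / 2)) ≤ L * (1 / (L : ℝ) ^ (A + 3)) := by
            apply mul_le_mul _ h3 (by positivity) hL0.le
            linarith
        _ = 1 / (L : ℝ) ^ (A + 2) := by
            rw [show A + 3 = (A + 2) + 1 by ring, pow_succ]
            field_simp
  refine (sum_le_sum hterm).trans ?_
  rw [sum_const, nsmul_eq_mul, Nat.card_Icc, Nat.add_sub_cancel]
  have hlog : (Nat.log 2 D : ℝ) ≤ L * (2 * Real.log b) := by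
    rcases Nat.eq_zero_or_pos D with h0 | h0
    · rw [h0]; simp; positivity
    have e1 : 2 ^ Nat.log 2 D ≤ D := Nat.pow_log_le_self 2 h0.ne'
    have e2 : (2 : ℝ) ^ Nat.log 2 D ≤ (b : ℝ) ^ (κ * L) := by
      have : (2 : ℝ) ^ Nat.log 2 D ≤ D := by exact_mod_cast e1
      exact this.trans hDr
    have e3 := Real.log_le_log (by positivity) e2
    rw [Real.log_pow, Real.log_rpow (by linarith)] at e3
    have e5 : κ * L * Real.log b ≤ 1 * L * Real.log b := by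
      apply mul_le_mul_of_nonneg_right _ hBl.le
      apply mul_le_mul_of_nonneg_right h1.le (by linarith)
    have e6 : 1 * (L : ℝ) * Real.log b ≤ L * (2 * Real.log b) * Real.log 2 := by
      have : 0 ≤ (L : ℝ) * Real.log b := by positivity
      nlinarith
    exact le_of_mul_le_mul_right (e3.trans (e5.trans e6)) (by linarith)
  calc (Nat.log 2 D : ℝ) * (1 / (L : ℝ) ^ (A + 2)) ≤ L * (2 * Real.log b) * (1 / (L : ℝ) ^ (A + 2)) :=
        mul_le_mul_of_nonneg_right hlog (by positivity)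
    _ ≤ 1 / (L : ℝ) ^ A := by
        rw [mul_one_div, div_le_div_iff₀ (by positivity) (by positivity), one_mul, pow_add]
        have h0 : 0 < (L : ℝ) ^ A := by positivity
        have : (L : ℝ) * (2 * Real.log b) ≤ L ^ 2 := by nlinarith
        nlinarith

/-- level of distribution, uniform in the digit sets and in the residue classes -/
theorem BVR {b s t : ℕ} (hb : 3 ≤ b) (hs : 1 ≤ s) (ht : 1 ≤ t) (hst : s + t ≤ b + 1) {κ δ1 : ℝ} (hδ0 : 0 < δ1)
    (hδ1' : δ1 < 1) (hr : (b : ℝ) * (mu s) ^ (1 - δ1) < 1) (hκ0 : 0 < κ) (hκ1 : κ < 1)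
    (hκH : (b : ℝ) ^ κ * (HH s t) ^ (1 - δ1) < 1) (A : ℕ) :
    ∃ δ : ℝ, 0 < δ ∧ δ ≤ δ1 ∧ ∀ C : ℝ, 0 ≤ C → ∀ᶠ L : ℕ in atTop, ∀ φ : Fam b s t, Sp φ δ C → ∀ h : ℕ → ℕ,
    ∑ q ∈ (Icc 1 ⌊(b : ℝ) ^ (κ * L)⌋₊).filter (fun q => q.Coprime (2 * b)),
      (q.divisors.card : ℝ) ^ 2 * |cntR φ L q (h q) - ((s : ℝ) * t) ^ L / q| ≤ ((s : ℝ) * t) ^ L / (L : ℝ) ^ A := by
  have hb0 : 0 < b := by omega
  have hbr : (0 : ℝ) < b := by exact_mod_cast hb0
  have hb1 : (1 : ℝ) ≤ b := by exact_mod_cast hb0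
  obtain ⟨δ, hδ, hδδ, hU⟩ := U_sum hb hs ht hst hδ0 hδ1' hr hκ0 hκ1 hκH (A + 5)
  refine ⟨δ, hδ, hδδ, ?_⟩
  intro C hC
  filter_upwards [hU C hC, eventually_ge_atTop ((b + 1) ^ 4)] with L hL' hLb φ hφ h
  have hL := hL' φ hφ
  set D := ⌊(b : ℝ) ^ (κ * L)⌋₊ with hD
  have hLb' : ((b : ℝ) + 1) ^ 4 ≤ L := by exact_mod_cast hLb
  have hL1 : (1 : ℝ) ≤ L := by
    have : (1 : ℝ) ≤ ((b : ℝ) + 1) ^ 4 := one_le_pow₀ (by linarith)
    linarith
  have hL0 : (0 : ℝ) < L := by linarith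
  have h1 : ∑ q ∈ (Icc 1 D).filter (fun q => q.Coprime (2 * b)),
      (q.divisors.card : ℝ) ^ 2 * |cntR φ L q (h q) - ((s : ℝ) * t) ^ L / q| ≤
      ∑ q ∈ (Icc 1 D).filter (fun q => q.Coprime (2 * b)),
      (q.divisors.card : ℝ) ^ 2 *
        (((s : ℝ) * t) ^ L / q * ∑ d ∈ q.divisors.filter (fun d => 1 < d), U φ L d) := by
    refine sum_le_sum fun q hq => ?_
    rw [mem_filter] at hq
    exact mul_le_mul_of_nonneg_left (cntR_bound φ ht L q (h q) hq.2) (by positivity)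
  have h2 := h1.trans (double (U φ L) (U_nonneg φ L) (((s : ℝ) * t) ^ L) (by positivity) b D)
  have h3 := Pool.Agent.H316R2.tau_sq_sum_le D
  have hlog : 1 + Real.log D ≤ (b + 1) * L := by
    rcases Nat.eq_zero_or_pos D with h0 | h0
    · rw [h0]
      simp only [Nat.cast_zero, Real.log_zero, add_zero]
      nlinarith
    · have hDle : (D : ℝ) ≤ (b : ℝ) ^ (κ * L) := Nat.floor_le (by positivity)
      have hDle2 : (D : ℝ) ≤ (b : ℝ) ^ ((1 : ℝ) * L) := by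
        refine hDle.trans (Real.rpow_le_rpow_of_exponent_le hb1 ?_)
        exact mul_le_mul_of_nonneg_right hκ1.le hL0.le
      have h4 : Real.log D ≤ (1 * L) * Real.log b := by
        rw [← Real.log_rpow hbr]
        exact Real.log_le_log (by exact_mod_cast h0) hDle2
      have h5 : Real.log b ≤ b - 1 := Real.log_le_sub_one_of_pos hbr
      have h6 : (1 * L) * Real.log b ≤ (1 * L) * ((b : ℝ) - 1) :=
        mul_le_mul_of_nonneg_left h5 (by positivity)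
      nlinarith [mul_pos hbr hL0]
  have hlog0 : 0 ≤ 1 + Real.log D := by
    have := Real.log_natCast_nonneg D
    linarith
  have h4 : ∑ e ∈ Icc 1 D, (e.divisors.card : ℝ) ^ 2 / e ≤ ((b : ℝ) + 1) ^ 4 * (L : ℝ) ^ 4 := by
    refine h3.trans ?_
    calc (1 + Real.log D) ^ 4 ≤ (((b : ℝ) + 1) * (L : ℝ)) ^ 4 := by gcongr
      _ = ((b : ℝ) + 1) ^ 4 * (L : ℝ) ^ 4 := by ring
  refine h2.trans ?_
  have hS0 : 0 ≤ ∑ e ∈ Icc 1 D, (e.divisors.card : ℝ) ^ 2 / e :=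
    sum_nonneg fun _ _ => by positivity
  calc ((s : ℝ) * t) ^ L * ((∑ d ∈ (Icc 2 D).filter (fun q => q.Coprime (2 * b)),
      (d.divisors.card : ℝ) ^ 2 * U φ L d / d) *
        ∑ e ∈ Icc 1 D, (e.divisors.card : ℝ) ^ 2 / e)
      ≤ ((s : ℝ) * t) ^ L * ((1 / (L : ℝ) ^ (A + 5)) * (((b : ℝ) + 1) ^ 4 * (L : ℝ) ^ 4)) :=
        mul_le_mul_of_nonneg_left (mul_le_mul hL h4 hS0 (by positivity)) (by positivity)
    _ ≤ ((s : ℝ) * t) ^ L / (L : ℝ) ^ A := by
        generalize ((b : ℝ) + 1) ^ 4 = B at hLb'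
        have h5 : (1 / (L : ℝ) ^ (A + 5)) * (B * (L : ℝ) ^ 4) = B / L * (1 / (L : ℝ) ^ A) := by
          have hy : ((L : ℝ) ^ A) ≠ 0 := by positivity
          have hx : (L : ℝ) ≠ 0 := hL0.ne'
          rw [pow_add]
          generalize (L : ℝ) ^ A = y at hy
          generalize (L : ℝ) = x at hx
          field_simp
        rw [h5]
        have h6 : B / (L : ℝ) ≤ 1 := by rw [div_le_one hL0]; exact hLb'
        have h7 : (0 : ℝ) < 1 / (L : ℝ) ^ A := by positivity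
        calc ((s : ℝ) * t) ^ L * (B / L * (1 / (L : ℝ) ^ A))
            ≤ ((s : ℝ) * t) ^ L * (1 * (1 / (L : ℝ) ^ A)) := by gcongr
          _ = _ := by ring

end Pool.Agent.V7H16.GD
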