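import Mathlib
import Pool.Agent.R471.RD.Defs
import Pool.Agent.R471.RD.Big

/-!
Palindromes whose digits lie in arbitrary sets which depend on the place: definitions.

At the distance `c + 1` from the middle the digit is `σ c i + j`, `i < s`, `j < t`, if the place is free (`A c`),
and is fixed otherwise.
-/

set_option autoImplicit false

namespace Pool.Agent.V7H16.GD

open Finset Filter Topology Pool.Agent.Helper112
open Pool.Agent.H39R3.PB (ph pts apts ph_nonneg ph_le_one ph_add_int pts_nonneg pts_mono dilate coprime_b)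
open Pool.Agent.W89.PW (fr HH)

/-- the digits allowed at the free places -/
structure Fam (b s t : ℕ) where
  A : ℕ → Bool
  σ : ℕ → Fin s → ℕ
  inj : ∀ c, Function.Injective (σ c)
  le : ∀ c i, σ c i + t ≤ b
  cons : ∀ c, ∃ i i' : Fin s, σ c i' = σ c i + 1

variable {b s t : ℕ}

/-- the exponential sum of a digit set -/
noncomputable def SS (φ : Fam b s t) (c : ℕ) (x : ℝ) : ℂ := ∑ i : Fin s, ee ((φ.σ c i : ℝ) * x)

noncomputable def hs (φ : Fam b s t) (c : ℕ) (x : ℝ) : ℝ := ‖SS φ c x‖ / s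

noncomputable def pf (φ : Fam b s t) (c : ℕ) (x : ℝ) : ℝ := if φ.A c = true then hs φ c x * ph t x else 1

noncomputable def qf (φ : Fam b s t) (c : ℕ) (x : ℝ) : ℝ := if φ.A c = true then hs φ c x else 1

noncomputable def gf (φ : Fam b s t) (c : ℕ) (x : ℝ) : ℝ :=
  if φ.A c = true then (hs φ c x ^ 2 + ph t x ^ 2) / 2 else 1

noncomputable def FF (φ : Fam b s t) (L J : ℕ) (α : ℝ) : ℝ := ∏ c ∈ range J, pf φ c (fr b L c * α)

noncomputable def QF (φ : Fam b s t) (L J : ℕ) (α : ℝ) : ℝ := ∏ c ∈ range J, qf φ c (fr b L c * α)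

/-- number of free places among `0, …, J - 1` -/
def fc (φ : Fam b s t) (J : ℕ) : ℕ := ((range J).filter (fun c => φ.A c = true)).card

/-- number of fixed places among `0, …, J - 1` -/
def nf (φ : Fam b s t) (J : ℕ) : ℕ := ((range J).filter (fun c => ¬ φ.A c = true)).card

/-- the fixed places are sparse -/
def Sp (φ : Fam b s t) (δ C : ℝ) : Prop := ∀ J : ℕ, (nf φ J : ℝ) ≤ δ * J + C

/-- the part of the palindrome which depends on the digits at the free places -/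
def pvG (φ : Fam b s t) (L : ℕ) (m : Fin L → Fin s × Fin t) : ℕ :=
  ∑ c : Fin L, if φ.A c = true then (φ.σ c (m c).1 + ((m c).2 : ℕ)) * fr b L c else 0

lemma fc_add_nf (φ : Fam b s t) (J : ℕ) : fc φ J + nf φ J = J := by
  unfold fc nf
  rw [card_filter_add_card_filter_not, card_range]

lemma hs_nonneg (φ : Fam b s t) (c : ℕ) (x : ℝ) : 0 ≤ hs φ c x := by unfold hs; positivity

lemma s_pos (φ : Fam b s t) : 0 < s := by
  obtain ⟨i, -, -⟩ := φ.cons 0
  exact i.pos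

lemma s_two (φ : Fam b s t) : 2 ≤ s := by
  obtain ⟨i, i', h⟩ := φ.cons 0
  have h1 := i.is_lt
  have h2 := i'.is_lt
  by_contra hcon
  have h3 : i = i' := Fin.ext (by omega)
  rw [h3] at h
  omega

lemma hs_le_one (φ : Fam b s t) (c : ℕ) (x : ℝ) : hs φ c x ≤ 1 := by
  have h0 : (0 : ℝ) < s := by exact_mod_cast s_pos φ
  unfold hs SS
  rw [div_le_one h0]
  calc ‖∑ i : Fin s, ee ((φ.σ c i : ℝ) * x)‖ ≤ ∑ i : Fin s, ‖ee ((φ.σ c i : ℝ) * x)‖ := norm_sum_le _ _
    _ = s := by simp [ls_norm_ee]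

lemma SS_add_int (φ : Fam b s t) (c : ℕ) (x : ℝ) (k : ℤ) : SS φ c (x + k) = SS φ c x := by
  unfold SS
  apply sum_congr rfl
  intro i _
  have : ((φ.σ c i : ℝ) * (x + k)) = φ.σ c i * x + ((φ.σ c i * k : ℤ) : ℝ) := by push_cast; ring
  rw [this, ls_ee_add, ls_ee_int, mul_one]

lemma hs_add_int (φ : Fam b s t) (c : ℕ) (x : ℝ) (k : ℤ) : hs φ c (x + k) = hs φ c x := by
  unfold hs
  rw [SS_add_int]

lemma pf_nonneg (φ : Fam b s t) (c : ℕ) (x : ℝ) : 0 ≤ pf φ c x := by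
  unfold pf
  split_ifs
  · exact mul_nonneg (hs_nonneg _ _ _) (ph_nonneg _ _)
  · norm_num

lemma pf_le_one (φ : Fam b s t) (c : ℕ) (x : ℝ) : pf φ c x ≤ 1 := by
  unfold pf
  split_ifs
  · exact mul_le_one₀ (hs_le_one _ _ _) (ph_nonneg _ _) (ph_le_one _ _)
  · exact le_rfl

lemma qf_nonneg (φ : Fam b s t) (c : ℕ) (x : ℝ) : 0 ≤ qf φ c x := by
  unfold qf
  split_ifs
  · exact hs_nonneg _ _ _
  · norm_num

lemma qf_le_one (φ : Fam b s t) (c : ℕ) (x : ℝ) : qf φ c x ≤ 1 := by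
  unfold qf
  split_ifs
  · exact hs_le_one _ _ _
  · exact le_rfl

lemma pf_le_qf (φ : Fam b s t) (c : ℕ) (x : ℝ) : pf φ c x ≤ qf φ c x := by
  unfold pf qf
  split_ifs
  · exact mul_le_of_le_one_right (hs_nonneg _ _ _) (ph_le_one _ _)
  · exact le_rfl

lemma gf_nonneg (φ : Fam b s t) (c : ℕ) (x : ℝ) : 0 ≤ gf φ c x := by
  unfold gf
  split_ifs
  · positivity
  · norm_num

lemma pf_le_gf (φ : Fam b s t) (c : ℕ) (x : ℝ) : pf φ c x ≤ gf φ c x := by
  unfold pf gf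
  split_ifs
  · nlinarith [sq_nonneg (hs φ c x - ph t x)]
  · exact le_rfl

lemma pf_add_int (φ : Fam b s t) (c : ℕ) (x : ℝ) (k : ℤ) : pf φ c (x + k) = pf φ c x := by
  unfold pf
  rw [hs_add_int, ph_add_int]

lemma qf_add_int (φ : Fam b s t) (c : ℕ) (x : ℝ) (k : ℤ) : qf φ c (x + k) = qf φ c x := by
  unfold qf
  rw [hs_add_int]

lemma FF_nonneg (φ : Fam b s t) (L J : ℕ) (α : ℝ) : 0 ≤ FF φ L J α := prod_nonneg fun _ _ => pf_nonneg _ _ _

lemma FF_le_one (φ : Fam b s t) (L J : ℕ) (α : ℝ) : FF φ L J α ≤ 1 :=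
  prod_le_one (fun _ _ => pf_nonneg _ _ _) (fun _ _ => pf_le_one _ _ _)

lemma QF_nonneg (φ : Fam b s t) (L J : ℕ) (α : ℝ) : 0 ≤ QF φ L J α := prod_nonneg fun _ _ => qf_nonneg _ _ _

lemma FF_le_QF (φ : Fam b s t) (L J : ℕ) (α : ℝ) : FF φ L J α ≤ QF φ L J α :=
  prod_le_prod (fun _ _ => pf_nonneg _ _ _) (fun _ _ => pf_le_qf _ _ _)

lemma FF_mono (φ : Fam b s t) (L : ℕ) {J M : ℕ} (h : J ≤ M) (α : ℝ) : FF φ L M α ≤ FF φ L J α := by
  obtain ⟨K, rfl⟩ := Nat.exists_eq_add_of_le h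
  unfold FF
  rw [prod_range_add]
  exact mul_le_of_le_one_right (prod_nonneg fun _ _ => pf_nonneg _ _ _)
    (prod_le_one (fun _ _ => pf_nonneg _ _ _) (fun _ _ => pf_le_one _ _ _))

lemma arg_add (b L j : ℕ) (α : ℝ) (k : ℤ) :
    (fr b L j : ℝ) * (α + k) = fr b L j * α + ((fr b L j * k : ℤ) : ℝ) := by push_cast; ring

lemma FF_add_int (φ : Fam b s t) (L J : ℕ) (α : ℝ) (k : ℤ) : FF φ L J (α + k) = FF φ L J α := by
  unfold FF
  apply prod_congr rfl
  intro j _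
  rw [arg_add, pf_add_int]

lemma QF_add_int (φ : Fam b s t) (L J : ℕ) (α : ℝ) (k : ℤ) : QF φ L J (α + k) = QF φ L J α := by
  unfold QF
  apply prod_congr rfl
  intro j _
  rw [arg_add, qf_add_int]

lemma arg_scale {L M j : ℕ} (hM : M ≤ L) (hj : j ≤ M) (x : ℝ) :
    (fr b L j : ℝ) * x = fr b M j * ((b : ℝ) ^ (L - M) * x) := by
  rw [Pool.Agent.R471.RD.Big.fr_scale' hM hj]
  push_cast
  ring

lemma QF_scale (φ : Fam b s t) {L M J : ℕ} (hM : M ≤ L) (hJ : J ≤ M + 1) (x : ℝ) :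
    QF φ L J x = QF φ M J ((b : ℝ) ^ (L - M) * x) := by
  unfold QF
  apply prod_congr rfl
  intro j hj
  rw [mem_range] at hj
  rw [arg_scale hM (by omega)]

lemma FF_scale (φ : Fam b s t) {L M : ℕ} (hM : M ≤ L) (x : ℝ) :
    FF φ L M x = FF φ M M ((b : ℝ) ^ (L - M) * x) := by
  unfold FF
  apply prod_congr rfl
  intro j hj
  rw [mem_range] at hj
  rw [arg_scale hM (by omega)]

/-- replacing `L` by a smaller `M` -/
lemma pts_shrink (φ : Fam b s t) {L M : ℕ} (hM : M ≤ L) (Q : ℕ) :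
    pts b Q (FF φ L L) ≤ pts b Q (FF φ M M) := by
  calc pts b Q (FF φ L L) ≤ pts b Q (FF φ L M) := pts_mono (FF_mono φ L hM)
    _ = pts b Q (fun α => FF φ M M ((b : ℝ) ^ (L - M) * α)) := by
        congr 1
        funext α
        exact FF_scale φ hM α
    _ = pts b Q (FF φ M M) := by
        unfold pts
        apply sum_congr rfl
        intro q hq
        rw [mem_filter] at hq
        exact dilate (coprime_b hq.2) (L - M) (FF φ M M) (FF_add_int φ M M)

end Pool.Agent.V7H16.GD
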