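import Pool.Agent.V7H16.GD.Defs
import Pool.Agent.R471.RD.G

/-!
Complete sums of products of the positive definite majorant, for arbitrary digit sets
(after `Pool.Agent.R471.RD.G`).
-/

set_option autoImplicit false

namespace Pool.Agent.V7H16.GD

open Finset Pool.Agent.Helper112
open Pool.Agent.W89.PW (fr fr_eq HH)
open Pool.Agent.H39R3.PB (ph pts apts)
open Pool.Agent.H39R3.PS (EM)
open Pool.Agent.R471.RD.G (Om wt wt_nonneg wt_sum ph_sq ee_sum sum_fr T_nonneg)

variable {b s t : ℕ}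

/-- frequency -/
def zf (φ : Fam b s t) (c : ℕ) (w : Om s t) : ℤ :=
  if φ.A c = true then (match w with
    | Sum.inl p => (φ.σ c p.1 : ℤ) - (φ.σ c p.2 : ℤ)
    | Sum.inr p => ((p.1 : ℕ) : ℤ) - ((p.2 : ℕ) : ℤ)) else 0

lemma zf_inl (φ : Fam b s t) (c : ℕ) (h : φ.A c = true) (p : Fin s × Fin s) :
    zf φ c (Sum.inl p) = (φ.σ c p.1 : ℤ) - (φ.σ c p.2 : ℤ) := by
  unfold zf
  rw [if_pos h]

lemma zf_inr (φ : Fam b s t) (c : ℕ) (h : φ.A c = true) (p : Fin t × Fin t) :
    zf φ c (Sum.inr p) = ((p.1 : ℕ) : ℤ) - ((p.2 : ℕ) : ℤ) := by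
  unfold zf
  rw [if_pos h]

lemma hs_sq (φ : Fam b s t) (c : ℕ) (x : ℝ) :
    ((hs φ c x ^ 2 : ℝ) : ℂ) = ∑ p : Fin s × Fin s, ((1 / (s : ℝ) ^ 2 : ℝ) : ℂ) *
      ee (((φ.σ c p.1 : ℝ) - (φ.σ c p.2 : ℝ)) * x) := by
  have h1 : ((‖SS φ c x‖ ^ 2 : ℝ) : ℂ) = SS φ c x * (starRingEnd ℂ) (SS φ c x) := by
    rw [Complex.mul_conj, Complex.normSq_eq_norm_sq]
  unfold hs
  rw [div_pow, Complex.ofReal_div, h1, ← mul_sum, Fintype.sum_prod_type]
  unfold SS
  rw [map_sum, sum_mul_sum]
  rw [div_eq_mul_inv, mul_comm]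
  congr 1
  · push_cast
    rw [one_div]
  · apply sum_congr rfl
    intro i _
    apply sum_congr rfl
    intro j _
    rw [ls_conj_ee, ← ls_ee_add]
    congr 1
    ring

lemma gf_eq (φ : Fam b s t) (ht : 1 ≤ t) (c : ℕ) (x : ℝ) :
    ((gf φ c x : ℝ) : ℂ) = ∑ w : Om s t, ((wt w : ℝ) : ℂ) * ee ((zf φ c w : ℝ) * x) := by
  by_cases h : φ.A c = true
  · unfold gf
    rw [if_pos h, Fintype.sum_sum_type, Complex.ofReal_div, Complex.ofReal_add, hs_sq, ph_sq, add_div]
    congr 1
    · rw [sum_div]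
      apply sum_congr rfl
      intro p _
      rw [zf_inl φ c h]
      unfold wt
      push_cast
      ring
    · rw [sum_div]
      apply sum_congr rfl
      intro p _
      rw [zf_inr φ c h]
      unfold wt
      push_cast
      ring
  · unfold gf
    rw [if_neg h]
    have h1 : ∀ w : Om s t, zf φ c w = 0 := fun w => by unfold zf; rw [if_neg h]
    simp only [h1, Int.cast_zero, zero_mul, ls_ee_zero, mul_one]
    rw [← Complex.ofReal_sum, wt_sum (s_pos φ) ht]

noncomputable def Hc (φ : Fam b s t) (c : ℕ) : ℝ := if φ.A c = true then HH s t else 1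

lemma wt_zf (φ : Fam b s t) (ht : 1 ≤ t) (c : ℕ) :
    ∑ w : Om s t, (if zf φ c w = 0 then wt w else 0) = Hc φ c := by
  have hs := s_pos φ
  unfold Hc
  split_ifs with h
  · rw [← Pool.Agent.R471.RD.G.wt_zero (s := s) (t := t) hs ht]
    apply sum_congr rfl
    intro w _
    have : zf φ c w = 0 ↔ Pool.Agent.R471.RD.G.zt w = 0 := by
      rcases w with p | p
      · rw [zf_inl φ c h]
        change _ ↔ ((p.1 : ℕ) : ℤ) - ((p.2 : ℕ) : ℤ) = 0
        constructor
        · intro h1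
          have h2 : φ.σ c p.1 = φ.σ c p.2 := by omega
          have h3 := φ.inj c h2
          rw [h3]; ring
        · intro h1
          have h2 : p.1 = p.2 := Fin.ext (by omega)
          rw [h2]; ring
      · rw [zf_inr φ c h]
        rfl
    by_cases h0 : zf φ c w = 0
    · rw [if_pos h0, if_pos (this.1 h0)]
    · rw [if_neg h0, if_neg (fun h1 => h0 (this.2 h1))]
  · have h1 : ∀ w : Om s t, zf φ c w = 0 := fun w => by unfold zf; rw [if_neg h]
    simp only [h1, if_true]
    exact wt_sum hs ht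

lemma zf_le (φ : Fam b s t) (ht : 1 ≤ t) (c : ℕ) (w : Om s t) : |zf φ c w| ≤ (b : ℤ) - 1 := by
  have hs := s_two φ
  have h0 := φ.le c ⟨0, by omega⟩
  by_cases h : φ.A c = true
  · rcases w with p | p
    · rw [zf_inl φ c h]
      have h1 := φ.le c p.1
      have h2 := φ.le c p.2
      rw [abs_le]
      omega
    · rw [zf_inr φ c h]
      have h1 := p.1.is_lt
      have h2 := p.2.is_lt
      rw [abs_le]
      omega
  · unfold zf
    rw [if_neg h, abs_zero]
    omega

/-- the integer attached to a choice of frequencies -/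
def NZ (φ : Fam b s t) (L : ℕ) {B : Finset ℕ} (w : B → Om s t) : ℤ :=
  ∑ c : B, zf φ c (w c) * (fr b L c : ℤ)

lemma prod_gf (φ : Fam b s t) (ht : 1 ≤ t) (L : ℕ) (B : Finset ℕ) (α : ℝ) :
    ((∏ c ∈ B, gf φ c (fr b L c * α) : ℝ) : ℂ) =
      ∑ w ∈ Fintype.piFinset (fun _ : B => (univ : Finset (Om s t))),
        ((∏ c : B, wt (w c) : ℝ) : ℂ) * ee ((NZ φ L w : ℝ) * α) := by
  rw [← prod_coe_sort B (fun c => gf φ c (fr b L c * α)), Complex.ofReal_prod]
  simp only [gf_eq φ ht]
  rw [prod_univ_sum]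
  apply sum_congr rfl
  intro w _
  rw [prod_mul_distrib, Complex.ofReal_prod, ← ee_sum]
  congr 2
  unfold NZ
  push_cast
  rw [sum_mul]
  apply sum_congr rfl
  intro c _
  ring

/-- exact formula for complete sums of products of the majorant -/
theorem G_core (φ : Fam b s t) (ht : 1 ≤ t) (L M : ℕ) (hM : 0 < M) (B : Finset ℕ) :
    ∑ a ∈ range M, ∏ c ∈ B, gf φ c (fr b L c * ((a : ℝ) / M)) =
      M * ∑ w ∈ Fintype.piFinset (fun _ : B => (univ : Finset (Om s t))),
        if (M : ℤ) ∣ NZ φ L w then ∏ c : B, wt (w c) else 0 := by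
  have h : ((∑ a ∈ range M, ∏ c ∈ B, gf φ c (fr b L c * ((a : ℝ) / M)) : ℝ) : ℂ) =
      ((M * ∑ w ∈ Fintype.piFinset (fun _ : B => (univ : Finset (Om s t))),
        (if (M : ℤ) ∣ NZ φ L w then ∏ c : B, wt (w c) else 0) : ℝ) : ℂ) := by
    rw [Complex.ofReal_sum]
    simp only [prod_gf φ ht]
    rw [sum_comm, Complex.ofReal_mul, Complex.ofReal_sum, mul_sum]
    apply sum_congr rfl
    intro w _
    rw [← mul_sum, Pool.Agent.H898R2.PalT2.sum_ee M hM (NZ φ L w)]
    split_ifs
    · rw [mul_comm, Complex.ofReal_natCast]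
    · simp
  exact_mod_cast h

lemma NZ_ne (φ : Fam b s t) (hb : 2 ≤ b) (ht : 1 ≤ t) {L : ℕ}
    {B : Finset ℕ} (hB : B ⊆ range L) (w : B → Om s t) (h : NZ φ L w = 0) (c : B) :
    zf φ c (w c) = 0 := by
  set z : ℕ → ℤ := fun d => if hd : 1 ≤ d ∧ d - 1 ∈ B then zf φ (d - 1) (w ⟨d - 1, hd.2⟩) else 0 with hz
  have h1 : ∑ d ∈ range (L + 1 + 1), z d * (Pool.Agent.H39R3.PB.fr b (L + 1) d : ℤ) = NZ φ L w := by
    rw [sum_range_succ']
    have hz0 : z 0 = 0 := by simp [hz]
    rw [hz0, zero_mul, add_zero, sum_range_succ]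
    have hzL : z (L + 1) = 0 := by
      simp only [hz]
      rw [dif_neg]
      rintro ⟨-, h2⟩
      have := mem_range.1 (hB h2)
      omega
    rw [hzL, zero_mul, add_zero]
    have h2 : NZ φ L w = ∑ c ∈ B, (if h : c ∈ B then zf φ c (w ⟨c, h⟩) else 0) * (fr b L c : ℤ) := by
      rw [← sum_coe_sort B]
      unfold NZ
      apply sum_congr rfl
      intro c _
      rw [dif_pos c.2]
    rw [h2]
    rw [sum_subset hB (f := fun c => (if h : c ∈ B then zf φ c (w ⟨c, h⟩) else 0) * (fr b L c : ℤ))]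
    · apply sum_congr rfl
      intro c _
      rw [fr_eq]
      congr 1
      simp only [hz]
      by_cases hc : c ∈ B
      · rw [dif_pos ⟨by omega, by simpa using hc⟩, dif_pos hc]
        rfl
      · rw [dif_neg, dif_neg hc]
        rintro ⟨-, h2⟩
        exact hc (by simpa using h2)
    · intro c _ hc
      rw [dif_neg hc, zero_mul]
  have h2 := Pool.Agent.H944R3.PB.digits_zero b hb (L + 1) z (fun d _ => by
    simp only [hz]
    split_ifs with hd
    · have := zf_le φ ht (d - 1) (w ⟨d - 1, hd.2⟩)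
      omega
    · simp
      omega) (by rw [h1, h])
  have hcL := mem_range.1 (hB c.2)
  have h3 := h2 ((c : ℕ) + 1) (by omega)
  simp only [hz] at h3
  rw [dif_pos ⟨by omega, by simp⟩] at h3
  have h4 : (⟨(c : ℕ) + 1 - 1, by simp⟩ : B) = c := by
    apply Subtype.ext
    simp
  rw [h4] at h3
  exact h3

lemma NZ_le (φ : Fam b s t) (hb : 2 ≤ b) (ht : 1 ≤ t) {L : ℕ}
    {B : Finset ℕ} (hB : B ⊆ range L) (w : B → Om s t) : (NZ φ L w).natAbs ≤ b ^ (2 * L + 2) := by
  have h1 : |NZ φ L w| ≤ ∑ c ∈ range L, ((b : ℤ) - 1) * (fr b L c : ℤ) := by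
    unfold NZ
    calc |∑ c : B, zf φ c (w c) * (fr b L c : ℤ)| ≤ ∑ c : B, |zf φ c (w c) * (fr b L c : ℤ)| :=
          abs_sum_le_sum_abs _ _
      _ ≤ ∑ c : B, ((b : ℤ) - 1) * (fr b L c : ℤ) := by
          apply sum_le_sum
          intro c _
          rw [abs_mul, Nat.abs_cast]
          exact mul_le_mul_of_nonneg_right (zf_le φ ht _ _) (by positivity)
      _ = ∑ c ∈ B, ((b : ℤ) - 1) * (fr b L c : ℤ) :=
          sum_coe_sort B (fun c => ((b : ℤ) - 1) * (fr b L c : ℤ))
      _ ≤ ∑ c ∈ range L, ((b : ℤ) - 1) * (fr b L c : ℤ) := by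
          apply sum_le_sum_of_subset_of_nonneg hB
          intro c _ _
          have : (0 : ℤ) ≤ (b : ℤ) - 1 := by omega
          positivity
  have h2 := sum_fr hb L L le_rfl
  have h3 : (∑ c ∈ range L, ((b : ℤ) - 1) * (fr b L c : ℤ)) =
      ((∑ c ∈ range L, (b - 1) * fr b L c : ℕ) : ℤ) := by
    push_cast
    apply sum_congr rfl
    intro c _
    rw [Nat.cast_sub (by omega)]
    push_cast
    ring
  rw [h3] at h1
  have h4 : b ^ (L + 1) ≤ b ^ (L + 2) := Nat.pow_le_pow_right (by omega) (by omega)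
  have h5 : L + L + 2 = 2 * L + 2 := by ring
  rw [h5] at h2
  have h6 : ((NZ φ L w).natAbs : ℤ) ≤ ((∑ c ∈ range L, (b - 1) * fr b L c : ℕ) : ℤ) := by
    rw [Int.natCast_natAbs]; exact h1
  have h7 : (NZ φ L w).natAbs ≤ ∑ c ∈ range L, (b - 1) * fr b L c := by exact_mod_cast h6
  omega

open Classical in
/-- total mass, split at the zero frequencies -/
lemma mass (φ : Fam b s t) (ht : 1 ≤ t) (B : Finset ℕ) (u v : ℝ) (hv : 0 ≤ v) :
    ∑ w ∈ Fintype.piFinset (fun _ : B => (univ : Finset (Om s t))),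
      (∏ c : B, wt (w c)) * (if ∀ c : B, zf φ c (w c) = 0 then u else v) ≤ u * ∏ c ∈ B, Hc φ c + v := by
  have h0 : ∀ w : B → Om s t, 0 ≤ ∏ c : B, wt (w c) := fun s => prod_nonneg fun _ _ => wt_nonneg _
  have h1 : ∑ w ∈ Fintype.piFinset (fun _ : B => (univ : Finset (Om s t))), ∏ c : B, wt (w c) = 1 := by
    rw [← prod_univ_sum (fun _ : B => (univ : Finset (Om s t))) (fun _ w => wt w)]
    simp only [wt_sum (s_pos φ) ht, prod_const_one]
  have h2 : ∑ w ∈ Fintype.piFinset (fun _ : B => (univ : Finset (Om s t))),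
      (∏ c : B, if zf φ c (w c) = 0 then wt (w c) else 0) = ∏ c ∈ B, Hc φ c := by
    rw [← prod_univ_sum (fun _ : B => (univ : Finset (Om s t))) (fun c w => if zf φ c w = 0 then wt w else 0)]
    simp only [wt_zf φ ht]
    exact prod_coe_sort B (fun c => Hc φ c)
  have h3 : ∀ w : B → Om s t, (∏ c : B, if zf φ c (w c) = 0 then wt (w c) else 0) =
      if ∀ c : B, zf φ c (w c) = 0 then ∏ c : B, wt (w c) else 0 := by
    intro w
    split_ifs with h
    · exact prod_congr rfl fun c _ => by rw [if_pos (h c)]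
    · push Not at h
      obtain ⟨c, hc⟩ := h
      exact prod_eq_zero (mem_univ c) (by rw [if_neg hc])
  simp only [h3] at h2
  calc ∑ w ∈ Fintype.piFinset (fun _ : B => (univ : Finset (Om s t))),
      (∏ c : B, wt (w c)) * (if ∀ c : B, zf φ c (w c) = 0 then u else v)
      ≤ ∑ w ∈ Fintype.piFinset (fun _ : B => (univ : Finset (Om s t))),
        (u * (if ∀ c : B, zf φ c (w c) = 0 then ∏ c : B, wt (w c) else 0) + v * ∏ c : B, wt (w c)) := by
        apply sum_le_sum
        intro w _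
        have := h0 w
        split_ifs
        · nlinarith [mul_nonneg hv this]
        · linarith [mul_comm (∏ c : B, wt (w c)) v]
    _ = u * ∏ c ∈ B, Hc φ c + v := by
        rw [sum_add_distrib, ← mul_sum, ← mul_sum, h1, mul_one, h2]

/-- TaskG: divisor bound -/
theorem mainG (φ : Fam b s t) (hb : 2 ≤ b) (ht : 1 ≤ t) (L Q : ℕ) (T : ℝ) (B : Finset ℕ) (hB : B ⊆ range L)
    (hT : ∀ n : ℕ, 1 ≤ n → n ≤ b ^ (2 * L + 2) → (n.divisors.card : ℝ) ≤ T) :
    apts b Q (fun α => ∏ c ∈ B, gf φ c (fr b L c * α)) ≤ 2 * Q * (Q * ∏ c ∈ B, Hc φ c + T) := by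
  classical
  rcases Nat.eq_zero_or_pos Q with hQ | hQ
  · subst hQ
    simp [apts]
  have hT0 := T_nonneg b L hb T hT
  unfold apts
  have h1 : ∑ q ∈ (Ico Q (2 * Q)).filter (fun q => q.Coprime (2 * b)),
      ∑ a ∈ range q, ∏ c ∈ B, gf φ c (fr b L c * ((a : ℝ) / q)) =
      ∑ w ∈ Fintype.piFinset (fun _ : B => (univ : Finset (Om s t))),
        (∏ c : B, wt (w c)) * ∑ q ∈ (Ico Q (2 * Q)).filter (fun q => q.Coprime (2 * b)),
          if (q : ℤ) ∣ NZ φ L w then (q : ℝ) else 0 := by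
    simp only [mul_sum]
    rw [sum_comm]
    apply sum_congr rfl
    intro q hq
    rw [mem_filter, mem_Ico] at hq
    rw [G_core φ ht L q (by omega) B, mul_sum]
    apply sum_congr rfl
    intro w _
    split_ifs <;> ring
  rw [h1]
  refine le_trans ?_ ((mass φ ht B (2 * Q * Q) (2 * Q * T) (by positivity)).trans (le_of_eq (by ring)))
  apply sum_le_sum
  intro w _
  apply mul_le_mul_of_nonneg_left _ (prod_nonneg fun _ _ => wt_nonneg _)
  split_ifs with h
  · calc ∑ q ∈ (Ico Q (2 * Q)).filter (fun q => q.Coprime (2 * b)),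
        (if (q : ℤ) ∣ NZ φ L w then (q : ℝ) else 0)
        ≤ ∑ q ∈ (Ico Q (2 * Q)).filter (fun q => q.Coprime (2 * b)), (2 * Q : ℝ) := by
          apply sum_le_sum
          intro q hq
          rw [mem_filter, mem_Ico] at hq
          have : (q : ℝ) ≤ 2 * Q := by exact_mod_cast hq.1.2.le
          split_ifs
          · exact this
          · positivity
      _ ≤ ∑ q ∈ Ico Q (2 * Q), (2 * Q : ℝ) :=
          sum_le_sum_of_subset_of_nonneg (filter_subset _ _) (fun _ _ _ => by positivity)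
      _ = 2 * Q * Q := by
          rw [sum_const, Nat.card_Ico, nsmul_eq_mul]
          have : 2 * Q - Q = Q := by omega
          rw [this]
          ring
  · have hne : NZ φ L w ≠ 0 := fun h' => h (NZ_ne φ hb ht hB w h')
    set n := (NZ φ L w).natAbs with hn
    have hn1 : 1 ≤ n := by omega
    have hn2 : n ≤ b ^ (2 * L + 2) := NZ_le φ hb ht hB w
    have hdiv := hT n hn1 hn2
    calc ∑ q ∈ (Ico Q (2 * Q)).filter (fun q => q.Coprime (2 * b)),
        (if (q : ℤ) ∣ NZ φ L w then (q : ℝ) else 0)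
        ≤ ∑ q ∈ Ico Q (2 * Q), (if q ∣ n then (2 * Q : ℝ) else 0) := by
          refine (sum_le_sum_of_subset_of_nonneg (filter_subset _ _)
            (fun _ _ _ => by positivity)).trans ?_
          apply sum_le_sum
          intro q hq
          rw [mem_Ico] at hq
          have h2 : (q : ℝ) ≤ 2 * Q := by exact_mod_cast hq.2.le
          have h3 : ((q : ℤ) ∣ NZ φ L w) ↔ q ∣ n := by
            rw [hn, Int.natCast_dvd]
          simp only [h3]
          split_ifs
          · exact h2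
          · exact le_rfl
      _ = ((Ico Q (2 * Q)).filter (fun q => q ∣ n)).card * (2 * Q : ℝ) := by
          rw [← sum_filter, sum_const, nsmul_eq_mul]
      _ ≤ (n.divisors.card : ℝ) * (2 * Q : ℝ) := by
          apply mul_le_mul_of_nonneg_right _ (by positivity)
          have : (Ico Q (2 * Q)).filter (fun q => q ∣ n) ⊆ n.divisors := by
            intro q hq
            rw [mem_filter] at hq
            exact Nat.mem_divisors.2 ⟨hq.2, by omega⟩
          exact_mod_cast card_le_card this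
      _ ≤ T * (2 * Q : ℝ) := mul_le_mul_of_nonneg_right hdiv (by positivity)
      _ = 2 * Q * T := by ring

/-- TaskGsq: divisor bound for square moduli -/
theorem mainGsq (φ : Fam b s t) (hb : 2 ≤ b) (ht : 1 ≤ t) (L P : ℕ) (T : ℝ) (B : Finset ℕ) (hB : B ⊆ range L)
    (hP : 1 ≤ P) (hT : ∀ n : ℕ, 1 ≤ n → n ≤ b ^ (2 * L + 2) → (n.divisors.card : ℝ) ≤ T) :
    ∑ m ∈ (Ico P (2 * P)).filter (fun m => m.Coprime (2 * b)),
      EM (m ^ 2) (fun α => ∏ c ∈ B, gf φ c (fr b L c * α)) ≤ P * ∏ c ∈ B, Hc φ c + T := by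
  classical
  have hT0 := T_nonneg b L hb T hT
  unfold EM
  have h1 : ∑ m ∈ (Ico P (2 * P)).filter (fun m => m.Coprime (2 * b)),
      (∑ a ∈ range (m ^ 2), ∏ c ∈ B, gf φ c (fr b L c * ((a : ℝ) / ((m ^ 2 : ℕ) : ℝ)))) / ((m ^ 2 : ℕ) : ℝ) =
      ∑ w ∈ Fintype.piFinset (fun _ : B => (univ : Finset (Om s t))),
        (∏ c : B, wt (w c)) * ∑ m ∈ (Ico P (2 * P)).filter (fun m => m.Coprime (2 * b)),
          if ((m ^ 2 : ℕ) : ℤ) ∣ NZ φ L w then (1 : ℝ) else 0 := by
    simp only [mul_sum]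
    rw [sum_comm]
    apply sum_congr rfl
    intro m hm
    rw [mem_filter, mem_Ico] at hm
    have hm1 : 0 < m ^ 2 := by
      have : 0 < m := by omega
      positivity
    have hm2 : (((m ^ 2 : ℕ) : ℝ)) ≠ 0 := by exact_mod_cast hm1.ne'
    rw [G_core φ ht L (m ^ 2) hm1 B, mul_div_cancel_left₀ _ hm2]
    apply sum_congr rfl
    intro w _
    split_ifs <;> ring
  refine (le_of_eq h1).trans ?_
  refine le_trans ?_ (mass φ ht B P T hT0)
  apply sum_le_sum
  intro w _
  apply mul_le_mul_of_nonneg_left _ (prod_nonneg fun _ _ => wt_nonneg _)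
  split_ifs with h
  · calc ∑ m ∈ (Ico P (2 * P)).filter (fun m => m.Coprime (2 * b)),
        (if ((m ^ 2 : ℕ) : ℤ) ∣ NZ φ L w then (1 : ℝ) else 0)
        ≤ ∑ m ∈ (Ico P (2 * P)).filter (fun m => m.Coprime (2 * b)), (1 : ℝ) := by
          apply sum_le_sum
          intro m _
          split_ifs <;> norm_num
      _ ≤ ∑ m ∈ Ico P (2 * P), (1 : ℝ) :=
          sum_le_sum_of_subset_of_nonneg (filter_subset _ _) (fun _ _ _ => by positivity)
      _ = P := by
          rw [sum_const, Nat.card_Ico, nsmul_eq_mul]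
          have : 2 * P - P = P := by omega
          rw [this]
          ring
  · have hne : NZ φ L w ≠ 0 := fun h' => h (NZ_ne φ hb ht hB w h')
    set n := (NZ φ L w).natAbs with hn
    have hn1 : 1 ≤ n := by omega
    have hn2 : n ≤ b ^ (2 * L + 2) := NZ_le φ hb ht hB w
    have hdiv := hT n hn1 hn2
    calc ∑ m ∈ (Ico P (2 * P)).filter (fun m => m.Coprime (2 * b)),
        (if ((m ^ 2 : ℕ) : ℤ) ∣ NZ φ L w then (1 : ℝ) else 0)
        ≤ ∑ m ∈ Ico P (2 * P), (if m ∣ n then (1 : ℝ) else 0) := by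
          refine (sum_le_sum_of_subset_of_nonneg (filter_subset _ _)
            (fun _ _ _ => by positivity)).trans ?_
          apply sum_le_sum
          intro m _
          have h3 : (((m ^ 2 : ℕ) : ℤ) ∣ NZ φ L w) → m ∣ n := by
            intro h4
            rw [Int.natCast_dvd] at h4
            exact (dvd_pow_self m two_ne_zero).trans h4
          split_ifs with h5 h6
          · exact le_rfl
          · exact absurd (h3 h5) h6
          · norm_num
          · exact le_rfl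
      _ = ((Ico P (2 * P)).filter (fun m => m ∣ n)).card := by
          rw [← sum_filter, sum_const, nsmul_eq_mul, mul_one]
      _ ≤ (n.divisors.card : ℝ) := by
          have : (Ico P (2 * P)).filter (fun m => m ∣ n) ⊆ n.divisors := by
            intro m hm
            rw [mem_filter] at hm
            exact Nat.mem_divisors.2 ⟨hm.2, by omega⟩
          exact_mod_cast card_le_card this
      _ ≤ T := hdiv

end Pool.Agent.V7H16.GD
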