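import Pool.Agent.V7H16.GD.Defs
import Pool.Agent.R471.RD.LS

/-!
Large sieve and square moduli for the fourth power of a block, for arbitrary digit sets
(after `Pool.Agent.R471.RD.LS`).
-/

set_option autoImplicit false

namespace Pool.Agent.V7H16.GD

open Finset Pool.Agent.Helper112
open Pool.Agent.W89.PW (fr)
open Pool.Agent.H39R3.PB (ph pts dilate coprime_b)
open Pool.Agent.H39R3.PS (EM)
open Pool.Agent.H245R3.PSSA (pars dilate_all)
open Pool.Agent.R471.RD.LS (nn nn_inj nn_le range_le)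

variable {b s t : ℕ}

/-- representations of `z` as a sum of two elements of the digit set -/
def r2 (φ : Fam b s t) (c z : ℕ) : ℕ :=
  ((univ : Finset (Fin s × Fin s)).filter (fun p => φ.σ c p.1 + φ.σ c p.2 = z)).card

def ww (φ : Fam b s t) (c z : ℕ) : ℕ := if φ.A c = true then r2 φ c z else (if z = 0 then 1 else 0)

noncomputable def XX (φ : Fam b s t) (c : ℕ) (x : ℝ) : ℂ := if φ.A c = true then SS φ c x else 1

lemma SS_sq (φ : Fam b s t) (ht : 1 ≤ t) (c : ℕ) (x : ℝ) :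
    SS φ c x ^ 2 = ∑ z ∈ range (2 * b - 1), (r2 φ c z : ℂ) * ee (z * x) := by
  have h0 : SS φ c x ^ 2 = ∑ p : Fin s × Fin s, ee (((φ.σ c p.1 + φ.σ c p.2 : ℕ) : ℝ) * x) := by
    unfold SS
    rw [sq, sum_mul_sum, Fintype.sum_prod_type]
    refine sum_congr rfl fun i _ => sum_congr rfl fun j _ => ?_
    rw [← ls_ee_add]
    congr 1
    push_cast
    ring
  have h1 : ∀ p ∈ (univ : Finset (Fin s × Fin s)), φ.σ c p.1 + φ.σ c p.2 ∈ range (2 * b - 1) := by
    intro p _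
    have e1 := φ.le c p.1
    have e2 := φ.le c p.2
    rw [mem_range]; omega
  rw [h0, ← sum_fiberwise_of_maps_to h1]
  apply sum_congr rfl
  intro z _
  rw [r2, card_eq_sum_ones, Nat.cast_sum, sum_mul]
  apply sum_congr rfl
  intro p hp
  rw [mem_filter] at hp
  rw [hp.2]
  push_cast
  rw [one_mul]

lemma XX_sq (φ : Fam b s t) (ht : 1 ≤ t) (c : ℕ) (x : ℝ) :
    XX φ c x ^ 2 = ∑ z ∈ range (2 * b - 1), (ww φ c z : ℂ) * ee (z * x) := by
  unfold XX ww
  by_cases h : φ.A c = true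
  · simp only [h, if_true]
    exact SS_sq φ ht c x
  · simp only [h, if_false]
    have hb : 0 < 2 * b - 1 := by
      have h1 := s_two φ
      have h2 := φ.le 0 ⟨0, by omega⟩
      omega
    rw [Finset.sum_eq_single_of_mem 0 (mem_range.2 hb)]
    · simp [ls_ee_zero]
    · intro z _ hz
      rw [if_neg hz]
      simp

/-- the energy -/
noncomputable def Ec (φ : Fam b s t) (c : ℕ) : ℝ := ∑ z ∈ range (2 * b - 1), ((ww φ c z : ℕ) : ℝ) ^ 2

lemma Ec_nonneg (φ : Fam b s t) (c : ℕ) : 0 ≤ Ec φ c := sum_nonneg fun _ _ => sq_nonneg _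

noncomputable def Nc (φ : Fam b s t) (c : ℕ) : ℝ := if φ.A c = true then (s : ℝ) ^ 4 else 1

lemma Nc_pos (φ : Fam b s t) (c : ℕ) : 0 < Nc φ c := by
  have : (0 : ℝ) < s := by exact_mod_cast s_pos φ
  unfold Nc
  split_ifs <;> positivity

lemma SSX_expand (φ : Fam b s t) (ht : 1 ≤ t) (M : ℕ) (x : ℝ) :
    ∏ c : Fin (M + 1), XX φ c (fr b M c * x) ^ 2 =
      ∑ z ∈ Fintype.piFinset (fun _ : Fin (M + 1) => range (2 * b - 1)),
        ((∏ c : Fin (M + 1), ww φ c (z c) : ℕ) : ℂ) * ee (nn b M z * x) := by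
  simp_rw [XX_sq φ ht]
  rw [prod_univ_sum]
  apply sum_congr rfl
  intro z _
  rw [prod_mul_distrib]
  push_cast
  congr 1
  unfold nn
  push_cast
  rw [sum_mul]
  induction (univ : Finset (Fin (M + 1))) using Finset.induction_on with
  | empty => simp [ee]
  | insert a t ha ih =>
    rw [prod_insert ha, sum_insert ha, ls_ee_add, ih]
    congr 2
    ring

lemma energy_sum (φ : Fam b s t) (M : ℕ) :
    ∑ z ∈ Fintype.piFinset (fun _ : Fin (M + 1) => range (2 * b - 1)),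
      ((∏ c : Fin (M + 1), ww φ c (z c) : ℕ) : ℝ) ^ 2 = ∏ c ∈ range (M + 1), Ec φ c := by
  have h3 : ∀ z : Fin (M + 1) → ℕ, ((∏ c : Fin (M + 1), ww φ c (z c) : ℕ) : ℝ) ^ 2 =
      ∏ c : Fin (M + 1), ((ww φ c (z c) : ℝ)) ^ 2 := by
    intro z
    push_cast
    rw [← prod_pow]
  simp_rw [h3]
  rw [← prod_univ_sum (fun _ : Fin (M + 1) => range (2 * b - 1))
    (fun c j => ((ww φ c j : ℝ)) ^ 2)]
  rw [← Fin.prod_univ_eq_prod_range (fun c => Ec φ c) (M + 1)]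
  rfl

/-- large sieve for the block, after rescaling -/
lemma block_ls (φ : Fam b s t) (hb : 2 ≤ b) (ht : 1 ≤ t) (M F : ℕ) :
    ∑ f ∈ Icc 1 F, ∑ a ∈ (range f).filter (fun a => a.Coprime f),
      ‖∏ c : Fin (M + 1), XX φ c (fr b M c * ((a : ℝ) / f)) ^ 2‖ ^ 2 ≤
      6 * ((2 * b ^ (2 * M + 3) : ℕ) + (F : ℝ) ^ 2) * ∏ c ∈ range (M + 1), Ec φ c := by
  classical
  set P := Fintype.piFinset (fun _ : Fin (M + 1) => range (2 * b - 1)) with hP
  set W : (Fin (M + 1) → ℕ) → ℝ := fun z => ((∏ c : Fin (M + 1), ww φ c (z c) : ℕ) : ℝ) with hW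
  set α : ℕ → ℂ := fun n => ∑ z ∈ P.filter (fun z => nn b M z + 1 = n), (W z : ℂ) with hα
  set N := 2 * b ^ (2 * M + 3) with hN
  have hs18 : ∀ z ∈ P, ∀ c, z c ≤ 2 * (b - 1) := by
    intro z hz c
    rw [hP, Fintype.mem_piFinset] at hz
    exact range_le b _ (hz c)
  have hmaps : ∀ z ∈ P, nn b M z + 1 ∈ Icc 1 N := by
    intro z hz
    rw [mem_Icc]
    exact ⟨by omega, nn_le b hb M z (hs18 z hz)⟩
  have key := additive_large_sieve N F α
  have h1 : ∑ n ∈ Icc 1 N, ‖α n‖ ^ 2 = ∏ c ∈ range (M + 1), Ec φ c := by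
    have h2 : ∀ n, ‖α n‖ ^ 2 = ∑ z ∈ P.filter (fun z => nn b M z + 1 = n), W z ^ 2 := by
      intro n
      rw [hα]
      simp only
      rcases (P.filter (fun z => nn b M z + 1 = n)).eq_empty_or_nonempty with h | ⟨z, hz⟩
      · rw [h]; simp
      · have : P.filter (fun z => nn b M z + 1 = n) = {z} := by
          apply eq_singleton_iff_unique_mem.2 ⟨hz, ?_⟩
          intro z' hz'
          rw [mem_filter] at hz hz'
          exact nn_inj b hb M z' z (hs18 z' hz'.1) (hs18 z hz.1) (by omega)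
        rw [this]
        simp
    simp_rw [h2]
    rw [sum_fiberwise_of_maps_to hmaps (fun z => W z ^ 2)]
    exact energy_sum φ M
  rw [h1] at key
  refine le_trans (le_of_eq ?_) key
  apply sum_congr rfl
  intro f _
  apply sum_congr rfl
  intro a _
  congr 1
  rw [SSX_expand φ ht]
  have h4 : ∑ n ∈ Icc 1 N, α n * ee (n * a / f) =
      ee ((a : ℝ) / f) * ∑ z ∈ P, ((∏ c : Fin (M + 1), ww φ c (z c) : ℕ) : ℂ) *
        ee (nn b M z * ((a : ℝ) / f)) := by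
    rw [hα]
    simp only
    simp_rw [sum_mul]
    rw [← sum_fiberwise_of_maps_to hmaps, mul_sum]
    apply sum_congr rfl
    intro n _
    rw [mul_sum]
    apply sum_congr rfl
    intro z hz
    rw [mem_filter] at hz
    rw [← hz.2, hW]
    have : ee (((nn b M z + 1 : ℕ) : ℝ) * a / f) =
        ee ((a : ℝ) / f) * ee (nn b M z * ((a : ℝ) / f)) := by
      rw [← ls_ee_add]
      congr 1
      push_cast
      ring
    rw [this]
    push_cast
    ring
  rw [h4, norm_mul, ls_norm_ee, one_mul]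

/-- the function of the block as a norm square -/
lemma block_eq (φ : Fam b s t) (M : ℕ) (x : ℝ) :
    QF φ M (M + 1) x ^ 4 =
      ‖∏ c : Fin (M + 1), XX φ c (fr b M c * x) ^ 2‖ ^ 2 / ∏ c ∈ range (M + 1), Nc φ c := by
  have h0 : ∀ c x, qf φ c x ^ 4 = (‖XX φ c x‖ ^ 2) ^ 2 / Nc φ c := by
    intro c x
    unfold qf XX Nc
    split_ifs
    · unfold hs
      rw [div_pow, ← pow_mul]
    · simp
  unfold QF
  rw [← prod_pow, norm_prod, ← prod_pow,
    Fin.prod_univ_eq_prod_range (fun c => ‖XX φ c (fr b M c * x) ^ 2‖ ^ 2) (M + 1), ← prod_div_distrib]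
  apply prod_congr rfl
  intro c _
  rw [h0, norm_pow]

theorem mainLS (φ : Fam b s t) (hb : 2 ≤ b) (ht : 1 ≤ t) (L J Q : ℕ) (hJ : 1 ≤ J) (hJL : J ≤ L)
    (h1 : Q ≤ b ^ J) (h2 : b ^ J ≤ b * Q) :
    pts b Q (fun α => QF φ L J α ^ 4) ≤
      12 * ((b : ℝ) ^ 3 + 2) * Q * (b : ℝ) ^ J * ∏ c ∈ range J, (Ec φ c / Nc φ c) := by
  obtain ⟨M, rfl⟩ : ∃ M, J = M + 1 := ⟨J - 1, by omega⟩
  have hb0 : 0 < b := by omega
  have hbR : (0 : ℝ) < b := by exact_mod_cast hb0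
  have hQ : 1 ≤ Q := by
    have : 0 < b ^ (M + 1) := by positivity
    by_contra hcon
    have h3 : Q = 0 := by omega
    rw [h3, mul_zero] at h2
    omega
  set F : ℝ → ℝ := fun x => QF φ M (M + 1) x ^ 4 with hF
  have hper : ∀ (x : ℝ) (n : ℤ), F (x + n) = F x := by
    intro x n
    simp only [hF, QF_add_int]
  have e1 : pts b Q (fun α => QF φ L (M + 1) α ^ 4) = pts b Q F := by
    unfold pts
    apply sum_congr rfl
    intro q hq
    rw [mem_filter] at hq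
    rw [← dilate (coprime_b hq.2) (L - M) F hper]
    apply sum_congr rfl
    intro a _
    simp only [hF]
    rw [QF_scale φ (L := L) (M := M) (by omega) (by omega)]
  rw [e1]
  have e2 : pts b Q F ≤
      ∑ f ∈ Icc 1 (2 * Q), ∑ a ∈ (range f).filter (fun a => a.Coprime f), F ((a : ℝ) / f) := by
    unfold pts
    apply sum_le_sum_of_subset_of_nonneg
    · intro q hq
      rw [mem_filter, mem_Ico] at hq
      rw [mem_Icc]; omega
    · intro q _ _
      exact sum_nonneg fun a _ => pow_nonneg (QF_nonneg _ _ _ _) _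
  refine e2.trans ?_
  have hN0 : 0 < ∏ c ∈ range (M + 1), Nc φ c := prod_pos fun c _ => Nc_pos φ c
  have e3 : ∑ f ∈ Icc 1 (2 * Q), ∑ a ∈ (range f).filter (fun a => a.Coprime f), F ((a : ℝ) / f) =
      (∑ f ∈ Icc 1 (2 * Q), ∑ a ∈ (range f).filter (fun a => a.Coprime f),
      ‖∏ c : Fin (M + 1), XX φ c (fr b M c * ((a : ℝ) / f)) ^ 2‖ ^ 2) / ∏ c ∈ range (M + 1), Nc φ c := by
    rw [sum_div]
    apply sum_congr rfl
    intro f _
    rw [sum_div]
    apply sum_congr rfl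
    intro a _
    simp only [hF]
    exact block_eq φ M _
  rw [e3, div_le_iff₀ hN0]
  refine (block_ls φ hb ht M (2 * Q)).trans ?_
  have h3 : (b : ℝ) ^ M ≤ Q := by
    have : b ^ M ≤ Q := by
      have h4 : b ^ (M + 1) = b * b ^ M := by ring
      rw [h4] at h2
      exact Nat.le_of_mul_le_mul_left h2 hb0
    exact_mod_cast this
  have h4 : (Q : ℝ) ≤ (b : ℝ) ^ (M + 1) := by exact_mod_cast h1
  have hQ0 : (0 : ℝ) < Q := by exact_mod_cast hQ
  have h5 : (((2 * b ^ (2 * M + 3) : ℕ)) : ℝ) + ((2 * Q : ℕ) : ℝ) ^ 2 ≤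
      (2 * (b : ℝ) ^ 3 + 4) * (Q : ℝ) ^ 2 := by
    push_cast
    have : (b : ℝ) ^ (2 * M + 3) = (b : ℝ) ^ 3 * ((b : ℝ) ^ M) ^ 2 := by ring
    rw [this]
    have h6 : ((b : ℝ) ^ M) ^ 2 ≤ (Q : ℝ) ^ 2 := by gcongr
    have h7 : 2 * ((b : ℝ) ^ 3 * ((b : ℝ) ^ M) ^ 2) ≤ 2 * ((b : ℝ) ^ 3 * (Q : ℝ) ^ 2) := by gcongr
    linarith
  have hE0 : 0 ≤ ∏ c ∈ range (M + 1), Ec φ c := prod_nonneg fun c _ => Ec_nonneg φ c
  have hm : (∏ c ∈ range (M + 1), (Ec φ c / Nc φ c)) * ∏ c ∈ range (M + 1), Nc φ c =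
      ∏ c ∈ range (M + 1), Ec φ c := by
    rw [prod_div_distrib, div_mul_cancel₀ _ hN0.ne']
  calc 6 * (((2 * b ^ (2 * M + 3) : ℕ) : ℝ) + ((2 * Q : ℕ) : ℝ) ^ 2) * ∏ c ∈ range (M + 1), Ec φ c
      ≤ 6 * ((2 * (b : ℝ) ^ 3 + 4) * (Q : ℝ) ^ 2) * ∏ c ∈ range (M + 1), Ec φ c := by gcongr
    _ = 6 * (2 * (b : ℝ) ^ 3 + 4) * (Q : ℝ) * (∏ c ∈ range (M + 1), Ec φ c) * (Q : ℝ) := by ring
    _ ≤ 6 * (2 * (b : ℝ) ^ 3 + 4) * (Q : ℝ) * (∏ c ∈ range (M + 1), Ec φ c) * (b : ℝ) ^ (M + 1) := by gcongr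
    _ = 12 * ((b : ℝ) ^ 3 + 2) * Q * (b : ℝ) ^ (M + 1) * (∏ c ∈ range (M + 1), (Ec φ c / Nc φ c)) *
          ∏ c ∈ range (M + 1), Nc φ c := by
      rw [← hm]
      ring

theorem mainSq4 (φ : Fam b s t) (hb : 2 ≤ b) (ht : 1 ≤ t) (L J m : ℕ) (hJL : J ≤ L)
    (hM : b ^ (2 * J + 2) ≤ m) (hc : m.Coprime b) :
    EM m (fun α => QF φ L J α ^ 4) ≤ ∏ c ∈ range J, (Ec φ c / Nc φ c) := by
  classical
  have hb0 : 0 < b := by omega
  have hbR : (0 : ℝ) < b := by exact_mod_cast hb0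
  have hm0 : 0 < m := lt_of_lt_of_le (by positivity) hM
  have hmR : (0 : ℝ) < m := by exact_mod_cast hm0
  rcases Nat.eq_zero_or_pos J with hJ0 | hJ
  · subst hJ0
    unfold EM QF
    simp only [range_zero, prod_empty, one_pow, sum_const, card_range, nsmul_eq_mul, mul_one]
    rw [div_self hmR.ne']
  obtain ⟨M, rfl⟩ : ∃ M, J = M + 1 := ⟨J - 1, by omega⟩
  set F : ℝ → ℝ := fun x => QF φ M (M + 1) x ^ 4 with hF
  have hper : ∀ (x : ℝ) (n : ℤ), F (x + n) = F x := by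
    intro x n
    simp only [hF, QF_add_int]
  have e1 : ∑ a ∈ range m, QF φ L (M + 1) ((a : ℝ) / m) ^ 4 =
      ∑ a ∈ range m, F ((a : ℝ) / m) := by
    rw [← dilate_all hc (L - M) F hper]
    apply sum_congr rfl
    intro a _
    simp only [hF]
    rw [QF_scale φ (L := L) (M := M) (by omega) (by omega)]
  unfold EM
  rw [e1]
  set P := Fintype.piFinset (fun _ : Fin (M + 1) => range (2 * b - 1)) with hP
  set W : (Fin (M + 1) → ℕ) → ℝ := fun z => ((∏ c : Fin (M + 1), ww φ c (z c) : ℕ) : ℝ) with hW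
  have hs18 : ∀ z ∈ P, ∀ c, z c ≤ 2 * (b - 1) := by
    intro z hz c
    rw [hP, Fintype.mem_piFinset] at hz
    exact range_le b _ (hz c)
  have e2 : ∑ a ∈ range m, F ((a : ℝ) / m) =
      (∑ a ∈ range m, ‖∑ z ∈ P, (W z : ℂ) * ee ((nn b M z : ℝ) * ((a : ℝ) / m))‖ ^ 2) /
        ∏ c ∈ range (M + 1), Nc φ c := by
    rw [sum_div]
    apply sum_congr rfl
    intro a _
    simp only [hF]
    rw [block_eq φ M, SSX_expand φ ht]
    simp only [hW, hP, Complex.ofReal_natCast]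
  rw [e2, pars P m hm0 W (fun z => nn b M z)]
  have hlt : ∀ z ∈ P, nn b M z < m := by
    intro z hz
    have h1 := nn_le b hb M z (hs18 z hz)
    have h2 : 2 * b ^ (2 * M + 3) ≤ b ^ (2 * (M + 1) + 2) := by
      have : b ^ (2 * (M + 1) + 2) = b * b ^ (2 * M + 3) := by ring
      rw [this]
      exact Nat.mul_le_mul_right _ hb
    omega
  have e3 : ∑ z ∈ P, ∑ z' ∈ P, (if (m : ℤ) ∣ ((nn b M z : ℕ) : ℤ) - ((nn b M z' : ℕ) : ℤ)
      then W z * W z' else 0) = ∑ z ∈ P, W z ^ 2 := by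
    apply sum_congr rfl
    intro z hz
    have h1 : ∀ z' ∈ P, (if (m : ℤ) ∣ ((nn b M z : ℕ) : ℤ) - ((nn b M z' : ℕ) : ℤ)
        then W z * W z' else 0) = if z = z' then W z * W z' else 0 := by
      intro z' hz'
      have h2 : ((m : ℤ) ∣ ((nn b M z : ℕ) : ℤ) - ((nn b M z' : ℕ) : ℤ)) ↔ z = z' := by
        constructor
        · intro hd
          have h3 := hlt z hz
          have h4 := hlt z' hz'
          have h5 : ((nn b M z : ℕ) : ℤ) - ((nn b M z' : ℕ) : ℤ) = 0 := by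
            refine Int.eq_zero_of_abs_lt_dvd hd ?_
            rw [abs_lt]
            constructor <;> omega
          exact nn_inj b hb M z z' (hs18 z hz) (hs18 z' hz') (by omega)
        · rintro rfl
          simp
      by_cases h6 : z = z'
      · rw [if_pos h6, if_pos (h2.2 h6)]
      · rw [if_neg h6, if_neg (fun h => h6 (h2.1 h))]
    rw [sum_congr rfl h1, sum_ite_eq, if_pos hz, sq]
  rw [e3]
  have e4 : ∑ z ∈ P, W z ^ 2 = ∏ c ∈ range (M + 1), Ec φ c := energy_sum φ M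
  rw [e4, prod_div_distrib]
  apply le_of_eq
  field_simp

end Pool.Agent.V7H16.GD
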