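import Pool.Agent.V7H16.GD.Defs
import Pool.Agent.H512R3.PB_T6

/-!
The pointwise bound when some of the digits are fixed.
-/

set_option autoImplicit false

namespace Pool.Agent.V7H16.GD

open Finset Pool.Agent.Helper112
open Pool.Agent.W89.PW (fr)
open Pool.Agent.H39R3.PB (ph ph_nonneg ph_le_one ph_add_int coprime_b)

variable {b s t : ℕ}

lemma rel (β P Mv : ℤ) (j1 j2 : ℕ) :
    β ^ j2 * (β ^ (2 * j1) - 1) * (P * β ^ (j1 + j2) + Mv) + β ^ j1 * (β ^ (2 * j2) - 1) * (P + Mv * β ^ (j1 + j2)) =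
      (β ^ (2 * (j1 + j2)) - 1) * (P * β ^ j1 + Mv * β ^ j2) := by
  rw [show 2 * (j1 + j2) = j1 + j1 + (j2 + j2) by ring, show 2 * j1 = j1 + j1 by ring,
    show 2 * j2 = j2 + j2 by ring]
  simp only [pow_add]
  ring

/-- in every sufficiently long sequence of places with bounded gaps, two of them adjacent, there is one with a
large phase -/
lemma robust (hb : 2 ≤ b) (q h a L n g : ℕ) (hq1 : 1 < q) (hq : q.Coprime (2 * b))
    (ha : a.Coprime q) (hqh : q < b ^ h) (f : ℕ → ℕ) (hf : ∀ i < n, f i < f (i + 1) ∧ f (i + 1) ≤ f i + g)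
    (hn : 1 ≤ n) (hfn : f n ≤ L) (hlen : f 1 + h ≤ f n) (k0 : ℕ) (hk0 : k0 < n) (hadj : f (k0 + 1) = f k0 + 1) :
    ∃ i ≤ n, 1 / (3 * (b : ℝ) ^ (4 * g)) ≤ |(fr b L (f i) : ℝ) * ((a : ℝ) / q) -
      round ((fr b L (f i) : ℝ) * ((a : ℝ) / q))| := by
  by_contra hcon
  push Not at hcon
  have hqb : q.Coprime b := coprime_b hq
  have hq0 : (0 : ℝ) < q := by exact_mod_cast (by omega : 0 < q)
  have hb1 : (2 : ℤ) ≤ b := by exact_mod_cast hb
  have hbp : ∀ k : ℕ, (1 : ℤ) ≤ (b : ℤ) ^ k := fun k => one_le_pow₀ (by omega)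
  have hbR : (0 : ℝ) < b := by exact_mod_cast (by omega : 0 < b)
  -- monotonicity
  have hmono : ∀ i j : ℕ, i ≤ j → j ≤ n → f i ≤ f j := by
    intro i j hij
    induction j, hij using Nat.le_induction with
    | base => intro _; exact le_rfl
    | succ j hij ih => intro hj; exact (ih (by omega)).trans (hf j (by omega)).1.le
  let u : ℕ → ℤ := fun i => (fr b L (f i) : ℤ) * a - q * round ((fr b L (f i) : ℝ) * ((a : ℝ) / q))
  have hu : ∀ i ≤ n, 3 * (b : ℤ) ^ (4 * g) * |u i| < q := by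
    intro i hi
    have h1 := hcon i hi
    have h2 : ((u i : ℤ) : ℝ) = q * ((fr b L (f i) : ℝ) * ((a : ℝ) / q) -
        round ((fr b L (f i) : ℝ) * ((a : ℝ) / q))) := by
      simp only [u]
      push_cast
      field_simp
    have h3 : 3 * (b : ℝ) ^ (4 * g) * |((u i : ℤ) : ℝ)| < q := by
      rw [h2, abs_mul, abs_of_pos hq0]
      rw [lt_div_iff₀ (by positivity)] at h1
      have h5 := mul_lt_mul_of_pos_left h1 hq0
      nlinarith
    exact_mod_cast h3
  have hdvd : ∀ i : ℕ, (q : ℤ) ∣ (fr b L (f i) : ℤ) * a - u i := by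
    intro i
    refine ⟨round ((fr b L (f i) : ℝ) * ((a : ℝ) / q)), ?_⟩
    simp only [u]
    ring
  obtain ⟨jj, hjj⟩ : ∃ jj : ℕ → ℕ, ∀ i, jj i = f (i + 1) - f i := ⟨fun i => f (i + 1) - f i, fun _ => rfl⟩
  have hj1 : ∀ i < n, f (i + 1) = f i + jj i ∧ 1 ≤ jj i ∧ jj i ≤ g := by
    intro i hi
    have h1 := hf i hi
    rw [hjj]
    omega
  -- the exact relation
  have hrec : ∀ i, i + 2 ≤ n → (b : ℤ) ^ jj (i + 1) * ((b : ℤ) ^ (2 * jj i) - 1) * u (i + 2) +
      (b : ℤ) ^ jj i * ((b : ℤ) ^ (2 * jj (i + 1)) - 1) * u i =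
        ((b : ℤ) ^ (2 * (jj i + jj (i + 1))) - 1) * u (i + 1) := by
    intro i hi
    obtain ⟨e1, e2, e3⟩ := hj1 i (by omega)
    obtain ⟨e4, e5, e6⟩ := hj1 (i + 1) (by omega)
    have hL2 : f (i + 2) ≤ L := (hmono (i + 2) n hi le_rfl).trans hfn
    obtain ⟨M, hM⟩ : ∃ M, L = M + f (i + 2) := ⟨L - f (i + 2), by omega⟩
    generalize jj i = j1 at *
    generalize jj (i + 1) = j2 at *
    have e7 : f (i + 2) = f i + j1 + j2 := by
      have : f (i + 2) = f (i + 1) + j2 := e4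
      omega
    have g0 : (fr b L (f i) : ℤ) = (b : ℤ) ^ (L + f i + 2) + (b : ℤ) ^ M * (b : ℤ) ^ (j1 + j2) := by
      unfold fr
      push_cast
      rw [← pow_add]
      congr 2
      omega
    have g1 : (fr b L (f (i + 1)) : ℤ) = (b : ℤ) ^ (L + f i + 2) * (b : ℤ) ^ j1 + (b : ℤ) ^ M * (b : ℤ) ^ j2 := by
      unfold fr
      push_cast
      rw [← pow_add, ← pow_add]
      congr 2 <;> omega
    have g2 : (fr b L (f (i + 2)) : ℤ) = (b : ℤ) ^ (L + f i + 2) * (b : ℤ) ^ (j1 + j2) + (b : ℤ) ^ M := by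
      unfold fr
      push_cast
      rw [← pow_add]
      congr 2 <;> omega
    have hr := rel (b : ℤ) ((b : ℤ) ^ (L + f i + 2)) ((b : ℤ) ^ M) j1 j2
    rw [← g0, ← g1, ← g2] at hr
    have d0 := hdvd i
    have d1 := hdvd (i + 1)
    have d2 := hdvd (i + 2)
    have d3 : (q : ℤ) ∣ (b : ℤ) ^ j2 * ((b : ℤ) ^ (2 * j1) - 1) * u (i + 2) +
        (b : ℤ) ^ j1 * ((b : ℤ) ^ (2 * j2) - 1) * u i - ((b : ℤ) ^ (2 * (j1 + j2)) - 1) * u (i + 1) := by
      have h3 := ((d2.mul_left ((b : ℤ) ^ j2 * ((b : ℤ) ^ (2 * j1) - 1))).add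
        (d0.mul_left ((b : ℤ) ^ j1 * ((b : ℤ) ^ (2 * j2) - 1)))).sub
        (d1.mul_left ((b : ℤ) ^ (2 * (j1 + j2)) - 1))
      have h4 : (b : ℤ) ^ j2 * ((b : ℤ) ^ (2 * j1) - 1) * ((fr b L (f (i + 2)) : ℤ) * a - u (i + 2)) +
          (b : ℤ) ^ j1 * ((b : ℤ) ^ (2 * j2) - 1) * ((fr b L (f i) : ℤ) * a - u i) -
          ((b : ℤ) ^ (2 * (j1 + j2)) - 1) * ((fr b L (f (i + 1)) : ℤ) * a - u (i + 1)) =
          -((b : ℤ) ^ j2 * ((b : ℤ) ^ (2 * j1) - 1) * u (i + 2) +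
        (b : ℤ) ^ j1 * ((b : ℤ) ^ (2 * j2) - 1) * u i - ((b : ℤ) ^ (2 * (j1 + j2)) - 1) * u (i + 1)) := by
        linear_combination (a : ℤ) * hr
      rw [h4] at h3
      exact (dvd_neg.1 h3)
    have h0 := hu i (by omega)
    have h1 := hu (i + 1) (by omega)
    have h2 := hu (i + 2) hi
    have c2 : |(b : ℤ) ^ j2 * ((b : ℤ) ^ (2 * j1) - 1) * u (i + 2)| ≤ (b : ℤ) ^ (4 * g) * |u (i + 2)| := by
      rw [abs_mul]
      apply mul_le_mul_of_nonneg_right _ (abs_nonneg _)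
      rw [abs_of_nonneg (mul_nonneg (by positivity) (by have := hbp (2 * j1); omega))]
      calc (b : ℤ) ^ j2 * ((b : ℤ) ^ (2 * j1) - 1) ≤ (b : ℤ) ^ j2 * (b : ℤ) ^ (2 * j1) := by
            apply mul_le_mul_of_nonneg_left _ (by positivity); omega
        _ = (b : ℤ) ^ (j2 + 2 * j1) := (pow_add _ _ _).symm
        _ ≤ _ := pow_le_pow_right₀ (by omega) (by omega)
    have c0 : |(b : ℤ) ^ j1 * ((b : ℤ) ^ (2 * j2) - 1) * u i| ≤ (b : ℤ) ^ (4 * g) * |u i| := by
      rw [abs_mul]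
      apply mul_le_mul_of_nonneg_right _ (abs_nonneg _)
      rw [abs_of_nonneg (mul_nonneg (by positivity) (by have := hbp (2 * j2); omega))]
      calc (b : ℤ) ^ j1 * ((b : ℤ) ^ (2 * j2) - 1) ≤ (b : ℤ) ^ j1 * (b : ℤ) ^ (2 * j2) := by
            apply mul_le_mul_of_nonneg_left _ (by positivity); omega
        _ = (b : ℤ) ^ (j1 + 2 * j2) := (pow_add _ _ _).symm
        _ ≤ _ := pow_le_pow_right₀ (by omega) (by omega)
    have c1 : |((b : ℤ) ^ (2 * (j1 + j2)) - 1) * u (i + 1)| ≤ (b : ℤ) ^ (4 * g) * |u (i + 1)| := by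
      rw [abs_mul]
      apply mul_le_mul_of_nonneg_right _ (abs_nonneg _)
      rw [abs_of_nonneg (by have := hbp (2 * (j1 + j2)); omega)]
      have : (b : ℤ) ^ (2 * (j1 + j2)) ≤ (b : ℤ) ^ (4 * g) := pow_le_pow_right₀ (by omega) (by omega)
      omega
    have t1 : |(b : ℤ) ^ j2 * ((b : ℤ) ^ (2 * j1) - 1) * u (i + 2) +
        (b : ℤ) ^ j1 * ((b : ℤ) ^ (2 * j2) - 1) * u i - ((b : ℤ) ^ (2 * (j1 + j2)) - 1) * u (i + 1)| < (q : ℤ) := by
      have a1 := abs_sub ((b : ℤ) ^ j2 * ((b : ℤ) ^ (2 * j1) - 1) * u (i + 2) +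
        (b : ℤ) ^ j1 * ((b : ℤ) ^ (2 * j2) - 1) * u i) (((b : ℤ) ^ (2 * (j1 + j2)) - 1) * u (i + 1))
      have a2 := abs_add_le ((b : ℤ) ^ j2 * ((b : ℤ) ^ (2 * j1) - 1) * u (i + 2))
        ((b : ℤ) ^ j1 * ((b : ℤ) ^ (2 * j2) - 1) * u i)
      have e0 : 3 * (b : ℤ) ^ (4 * g) * |u i| = 3 * ((b : ℤ) ^ (4 * g) * |u i|) := by ring
      have e1' : 3 * (b : ℤ) ^ (4 * g) * |u (i + 1)| = 3 * ((b : ℤ) ^ (4 * g) * |u (i + 1)|) := by ring
      have e2' : 3 * (b : ℤ) ^ (4 * g) * |u (i + 2)| = 3 * ((b : ℤ) ^ (4 * g) * |u (i + 2)|) := by ring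
      rw [e0] at h0
      rw [e1'] at h1
      rw [e2'] at h2
      omega
    have := Int.eq_zero_of_abs_lt_dvd d3 t1
    linarith
  -- first differences
  let w : ℕ → ℤ := fun i => u (i + 1) - (b : ℤ) ^ jj i * u i
  have hwrec : ∀ i, i + 2 ≤ n → (b : ℤ) ^ jj (i + 1) * ((b : ℤ) ^ (2 * jj i) - 1) * w (i + 1) =
      ((b : ℤ) ^ (2 * jj (i + 1)) - 1) * w i := by
    intro i hi
    have h1 := hrec i hi
    have e1 : (b : ℤ) ^ (2 * (jj i + jj (i + 1))) = ((b : ℤ) ^ jj i) ^ 2 * ((b : ℤ) ^ jj (i + 1)) ^ 2 := by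
      rw [← pow_mul, ← pow_mul, ← pow_add]; congr 1; ring
    have e2 : (b : ℤ) ^ (2 * jj i) = ((b : ℤ) ^ jj i) ^ 2 := by rw [← pow_mul]; congr 1; ring
    have e3 : (b : ℤ) ^ (2 * jj (i + 1)) = ((b : ℤ) ^ jj (i + 1)) ^ 2 := by rw [← pow_mul]; congr 1; ring
    rw [e1, e2, e3] at h1
    rw [e2, e3]
    simp only [w]
    linear_combination h1
  have hpos : ∀ i < n, (0 : ℤ) < (b : ℤ) ^ (2 * jj i) - 1 := by
    intro i hi
    have h1 := (hj1 i hi).2.1
    have h2 : (b : ℤ) ^ 1 ≤ (b : ℤ) ^ (2 * jj i) := pow_le_pow_right₀ (by omega) (by omega)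
    rw [pow_one] at h2
    omega
  have hk : ∀ k < n, (b : ℤ) ^ (f (k + 1) - f 1) * ((b : ℤ) ^ (2 * jj 0) - 1) * w k =
      ((b : ℤ) ^ (2 * jj k) - 1) * w 0 := by
    intro k
    induction k with
    | zero => intro _; simp
    | succ k ih =>
      intro hk
      have h1 := ih (by omega)
      have h2 := hwrec k (by omega)
      have h3 := hpos k (by omega)
      have h4 : f (k + 1 + 1) - f 1 = (f (k + 1) - f 1) + jj (k + 1) := by
        have h5 := (hj1 (k + 1) hk).1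
        have h6 := hmono 1 (k + 1) (by omega) (by omega)
        omega
      rw [h4, pow_add]
      apply mul_left_cancel₀ h3.ne'
      linear_combination (b : ℤ) ^ (f (k + 1) - f 1) * ((b : ℤ) ^ (2 * jj 0) - 1) * h2 +
        ((b : ℤ) ^ (2 * jj (k + 1)) - 1) * h1
  -- `w 0 = 0`
  have habs : ∀ i ≤ n, |u i| < q := by
    intro i hi
    have h1 := hu i hi
    have h2 := hbp (4 * g)
    have h3 := abs_nonneg (u i)
    nlinarith
  have hw0 : w 0 = 0 := by
    have h1 := hk (n - 1) (by omega)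
    rw [Nat.sub_add_cancel hn] at h1
    have h2 : (b : ℤ) ^ (f n - f 1) ∣ ((b : ℤ) ^ (2 * jj (n - 1)) - 1) * w 0 := by
      rw [← h1, mul_assoc]
      exact Dvd.intro _ rfl
    have h3 : IsCoprime ((b : ℤ) ^ (f n - f 1)) ((b : ℤ) ^ (2 * jj (n - 1)) - 1) := by
      apply IsCoprime.pow_left
      have h4 := (hj1 (n - 1) (by omega)).2.1
      refine ⟨(b : ℤ) ^ (2 * jj (n - 1) - 1), -1, ?_⟩
      rw [← pow_succ, show 2 * jj (n - 1) - 1 + 1 = 2 * jj (n - 1) by omega]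
      ring
    have h5 := h3.dvd_of_dvd_mul_left h2
    apply Int.eq_zero_of_abs_lt_dvd h5
    have h6 : (q : ℤ) < (b : ℤ) ^ (f n - f 1) := by
      have h7 : (q : ℤ) < (b : ℤ) ^ h := by exact_mod_cast hqh
      exact h7.trans_le (pow_le_pow_right₀ (by omega) (by omega))
    refine lt_of_lt_of_le ?_ h6.le
    have h8 := hu 0 (by omega)
    have h9 := hu 1 hn
    have h10 : |w 0| ≤ |u 1| + (b : ℤ) ^ jj 0 * |u 0| := by
      simp only [w]
      refine (abs_sub _ _).trans ?_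
      rw [abs_mul, abs_of_nonneg (by positivity : (0 : ℤ) ≤ (b : ℤ) ^ jj 0)]
    have h11 : (b : ℤ) ^ jj 0 ≤ (b : ℤ) ^ (4 * g) := by
      have := (hj1 0 (by omega)).2.2
      exact pow_le_pow_right₀ (by omega) (by omega)
    have h12 : (b : ℤ) ^ jj 0 * |u 0| ≤ (b : ℤ) ^ (4 * g) * |u 0| := mul_le_mul_of_nonneg_right h11 (abs_nonneg _)
    have h13 : |u 1| ≤ (b : ℤ) ^ (4 * g) * |u 1| := by
      have := hbp (4 * g)
      have := abs_nonneg (u 1)
      nlinarith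
    have e0 : 3 * (b : ℤ) ^ (4 * g) * |u 0| = 3 * ((b : ℤ) ^ (4 * g) * |u 0|) := by ring
    have e1' : 3 * (b : ℤ) ^ (4 * g) * |u 1| = 3 * ((b : ℤ) ^ (4 * g) * |u 1|) := by ring
    rw [e0] at h8
    rw [e1'] at h9
    omega
  have hw : ∀ k < n, w k = 0 := by
    intro k hk'
    have h1 := hk k hk'
    rw [hw0, mul_zero] at h1
    have h2 := hpos 0 (by omega)
    have h3 : (0 : ℤ) < (b : ℤ) ^ (f (k + 1) - f 1) := by have := hbp (f (k + 1) - f 1); omega
    rcases mul_eq_zero.1 h1 with h4 | h4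
    · exact absurd h4 (mul_pos h3 h2).ne'
    · exact h4
  have hstep : ∀ k < n, u (k + 1) = (b : ℤ) ^ jj k * u k := by
    intro k hk'
    have := hw k hk'
    simp only [w] at this
    linarith
  have huk : ∀ k ≤ n, u k = (b : ℤ) ^ (f k - f 0) * u 0 := by
    intro k
    induction k with
    | zero => intro _; simp
    | succ k ih =>
      intro hk'
      rw [hstep k (by omega), ih (by omega), ← mul_assoc, ← pow_add]
      congr 2
      have h5 := (hj1 k (by omega)).1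
      have h6 := hmono 0 k (by omega) (by omega)
      omega
  have hu0 : u 0 = 0 := by
    have h1 := huk n le_rfl
    by_contra hne
    have h2 : 1 ≤ |u 0| := Int.one_le_abs hne
    have h3 := habs n le_rfl
    rw [h1, abs_mul, abs_of_nonneg (by positivity : (0 : ℤ) ≤ (b : ℤ) ^ (f n - f 0))] at h3
    have h4 : (q : ℤ) < (b : ℤ) ^ (f n - f 0) := by
      have h7 : (q : ℤ) < (b : ℤ) ^ h := by exact_mod_cast hqh
      have h8 := (hf 0 (by omega)).1
      have h8' : f 0 < f 1 := h8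
      exact h7.trans_le (pow_le_pow_right₀ (by omega) (by omega))
    nlinarith
  have hzero : ∀ k ≤ n, u k = 0 := by
    intro k hk'
    rw [huk k hk', hu0, mul_zero]
  -- conclusion
  have hqc : ∀ k ≤ n, (q : ℤ) ∣ (b : ℤ) ^ (2 * f k + 2) + 1 := by
    intro k hk'
    have h3 := hdvd k
    have hkL : f k ≤ L := (hmono k n hk' le_rfl).trans hfn
    have h4 : IsCoprime (q : ℤ) (a : ℤ) := by
      rw [Nat.isCoprime_iff_coprime]
      exact ha.symm
    rw [hzero k hk', sub_zero] at h3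
    have h5 := h4.dvd_of_dvd_mul_right h3
    have h6 : (fr b L (f k) : ℤ) = (b : ℤ) ^ (L - f k) * ((b : ℤ) ^ (2 * f k + 2) + 1) := by
      unfold fr
      push_cast
      rw [mul_add, ← pow_add, mul_one]
      congr 2
      omega
    rw [h6] at h5
    have h7 : IsCoprime (q : ℤ) ((b : ℤ) ^ (L - f k)) := by
      apply IsCoprime.pow_right
      exact Nat.isCoprime_iff_coprime.2 hqb
    exact h7.dvd_of_dvd_mul_left h5
  have k1 := hqc k0 hk0.le
  have k2 := hqc (k0 + 1) (by omega)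
  rw [hadj] at k2
  have k3 : (q : ℤ) ∣ (b : ℤ) ^ 2 - 1 := by
    have h1 := (k1.mul_left ((b : ℤ) ^ 2)).sub k2
    have h2 : (b : ℤ) ^ 2 * ((b : ℤ) ^ (2 * f k0 + 2) + 1) - ((b : ℤ) ^ (2 * (f k0 + 1) + 2) + 1) =
        (b : ℤ) ^ 2 - 1 := by
      rw [show 2 * (f k0 + 1) + 2 = 2 + (2 * f k0 + 2) by ring, pow_add]
      ring
    rwa [h2] at h1
  have k4 : (q : ℤ) ∣ (b : ℤ) ^ (2 * f k0 + 2) - 1 := by
    have h1 : (b : ℤ) ^ 2 - 1 ∣ (b : ℤ) ^ (2 * f k0 + 2) - 1 := by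
      rw [show 2 * f k0 + 2 = 2 * (f k0 + 1) by ring, pow_mul]
      have := sub_dvd_pow_sub_pow ((b : ℤ) ^ 2) 1 (f k0 + 1)
      simpa using this
    exact k3.trans h1
  have k5 : (q : ℤ) ∣ 2 := by
    have h1 := k1.sub k4
    have h2 : ((b : ℤ) ^ (2 * f k0 + 2) + 1) - ((b : ℤ) ^ (2 * f k0 + 2) - 1) = 2 := by ring
    rwa [h2] at h1
  have k6 : q ∣ 2 := by exact_mod_cast k5
  have k7 : q ∣ 1 := by
    have h1 : q ∣ Nat.gcd q (2 * b) := Nat.dvd_gcd dvd_rfl (k6.trans (Dvd.intro _ rfl))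
    rwa [hq] at h1
  have := Nat.le_of_dvd one_pos k7
  omega

/-- `|1 + e(x)| ≤ 2 - 4 x^2` -/
lemma norm_one_add' (x : ℝ) (h2 : |x| ≤ 1 / 2) : ‖1 + ee x‖ ≤ 2 - 4 * x ^ 2 := by
  have hx : x ^ 2 ≤ 1 / 4 := by
    have := sq_abs x
    have h3 := abs_nonneg x
    nlinarith
  apply le_of_sq_le_sq _ (by nlinarith)
  have hee : ee x = Complex.cos ((2 * Real.pi * x : ℝ)) + Complex.sin ((2 * Real.pi * x : ℝ)) * Complex.I := by
    unfold ee
    rw [← Complex.exp_mul_I]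
    congr 1
    push_cast
    ring
  have hsq : ‖1 + ee x‖ ^ 2 = 2 + 2 * Real.cos (2 * Real.pi * x) := by
    rw [← Complex.normSq_eq_norm_sq, hee, Complex.normSq_apply]
    rw [← Complex.ofReal_cos, ← Complex.ofReal_sin]
    simp only [Complex.add_re, Complex.one_re, Complex.ofReal_re, Complex.mul_re, Complex.I_re,
      Complex.ofReal_im, Complex.I_im, Complex.add_im, Complex.one_im, Complex.mul_im]
    have := Real.sin_sq_add_cos_sq (2 * Real.pi * x)
    nlinarith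
  rw [hsq]
  have hpi := Real.pi_pos
  have h3 : |2 * Real.pi * x| ≤ Real.pi := by
    rw [abs_mul, abs_of_pos (by positivity)]
    nlinarith
  have h4 := Real.cos_le_one_sub_mul_cos_sq h3
  have h5 : 2 / Real.pi ^ 2 * (2 * Real.pi * x) ^ 2 = 8 * x ^ 2 := by
    field_simp
    ring
  rw [h5] at h4
  nlinarith [sq_nonneg (x ^ 2)]

/-- the digit set has two consecutive elements -/
lemma hs_le (φ : Fam b s t) (ht : 1 ≤ t) (c : ℕ) (x : ℝ) :
    hs φ c x ≤ 1 - 4 * (x - round x) ^ 2 / b := by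
  have h1 : hs φ c x = hs φ c (x - round x) := by
    have := hs_add_int φ c (x - round x) (round x)
    rw [sub_add_cancel] at this
    exact this
  rw [h1]
  have h2 : |x - round x| ≤ 1 / 2 := abs_sub_round x
  generalize x - round x = y at h2
  have h3 := norm_one_add' y h2
  have hs2 := s_two φ
  have hs0 : (0 : ℝ) < s := by exact_mod_cast (by omega : 0 < s)
  obtain ⟨i, i', hi⟩ := φ.cons c
  have hne : i ≠ i' := by
    rintro rfl
    omega
  have hsb : s ≤ b := by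
    have h4 : (univ : Finset (Fin s)).card ≤ (range b).card := by
      apply card_le_card_of_injOn (φ.σ c)
      · intro k _
        have := φ.le c k
        rw [mem_coe, mem_range]
        omega
      · intro k _ k' _ h
        exact φ.inj c h
    rwa [card_univ, Fintype.card_fin, card_range] at h4
  have hb0 : (0 : ℝ) < b := by exact_mod_cast (by omega : 0 < b)
  have h4 : SS φ c y = (ee ((φ.σ c i : ℝ) * y) + ee ((φ.σ c i' : ℝ) * y)) +
      ∑ k ∈ (univ.erase i).erase i', ee ((φ.σ c k : ℝ) * y) := by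
    unfold SS
    rw [← add_sum_erase univ _ (mem_univ i),
      ← add_sum_erase (univ.erase i) _ (mem_erase.2 ⟨hne.symm, mem_univ i'⟩)]
    ring
  have h5 : ‖∑ k ∈ (univ.erase i).erase i', ee ((φ.σ c k : ℝ) * y)‖ ≤ (s : ℝ) - 2 := by
    calc ‖∑ k ∈ (univ.erase i).erase i', ee ((φ.σ c k : ℝ) * y)‖
        ≤ ∑ k ∈ (univ.erase i).erase i', ‖ee ((φ.σ c k : ℝ) * y)‖ := norm_sum_le _ _
      _ = (s : ℝ) - 2 := by
        simp only [ls_norm_ee, sum_const, nsmul_eq_mul, mul_one]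
        rw [card_erase_of_mem (mem_erase.2 ⟨hne.symm, mem_univ i'⟩), card_erase_of_mem (mem_univ i),
          card_univ, Fintype.card_fin, Nat.sub_sub, Nat.cast_sub hs2]
        norm_num
  have h6 : ‖ee ((φ.σ c i : ℝ) * y) + ee ((φ.σ c i' : ℝ) * y)‖ = ‖1 + ee y‖ := by
    have e : ee ((φ.σ c i' : ℝ) * y) = ee ((φ.σ c i : ℝ) * y) * ee y := by
      rw [← ls_ee_add, hi]
      congr 1
      push_cast
      ring
    rw [e, ← mul_one_add, norm_mul, ls_norm_ee, one_mul]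
  have h7 : ‖SS φ c y‖ ≤ s - 4 * y ^ 2 := by
    rw [h4]
    refine (norm_add_le _ _).trans ?_
    rw [h6]
    linarith
  unfold hs
  have h8 : ‖SS φ c y‖ / s ≤ (s - 4 * y ^ 2) / s := div_le_div_of_nonneg_right h7 hs0.le
  refine h8.trans ?_
  have h9 : ((s : ℝ) - 4 * y ^ 2) / s = 1 - 4 * y ^ 2 / s := by field_simp
  rw [h9]
  have h10 : 4 * y ^ 2 / (b : ℝ) ≤ 4 * y ^ 2 / s :=
    div_le_div_of_nonneg_left (by positivity) hs0 (by exact_mod_cast hsb)
  linarith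

/-- the saving in a window with at most `R` fixed places -/
noncomputable def sv (b R : ℕ) : ℝ := 4 * (1 / (3 * (b : ℝ) ^ (4 * (R + 1)))) ^ 2 / b

lemma sv_pos {b : ℕ} (hb : 2 ≤ b) (R : ℕ) : 0 < sv b R := by
  have : (0 : ℝ) < b := by exact_mod_cast (by omega : 0 < b)
  unfold sv
  positivity

lemma sv_lt_one {b : ℕ} (hb : 2 ≤ b) (R : ℕ) : sv b R < 1 := by
  have hb2 : (2 : ℝ) ≤ b := by exact_mod_cast hb
  have h1 : (1 : ℝ) ≤ (b : ℝ) ^ (4 * (R + 1)) := one_le_pow₀ (by linarith)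
  unfold sv
  rw [div_lt_one (by linarith)]
  have h2 : 1 / (3 * (b : ℝ) ^ (4 * (R + 1))) ≤ 1 / 3 :=
    one_div_le_one_div_of_le (by norm_num) (by linarith)
  have h3 : 0 < 1 / (3 * (b : ℝ) ^ (4 * (R + 1))) := by positivity
  nlinarith

/-- a window with few fixed places -/
lemma window (φ : Fam b s t) (hb : 2 ≤ b) (ht : 1 ≤ t) (q h a L R c₀ : ℕ) (hq1 : 1 < q)
    (hq : q.Coprime (2 * b)) (ha : a.Coprime q) (hqh : q < b ^ h) (hL : c₀ + (h + 2 * R + 3) ≤ L)
    (hR : ((Ico c₀ (c₀ + (h + 2 * R + 3))).filter (fun c => ¬ φ.A c = true)).card ≤ R) :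
    ∏ c ∈ Ico c₀ (c₀ + (h + 2 * R + 3)), pf φ c (fr b L c * ((a : ℝ) / q)) ≤ 1 - sv b R := by
  obtain ⟨W, hW⟩ : ∃ W, h + 2 * R + 3 = W := ⟨_, rfl⟩
  rw [hW] at hL hR ⊢
  set S := (Ico c₀ (c₀ + W)).filter (fun c => φ.A c = true) with hS
  have hcard : W - R ≤ S.card := by
    have h1 := card_filter_add_card_filter_not (s := Ico c₀ (c₀ + W)) (fun c => φ.A c = true)
    rw [Nat.card_Ico, ← hS] at h1
    omega
  obtain ⟨n, hn⟩ : ∃ n, S.card = n + 1 := ⟨S.card - 1, by omega⟩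
  set e := S.orderEmbOfFin hn with he
  obtain ⟨f, hf⟩ : ∃ f : ℕ → ℕ, ∀ i, ∀ hi : i < n + 1, f i = e ⟨i, hi⟩ :=
    ⟨fun i => if hi : i < n + 1 then e ⟨i, hi⟩ else 0, fun i hi => by simp [hi]⟩
  have hmem : ∀ i, i < n + 1 → f i ∈ S := by
    intro i hi
    rw [hf i hi]
    exact S.orderEmbOfFin_mem hn _
  have hlt : ∀ i j, i < j → j < n + 1 → f i < f j := by
    intro i j hij hj
    rw [hf i (by omega), hf j hj]
    exact e.strictMono hij
  have hgap : ∀ i < n, f i < f (i + 1) ∧ f (i + 1) ≤ f i + (R + 1) := by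
    intro i hi
    have h1 := hlt i (i + 1) (by omega) (by omega)
    refine ⟨h1, ?_⟩
    have h2 : Ico (f i + 1) (f (i + 1)) ⊆ (Ico c₀ (c₀ + W)).filter (fun c => ¬ φ.A c = true) := by
      intro x hx
      rw [mem_Ico] at hx
      have h3 := mem_Ico.1 (mem_filter.1 (hmem i (by omega))).1
      have h4 := mem_Ico.1 (mem_filter.1 (hmem (i + 1) (by omega))).1
      rw [mem_filter, mem_Ico]
      refine ⟨by omega, fun hA => ?_⟩
      have h5 : x ∈ S := mem_filter.2 ⟨mem_Ico.2 (by omega), hA⟩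
      have h6 : x ∈ Set.range e := by
        rw [he, Finset.range_orderEmbOfFin]
        exact mem_coe.2 h5
      obtain ⟨k, hk⟩ := h6
      have h7 := hf k.1 k.2
      have h8 : f k.1 = x := by rw [h7, ← hk]
      rcases lt_trichotomy k.1 i with h9 | h9 | h9
      · have := hlt k.1 i h9 (by omega); omega
      · rw [h9] at h8; omega
      · rcases Nat.lt_or_ge (i + 1) k.1 with h10 | h10
        · have := hlt (i + 1) k.1 h10 k.2; omega
        · have : k.1 = i + 1 := by omega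
          rw [this] at h8; omega
    have h3 := card_le_card h2
    rw [Nat.card_Ico] at h3
    omega
  have hadd : ∀ d i j, (∀ k, k < n → f k + d ≤ f (k + 1)) → i ≤ j → j ≤ n → f i + d * (j - i) ≤ f j := by
    intro d i j hd hij
    induction j, hij using Nat.le_induction with
    | base => intro _; simp
    | succ j hij ih =>
      intro hj
      have h1 := ih (by omega)
      have h2 := hd j (by omega)
      have h3 : d * (j + 1 - i) = d * (j - i) + d := by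
        rw [show j + 1 - i = (j - i) + 1 by omega]; ring
      omega
  have hf0 := mem_Ico.1 (mem_filter.1 (hmem 0 (by omega))).1
  have hfn := mem_Ico.1 (mem_filter.1 (hmem n (by omega))).1
  have hadj : ∃ k0, k0 < n ∧ f (k0 + 1) = f k0 + 1 := by
    by_contra hcon
    push Not at hcon
    have h1 := hadd 2 0 n (fun k hk => by
      have h2 := (hgap k hk).1
      have h3 := hcon k hk
      omega) (by omega) le_rfl
    omega
  obtain ⟨k0, hk0, hk1⟩ := hadj
  have hlen : f 1 + h ≤ f n := by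
    have h1 := hadd 1 1 n (fun k hk => (hgap k hk).1) (by omega) le_rfl
    omega
  obtain ⟨i, hi, hphase⟩ := robust hb q h a L n (R + 1) hq1 hq ha hqh f hgap (by omega) (by omega) hlen k0 hk0 hk1
  have hiS := hmem i (by omega)
  have hiS' := mem_filter.1 hiS
  have hb0 : (0 : ℝ) < b := by exact_mod_cast (by omega : 0 < b)
  rw [← mul_prod_erase _ _ hiS'.1]
  have h2 : ∏ x ∈ (Ico c₀ (c₀ + W)).erase (f i), pf φ x ((fr b L x : ℝ) * ((a : ℝ) / q)) ≤ 1 :=
    prod_le_one (fun _ _ => pf_nonneg _ _ _) (fun _ _ => pf_le_one _ _ _)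
  have h3 : pf φ (f i) ((fr b L (f i) : ℝ) * ((a : ℝ) / q)) ≤ 1 - sv b R := by
    refine (pf_le_qf φ _ _).trans ?_
    unfold qf
    rw [if_pos hiS'.2]
    refine (hs_le φ ht _ _).trans ?_
    unfold sv
    have h4 : (1 / (3 * (b : ℝ) ^ (4 * (R + 1)))) ^ 2 ≤ ((fr b L (f i) : ℝ) * ((a : ℝ) / q) -
        round ((fr b L (f i) : ℝ) * ((a : ℝ) / q))) ^ 2 := by
      rw [← sq_abs ((fr b L (f i) : ℝ) * ((a : ℝ) / q) - _)]
      exact pow_le_pow_left₀ (by positivity) hphase 2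
    have h5 : 4 * (1 / (3 * (b : ℝ) ^ (4 * (R + 1)))) ^ 2 / (b : ℝ) ≤ 4 * ((fr b L (f i) : ℝ) * ((a : ℝ) / q) -
        round ((fr b L (f i) : ℝ) * ((a : ℝ) / q))) ^ 2 / b := by gcongr
    linarith
  calc pf φ (f i) ((fr b L (f i) : ℝ) * ((a : ℝ) / q)) *
      ∏ x ∈ (Ico c₀ (c₀ + W)).erase (f i), pf φ x ((fr b L x : ℝ) * ((a : ℝ) / q))
      ≤ pf φ (f i) ((fr b L (f i) : ℝ) * ((a : ℝ) / q)) * 1 :=
        mul_le_mul_of_nonneg_left h2 (pf_nonneg _ _ _)
    _ ≤ 1 - sv b R := by linarith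

/-- many windows -/
lemma windows (φ : Fam b s t) (hb : 2 ≤ b) (ht : 1 ≤ t) (q h a L R : ℕ) (hq1 : 1 < q)
    (hq : q.Coprime (2 * b)) (ha : a.Coprime q) (hqh : q < b ^ h) (n : ℕ) (hn : n * (h + 2 * R + 3) ≤ L) :
    ∃ G B : ℕ, ∏ c ∈ range (n * (h + 2 * R + 3)), pf φ c (fr b L c * ((a : ℝ) / q)) ≤ (1 - sv b R) ^ G ∧
      n = G + B ∧ (R + 1) * B ≤ nf φ (n * (h + 2 * R + 3)) := by
  induction n with
  | zero => exact ⟨0, 0, by simp, rfl, by simp⟩
  | succ n ih =>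
    have e0 : (n + 1) * (h + 2 * R + 3) = n * (h + 2 * R + 3) + (h + 2 * R + 3) := by ring
    rw [e0] at hn ⊢
    obtain ⟨G, B, h1, h2, h3⟩ := ih (by omega)
    generalize n * (h + 2 * R + 3) = N0 at *
    have h0 : 0 ≤ 1 - sv b R := by linarith [sv_lt_one hb R]
    have hprod : ∏ c ∈ range (N0 + (h + 2 * R + 3)), pf φ c (fr b L c * ((a : ℝ) / q)) =
        (∏ c ∈ range N0, pf φ c (fr b L c * ((a : ℝ) / q))) *
          ∏ c ∈ Ico N0 (N0 + (h + 2 * R + 3)), pf φ c (fr b L c * ((a : ℝ) / q)) :=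
      (prod_range_mul_prod_Ico _ (by omega)).symm
    have hnf : nf φ (N0 + (h + 2 * R + 3)) = nf φ N0 +
        ((Ico N0 (N0 + (h + 2 * R + 3))).filter (fun c => ¬ φ.A c = true)).card := by
      unfold nf
      rw [← card_union_of_disjoint]
      · congr 1
        ext c
        simp only [mem_union, mem_filter, mem_range, mem_Ico]
        constructor
        · rintro ⟨h4, h5⟩
          rcases Nat.lt_or_ge c N0 with h6 | h6
          · exact Or.inl ⟨h6, h5⟩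
          · exact Or.inr ⟨⟨h6, h4⟩, h5⟩
        · rintro (⟨h4, h5⟩ | ⟨⟨h4, h5⟩, h6⟩)
          · exact ⟨by omega, h5⟩
          · exact ⟨h5, h6⟩
      · rw [disjoint_left]
        intro c hc hc2
        have h4 := mem_range.1 (mem_filter.1 hc).1
        have h5 := mem_Ico.1 (mem_filter.1 hc2).1
        omega
    rw [hprod, hnf]
    rcases Nat.lt_or_ge R ((Ico N0 (N0 + (h + 2 * R + 3))).filter (fun c => ¬ φ.A c = true)).card with hR | hR
    · refine ⟨G, B + 1, ?_, by omega, ?_⟩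
      · refine le_trans ?_ h1
        exact mul_le_of_le_one_right (prod_nonneg fun _ _ => pf_nonneg _ _ _)
          (prod_le_one (fun _ _ => pf_nonneg _ _ _) (fun _ _ => pf_le_one _ _ _))
      · have : (R + 1) * (B + 1) = (R + 1) * B + (R + 1) := by ring
        omega
    · refine ⟨G + 1, B, ?_, by omega, by omega⟩
      rw [pow_succ]
      exact mul_le_mul h1 (window φ hb ht q h a L R N0 hq1 hq ha hqh hn hR)
        (prod_nonneg fun _ _ => pf_nonneg _ _ _) (by positivity)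

/-- the pointwise bound -/
theorem ptF (φ : Fam b s t) (hb : 2 ≤ b) (ht : 1 ≤ t) (q h a L R : ℕ) (hq1 : 1 < q)
    (hq : q.Coprime (2 * b)) (ha : a.Coprime q) (hqh : q < b ^ h) :
    ∃ G B : ℕ, FF φ L L ((a : ℝ) / q) ≤ (1 - sv b R) ^ G ∧ L / (h + 2 * R + 3) = G + B ∧
      (R + 1) * B ≤ nf φ L := by
  have h1 : L / (h + 2 * R + 3) * (h + 2 * R + 3) ≤ L := Nat.div_mul_le_self _ _
  obtain ⟨G, B, h2, h3, h4⟩ := windows φ hb ht q h a L R hq1 hq ha hqh _ h1
  refine ⟨G, B, ?_, h3, h4.trans ?_⟩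
  · refine le_trans ?_ h2
    generalize L / (h + 2 * R + 3) * (h + 2 * R + 3) = N at h1
    obtain ⟨K, hK⟩ := Nat.exists_eq_add_of_le h1
    unfold FF
    have h5 : ∏ c ∈ range L, pf φ c (fr b L c * ((a : ℝ) / q)) =
        (∏ c ∈ range N, pf φ c (fr b L c * ((a : ℝ) / q))) *
          ∏ c ∈ range K, pf φ (N + c) (fr b L (N + c) * ((a : ℝ) / q)) := by
      rw [← prod_range_add (fun c => pf φ c (fr b L c * ((a : ℝ) / q))), ← hK]
    rw [h5]
    exact mul_le_of_le_one_right (prod_nonneg fun _ _ => pf_nonneg _ _ _)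
      (prod_le_one (fun _ _ => pf_nonneg _ _ _) (fun _ _ => pf_le_one _ _ _))
  · unfold nf
    apply card_le_card
    apply filter_subset_filter
    intro x hx
    rw [mem_range] at hx ⊢
    omega

end Pool.Agent.V7H16.GD
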